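import Pool.Agent.Y3.FJ.Dim

/-!
# Classification of the configurations of small deficiency
-/

set_option autoImplicit false

namespace Pool.Agent.Y3.FJ

open Finset

set_option linter.unusedSectionVars false
set_option linter.unusedSimpArgs false

noncomputable section

variable {n : ℕ} {Γ : Type}

/-- the triple `i` contains the line `c` -/
def Inn (κ : Fin n → Fin 3 → Γ) (c : Γ) (i : Fin n) : Prop := ∃ y, κ i y = c

/-- the properties of the lines of triples and of their deficiencies -/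
structure Cfg (κ : Fin n → Fin 3 → Γ) (z : Γ) (deg deg0 : Fin n → Prop)
    (dl : (Fin n → ℕ) → Fin n → ℤ) : Prop where
  inj : ∀ j, ¬ deg j → Function.Injective (κ j)
  nz : ∀ j, ¬ deg j → ∀ x, κ j x ≠ z
  sh : ∀ j x, κ j x ≠ z → ∃ i, i ≠ j ∧ Inn κ (κ j x) i
  dpar : ∀ j, deg j → ∀ x y, κ j x ≠ z → κ j y ≠ z → κ j x = κ j y
  dex : ∀ j, ¬ deg0 j → ∃ x, κ j x ≠ z
  nonneg : ∀ g j, 0 ≤ dl g j
  tot : ∀ g, ∑ j, dl g j ≤ 2
  bet : ∀ g j i i' x x', g i < g j → Inn κ (κ j x) i → g j < g i' → Inn κ (κ j x') i' →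
    1 ≤ dl g j
  bet2 : ∀ g j i i' l l' x x' y y', x ≠ x' → g i < g j → Inn κ (κ j x) i → g i' < g j →
    Inn κ (κ j x') i' → y ≠ y' → g j < g l → Inn κ (κ j y) l → g j < g l' →
    Inn κ (κ j y') l' → 2 ≤ dl g j
  dg : ∀ g j, deg j → 1 ≤ dl g j
  dz : ∀ g j, deg0 j → 2 ≤ dl g j

/-- all lines of the triple are shared with one other triple only -/
def Good (κ : Fin n → Fin 3 → Γ) (deg : Fin n → Prop) (j : Fin n) : Prop :=
  ¬ deg j ∧ ∃ j', j' ≠ j ∧ ∀ c i, Inn κ c j → Inn κ c i → i = j ∨ i = j'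

/-- the levels given by a list -/
def lv : List (Fin n) → Fin n → ℕ
  | [], _ => 0
  | a :: l, i => if i = a then 0 else lv l i + 1

theorem even_of_matching {ι : Type} (s : Finset ι) (Q : ι → ι → Prop)
    (hs : ∀ a ∈ s, ∃ b ∈ s, b ≠ a ∧ Q a b) (hsymm : ∀ a b, Q a b → Q b a)
    (huniq : ∀ a ∈ s, ∀ b c, b ∈ s → c ∈ s → b ≠ a → c ≠ a → Q a b → Q a c → b = c) :
    Even s.card := by
  choose g hg using hs
  have h1 : ∑ _x ∈ s, (1 : ZMod 2) = 0 := by
    refine Finset.sum_involution (fun a ha => g a ha) ?_ ?_ ?_ ?_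
    · intro a ha
      decide
    · intro a ha _
      exact (hg a ha).2.1
    · intro a ha
      exact (hg a ha).1
    · intro a ha
      have h2 := hg a ha
      have h3 := hg (g a ha) h2.1
      exact huniq _ h2.1 _ _ h3.1 ha h3.2.1 h2.2.1.symm h3.2.2 (hsymm _ _ h2.2.2)
  rw [Finset.sum_const, nsmul_eq_mul, mul_one, ZMod.natCast_eq_zero_iff] at h1
  exact even_iff_two_dvd.2 h1

variable {κ : Fin n → Fin 3 → Γ} {z : Γ} {deg deg0 : Fin n → Prop}
  {dl : (Fin n → ℕ) → Fin n → ℤ}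

theorem sum3 (h : Cfg κ z deg deg0 dl) (g : Fin n → ℕ) {a b c : Fin n} (hab : a ≠ b)
    (hac : a ≠ c) (hbc : b ≠ c) : dl g a + dl g b + dl g c ≤ 2 := by
  refine le_trans ?_ (h.tot g)
  have h1 : dl g a + dl g b + dl g c = ∑ j ∈ {a, b, c}, dl g j := by
    rw [sum_insert, sum_insert, sum_singleton]
    · ring
    · simpa using hbc
    · simp only [mem_insert, mem_singleton, not_or]
      exact ⟨hab, hac⟩
  rw [h1]
  exact Finset.sum_le_sum_of_subset_of_nonneg (Finset.subset_univ _) fun j _ _ => h.nonneg g j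

theorem sum2 (h : Cfg κ z deg deg0 dl) (g : Fin n → ℕ) {a b : Fin n} (hab : a ≠ b) :
    dl g a + dl g b ≤ 2 := by
  refine le_trans ?_ (h.tot g)
  have h1 : dl g a + dl g b = ∑ j ∈ {a, b}, dl g j := by
    rw [sum_insert, sum_singleton]
    simpa using hab
  rw [h1]
  exact Finset.sum_le_sum_of_subset_of_nonneg (Finset.subset_univ _) fun j _ _ => h.nonneg g j

theorem bet' (h : Cfg κ z deg deg0 dl) {g : Fin n → ℕ} {j i i' : Fin n} {c c' : Γ}
    (h1 : Inn κ c j) (h2 : Inn κ c i) (h3 : g i < g j) (h4 : Inn κ c' j) (h5 : Inn κ c' i')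
    (h6 : g j < g i') : 1 ≤ dl g j := by
  obtain ⟨x, rfl⟩ := h1
  obtain ⟨x', rfl⟩ := h4
  exact h.bet g j i i' x x' h3 h2 h6 h5

theorem bet2' (h : Cfg κ z deg deg0 dl) {g : Fin n → ℕ} {j i i' l l' : Fin n} {c1 c2 c3 c4 : Γ}
    (h0 : c1 ≠ c2) (h1 : Inn κ c1 j) (h2 : Inn κ c1 i) (h3 : g i < g j) (h1' : Inn κ c2 j)
    (h2' : Inn κ c2 i') (h3' : g i' < g j) (h0' : c3 ≠ c4) (h4 : Inn κ c3 j) (h5 : Inn κ c3 l)
    (h6 : g j < g l) (h4' : Inn κ c4 j) (h5' : Inn κ c4 l') (h6' : g j < g l') : 2 ≤ dl g j := by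
  obtain ⟨x, rfl⟩ := h1
  obtain ⟨x', rfl⟩ := h1'
  obtain ⟨y, rfl⟩ := h4
  obtain ⟨y', rfl⟩ := h4'
  exact h.bet2 g j i i' l l' x x' y y' (fun e => h0 (by rw [e])) h3 h2 h3' h2'
    (fun e => h0' (by rw [e])) h6 h5 h6' h5'

/-- the three lines of a nondegenerate triple -/
theorem lines (h : Cfg κ z deg deg0 dl) {j : Fin n} (hj : ¬ deg j) {c : Γ} (hc : Inn κ c j) :
    ∃ c1 c2, c ≠ c1 ∧ c ≠ c2 ∧ c1 ≠ c2 ∧ Inn κ c1 j ∧ Inn κ c2 j ∧
      ∀ c', Inn κ c' j → c' = c ∨ c' = c1 ∨ c' = c2 := by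
  obtain ⟨x, rfl⟩ := hc
  obtain ⟨y, hxy⟩ := exists_other x
  obtain ⟨w, hxw, hyw, hu⟩ := exists_third x y hxy
  refine ⟨κ j y, κ j w, fun e => hxy (h.inj j hj e), fun e => hxw (h.inj j hj e),
    fun e => hyw (h.inj j hj e), ⟨y, rfl⟩, ⟨w, rfl⟩, ?_⟩
  rintro _ ⟨u, rfl⟩
  rcases hu u with rfl | rfl | rfl
  · exact Or.inl rfl
  · exact Or.inr (Or.inl rfl)
  · exact Or.inr (Or.inr rfl)

theorem other (h : Cfg κ z deg deg0 dl) {j : Fin n} (hj : ¬ deg j) {c : Γ} (hc : Inn κ c j) :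
    ∃ i, i ≠ j ∧ Inn κ c i := by
  obtain ⟨x, rfl⟩ := hc
  exact h.sh j x (h.nz j hj x)

/-- a bad nondegenerate triple has two neighbours -/
theorem nbr (h : Cfg κ z deg deg0 dl) {j : Fin n} (hj : ¬ deg j) (hb : ¬ Good κ deg j) :
    ∃ p q c c', p ≠ j ∧ q ≠ j ∧ p ≠ q ∧ Inn κ c j ∧ Inn κ c p ∧ Inn κ c' j ∧ Inn κ c' q := by
  obtain ⟨p, hp, hp'⟩ := other h hj ⟨(0 : Fin 3), rfl⟩
  have h1 : ¬ ∀ c i, Inn κ c j → Inn κ c i → i = j ∨ i = p := fun h2 => hb ⟨hj, p, hp, h2⟩
  push Not at h1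
  obtain ⟨c, q, h2, h3, h4, h5⟩ := h1
  exact ⟨p, q, κ j 0, c, hp, h4, h5.symm, ⟨0, rfl⟩, hp', h2, h3⟩

theorem bad_order (h : Cfg κ z deg deg0 dl) {j : Fin n} (hb : ¬ Good κ deg j) :
    ∃ g, 1 ≤ dl g j := by
  by_cases hj : deg j
  · exact ⟨0, h.dg 0 j hj⟩
  · obtain ⟨p, q, c, c', hp, hq, hpq, h1, h2, h3, h4⟩ := nbr h hj hb
    refine ⟨lv [p, j, q], bet' h h1 h2 ?_ h3 h4 ?_⟩
    · simp [lv, hp, hp.symm]
    · simp [lv, hp, hp.symm, hq, hq.symm, hpq, hpq.symm]

/-- the partner relation -/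
def Prt (κ : Fin n → Fin 3 → Γ) (deg : Fin n → Prop) (j j' : Fin n) : Prop :=
  ¬ deg j ∧ j' ≠ j ∧ ∀ c i, Inn κ c j → Inn κ c i → i = j ∨ i = j'

theorem good_iff {j : Fin n} : Good κ deg j ↔ ∃ j', Prt κ deg j j' := by
  constructor
  · rintro ⟨h1, j', h2, h3⟩
    exact ⟨j', h1, h2, h3⟩
  · rintro ⟨j', h1, h2, h3⟩
    exact ⟨h1, j', h2, h3⟩

theorem prt_lines (h : Cfg κ z deg deg0 dl) {j j' : Fin n} (hp : Prt κ deg j j') {c : Γ}
    (hc : Inn κ c j) : Inn κ c j' := by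
  obtain ⟨i, hi, hi'⟩ := other h hp.1 hc
  rcases hp.2.2 c i hc hi' with h1 | h1
  · exact absurd h1 hi
  · rwa [h1] at hi'

/-- the lines of a nondegenerate triple all of whose lines are lines of a given triple -/
theorem lines_eq (h : Cfg κ z deg deg0 dl) {j j' : Fin n} (hj : ¬ deg j)
    (hl : ∀ c, Inn κ c j → Inn κ c j') : ¬ deg j' ∧ ∀ c, Inn κ c j' → Inn κ c j := by
  have h1 : ∀ x, ∃ y, κ j' y = κ j x := fun x => hl _ ⟨x, rfl⟩
  choose f hf using h1
  have hinj : Function.Injective f := by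
    intro x x' hx
    apply h.inj j hj
    rw [← hf x, ← hf x', hx]
  have hsurj := Finite.surjective_of_injective hinj
  refine ⟨?_, ?_⟩
  · intro hd
    have h2 := h.dpar j' hd (f 0) (f 1) (by rw [hf]; exact h.nz j hj 0)
      (by rw [hf]; exact h.nz j hj 1)
    rw [hf, hf] at h2
    exact absurd (h.inj j hj h2) (by decide)
  · rintro _ ⟨y, rfl⟩
    obtain ⟨x, rfl⟩ := hsurj y
    exact ⟨x, (hf x).symm⟩

theorem prt_symm (h : Cfg κ z deg deg0 dl) {j j' : Fin n} (hp : Prt κ deg j j') :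
    Prt κ deg j' j := by
  obtain ⟨h1, h2⟩ := lines_eq h hp.1 fun c hc => prt_lines h hp hc
  exact ⟨h1, hp.2.1.symm, fun c i hc hi => (hp.2.2 c i (h2 c hc) hi).symm⟩

theorem prt_uniq (h : Cfg κ z deg deg0 dl) {j a b : Fin n} (ha : Prt κ deg j a)
    (hb : Prt κ deg j b) : a = b := by
  have h1 := prt_lines h ha ⟨(0 : Fin 3), rfl⟩
  rcases hb.2.2 _ a ⟨0, rfl⟩ h1 with h2 | h2
  · exact absurd h2 ha.2.1
  · exact h2

open Classical in
theorem even_bad (h : Cfg κ z deg deg0 dl) (hn : Even n) :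
    Even (univ.filter fun j => ¬ Good κ deg j).card := by
  have h1 : Even (univ.filter fun j => Good κ deg j).card := by
    refine even_of_matching _ (Prt κ deg) ?_ (fun a b hab => prt_symm h hab)
      (fun a _ b c _ _ _ _ hb hc => prt_uniq h hb hc)
    intro a ha
    obtain ⟨b, hb⟩ := good_iff.1 (mem_filter.1 ha).2
    exact ⟨b, mem_filter.2 ⟨mem_univ _, good_iff.2 ⟨a, prt_symm h hb⟩⟩, hb.2.1, hb⟩
  have h2 := Finset.card_filter_add_card_filter_not (s := (univ : Finset (Fin n)))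
    (fun j => Good κ deg j)
  rw [card_univ, Fintype.card_fin] at h2
  rw [← h2, Nat.even_add] at hn
  exact hn.1 h1

/-! ### a degenerate triple -/

theorem caseI (h : Cfg κ z deg deg0 dl) (hn : Even n) {j0 : Fin n} (hj0 : deg j0) :
    ∃ b, b ≠ j0 ∧ ¬ Good κ deg b ∧ ∀ j, j ≠ j0 → j ≠ b → Good κ deg j := by
  classical
  have hbad0 : ¬ Good κ deg j0 := fun hg => hg.1 hj0
  have heven := even_bad h hn
  have hmem0 : j0 ∈ univ.filter fun j => ¬ Good κ deg j := mem_filter.2 ⟨mem_univ _, hbad0⟩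
  have hcard : 1 < (univ.filter fun j => ¬ Good κ deg j).card := by
    have h1 := card_pos.2 ⟨j0, hmem0⟩
    rcases heven with ⟨r, hr⟩
    omega
  obtain ⟨b, hb, hb0⟩ := exists_mem_ne hcard j0
  have hbadb : ¬ Good κ deg b := (mem_filter.1 hb).2
  refine ⟨b, hb0, hbadb, ?_⟩
  intro c hc0 hcb
  by_contra hbadc
  -- `j0` has a direction
  have hd0 : ¬ deg0 j0 := by
    intro hd
    obtain ⟨g, hg⟩ := bad_order h hbadb
    have h1 := h.dz g j0 hd
    have h2 := sum2 h g hb0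
    omega
  -- no other degenerate triple
  have hnd : ∀ j, j ≠ j0 → ¬ deg j := by
    intro j hj hd
    have h3 : ∃ e, e ≠ j0 ∧ e ≠ j ∧ ¬ Good κ deg e := by
      by_cases hbj : b = j
      · exact ⟨c, hc0, fun h4 => hcb (h4.trans hbj.symm), hbadc⟩
      · exact ⟨b, hb0, hbj, hbadb⟩
    obtain ⟨e, he0, hej, hebad⟩ := h3
    obtain ⟨g, hg⟩ := bad_order h hebad
    have h4 := h.dg g j0 hj0
    have h5 := h.dg g j hd
    have h6 := sum3 h g hj (Ne.symm hej) he0.symm (a := j) (b := j0) (c := e)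
    omega
  obtain ⟨x0, hx0⟩ := h.dex j0 hd0
  obtain ⟨i1, hi1, hi1'⟩ := h.sh j0 x0 hx0
  have hndi1 := hnd i1 hi1
  -- `j0` shares one line with `i1` only
  have huniq : ∀ c', Inn κ c' i1 → Inn κ c' j0 → c' = κ j0 x0 := by
    rintro _ ⟨y, rfl⟩ ⟨x', hx'⟩
    rw [← hx']
    exact h.dpar j0 hj0 x' x0 (by rw [hx']; exact h.nz i1 hndi1 y) hx0
  obtain ⟨c1, c2, hc1, hc2, hc12, hIc1, hIc2, hall⟩ := lines h hndi1 hi1'
  obtain ⟨p, hp, hpc⟩ := other h hndi1 hIc1
  have hpj0 : p ≠ j0 := by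
    rintro rfl
    exact hc1 (huniq c1 hIc1 hpc).symm
  have hIj0 : Inn κ (κ j0 x0) j0 := ⟨x0, rfl⟩
  have hbadi1 : ¬ Good κ deg i1 := by
    rintro ⟨_, j', _, hall'⟩
    have h1 := hall' _ j0 hi1' hIj0
    have h2 := hall' _ p hIc1 hpc
    rcases h1 with h1 | h1
    · exact hi1 h1.symm
    · rcases h2 with h2 | h2
      · exact hp h2
      · exact hpj0 (h2.trans h1.symm)
  -- all other bad triples are equal to `p`
  have claim : ∀ e, ¬ Good κ deg e → e ≠ j0 → e ≠ i1 → e = p := by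
    intro e hebad he0 he1
    by_contra hep
    have hnde := hnd e he0
    obtain ⟨p2, q2, d, d', hp2, hq2, hpq2, h1, h2, h3, h4⟩ := nbr h hnde hebad
    -- it suffices to find good levels
    have fin : ∀ g : Fin n → ℕ, ((g j0 < g i1 ∧ g i1 < g p) ∨ (g p < g i1 ∧ g i1 < g j0)) →
        ((g p2 < g e ∧ g e < g q2) ∨ (g q2 < g e ∧ g e < g p2)) → False := by
      intro g hg1 hg2
      have e0 := h.dg g j0 hj0
      have e1 : 1 ≤ dl g i1 := by
        rcases hg1 with hg1 | hg1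
        · exact bet' h hi1' hIj0 hg1.1 hIc1 hpc hg1.2
        · exact bet' h hIc1 hpc hg1.1 hi1' hIj0 hg1.2
      have e2 : 1 ≤ dl g e := by
        rcases hg2 with hg2 | hg2
        · exact bet' h h1 h2 hg2.1 h3 h4 hg2.2
        · exact bet' h h3 h4 hg2.1 h1 h2 hg2.2
      have e3 := sum3 h g he0.symm hi1.symm he1 (a := j0) (b := e) (c := i1)
      omega
    have n1 := hi1.symm
    have n2 := hp.symm
    have n3 := hpj0.symm
    have n4 := he0.symm
    have n5 := he1.symm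
    have n6 : p ≠ e := fun h => hep h.symm
    by_cases hA : p2 = i1
    · subst hA
      by_cases hB : q2 = j0
      · subst hB
        refine fin (lv [p, p2, e]) (Or.inr ⟨?_, ?_⟩) (Or.inl ⟨?_, ?_⟩)
        · simp [lv, hp, n2]
        · simp [lv, hp, n2, n1, hi1, n3, hpj0, n4]
        · simp [lv, hp, n2, he1, n5, hep]
        · simp [lv, hep, he1, n1, n3, n4]
      · refine fin (lv [j0, p2, e]) (Or.inl ⟨?_, ?_⟩) (Or.inl ⟨?_, ?_⟩)
        · simp [lv, hi1, n1]
        · simp [lv, hi1, hpj0, hp, n6]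
        · simp [lv, hi1, he0, he1]
        · simp [lv, he0, he1, hB, hpq2.symm, hq2]
    · by_cases hA' : q2 = i1
      · subst hA'
        by_cases hB : p2 = j0
        · subst hB
          refine fin (lv [p, q2, e]) (Or.inr ⟨?_, ?_⟩) (Or.inr ⟨?_, ?_⟩)
          · simp [lv, hp, n2]
          · simp [lv, hp, n2, n1, hi1, n3, hpj0, n4]
          · simp [lv, hp, n2, he1, n5, hep]
          · simp [lv, hep, he1, n1, n3, n4]
        · refine fin (lv [j0, q2, e]) (Or.inl ⟨?_, ?_⟩) (Or.inr ⟨?_, ?_⟩)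
          · simp [lv, hi1, n1]
          · simp [lv, hi1, hpj0, hp, n6]
          · simp [lv, hi1, he0, he1]
          · simp [lv, he0, he1, hB, hpq2, hp2]
      · have hA1 : i1 ≠ p2 := fun h => hA h.symm
        have hA2 : i1 ≠ q2 := fun h => hA' h.symm
        have hp2' := hp2.symm
        have hq2' := hq2.symm
        by_cases hB : q2 ≠ j0 ∧ p2 ≠ p
        · have hB2 := hB.2.symm
          refine fin (lv [j0, p2, i1, e]) (Or.inl ⟨?_, ?_⟩) (Or.inl ⟨?_, ?_⟩)
          · simp [lv, hi1, hA1]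
          · simp [lv, hi1, hA1, hpj0, hB2, hp, n6]
          · simp [lv, he0, hp2', he1]
            split_ifs <;> omega
          · simp [lv, he0, hp2', he1, hB.1, hpq2.symm, hA', hq2]
        · have hB' : q2 = j0 ∨ p2 = p := by
            by_contra hcon
            push Not at hcon
            exact hB hcon
          have hq2p : p ≠ q2 := by
            rcases hB' with h5 | h5
            · rw [h5]; exact hpj0
            · rw [← h5]; exact hpq2
          have hp2j0 : p2 ≠ j0 := by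
            rcases hB' with h5 | h5
            · rw [← h5]; exact hpq2
            · rw [h5]; exact hpj0
          refine fin (lv [j0, q2, i1, e]) (Or.inl ⟨?_, ?_⟩) (Or.inr ⟨?_, ?_⟩)
          · simp [lv, hi1, hA2]
          · simp [lv, hi1, hA2, hpj0, hq2p, hp, n6]
          · simp [lv, he0, hq2', he1]
            split_ifs <;> omega
          · simp [lv, he0, hq2', he1, hp2j0, hpq2, hA, hp2]
  -- conclusion
  have hsub : (univ.filter fun j => ¬ Good κ deg j) = {j0, i1, p} := by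
    apply Finset.Subset.antisymm
    · intro e he
      rw [mem_filter] at he
      simp only [mem_insert, mem_singleton]
      by_cases h1 : e = j0
      · exact Or.inl h1
      · by_cases h2 : e = i1
        · exact Or.inr (Or.inl h2)
        · exact Or.inr (Or.inr (claim e he.2 h1 h2))
    · have hpbad : ¬ Good κ deg p := by
        by_cases h1 : b = i1
        · rw [← claim c hbadc hc0 (fun h2 => hcb (h2.trans h1.symm))]
          exact hbadc
        · rw [← claim b hbadb hb0 h1]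
          exact hbadb
      intro e he
      simp only [mem_insert, mem_singleton] at he
      rw [mem_filter]
      refine ⟨mem_univ _, ?_⟩
      rcases he with rfl | rfl | rfl
      · exact hbad0
      · exact hbadi1
      · exact hpbad
  rw [hsub, card_insert_of_notMem, card_insert_of_notMem, card_singleton] at heven
  · exact absurd heven (by decide)
  · simpa using hp.symm
  · simp only [mem_insert, mem_singleton, not_or]
    exact ⟨hi1.symm, hpj0.symm⟩

/-! ### no degenerate triples -/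

/-- the neighbours of the last element of four triples with a common line -/
theorem big_nbr (h : Cfg κ z deg deg0 dl) {c : Γ} {a b e f : Fin n} (hab : a ≠ b) (hae : a ≠ e)
    (haf : a ≠ f) (hbe : b ≠ e) (hbf : b ≠ f) (hef : e ≠ f) (ha : Inn κ c a) (hb : Inn κ c b)
    (he : Inn κ c e) (hf : Inn κ c f) {c' : Γ} (h1 : Inn κ c' f) {i : Fin n} (h2 : Inn κ c' i) :
    i = a ∨ i = b ∨ i = e ∨ i = f := by
  by_contra hcon
  push Not at hcon
  obtain ⟨n1, n2, n3, n4⟩ := hcon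
  have e1 : 1 ≤ dl (lv [a, b, e, f]) b := by
    refine bet' h hb ha ?_ hb he ?_
    · simp [lv, hab.symm]
    · simp [lv, hab.symm, hae.symm, hbe.symm]
  have e2 : 1 ≤ dl (lv [a, b, e, f]) e := by
    refine bet' h he ha ?_ he hf ?_
    · simp [lv, hae.symm, hbe.symm]
    · simp [lv, hae.symm, hbe.symm, haf.symm, hbf.symm, hef.symm]
  have e3 : 1 ≤ dl (lv [a, b, e, f]) f := by
    refine bet' h hf ha ?_ h1 h2 ?_
    · simp [lv, haf.symm, hbf.symm, hef.symm]
    · simp [lv, haf.symm, hbf.symm, hef.symm, n1, n2, n3, n4]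
  have e4 := sum3 h (lv [a, b, e, f]) hbe hbf hef
  omega

/-- two lines of a triple in a class of four -/
theorem big_in (h : Cfg κ z deg deg0 dl) {c : Γ} {j u v w : Fin n} (hj : ¬ deg j) (hju : j ≠ u)
    (hjv : j ≠ v) (hjw : j ≠ w) (huv : u ≠ v) (huw : u ≠ w) (hvw : v ≠ w) (ij : Inn κ c j)
    (iu : Inn κ c u) (iv : Inn κ c v) (iw : Inn κ c w) :
    ∃ j', j' ≠ j ∧ ∃ c1 c2, c1 ≠ c2 ∧ Inn κ c1 j ∧ Inn κ c2 j ∧
      (∀ i, Inn κ c1 i → i = j ∨ i = j') ∧ ∀ i, Inn κ c2 i → i = j ∨ i = j' := by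
  obtain ⟨c1, c2, hc1, hc2, hc12, hI1, hI2, -⟩ := lines h hj ij
  have hN : ∀ c' i, Inn κ c' j → Inn κ c' i → i = u ∨ i = v ∨ i = w ∨ i = j := fun c' i h1 h2 =>
    big_nbr h huv huw hju.symm hvw hjv.symm hjw.symm iu iv iw ij h1 h2
  -- the key step
  have key : ∀ a b e : Fin n, j ≠ a → j ≠ b → j ≠ e → a ≠ b → a ≠ e → b ≠ e → Inn κ c a →
      Inn κ c b → Inn κ c e → Inn κ c1 a → ∀ c', Inn κ c' j → c ≠ c' → ¬ Inn κ c' b := by
    intro a b e n1 n2 n3 n4 n5 n6 ia ib ie i1a c' hc' hcc' hb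
    have e1 : 2 ≤ dl (lv [a, j, b, e]) j := by
      refine bet2' h hc1 ij ia ?_ hI1 i1a ?_ hcc' ij ib ?_ hc' hb ?_
      · simp [lv, n1, n1.symm]
      · simp [lv, n1, n1.symm]
      · simp [lv, n1, n2.symm, n4.symm]
      · simp [lv, n1, n2.symm, n4.symm]
    have e2 : 1 ≤ dl (lv [a, j, b, e]) b := by
      refine bet' h ib ij ?_ ib ie ?_
      · simp [lv, n1, n2.symm, n4.symm]
      · simp [lv, n2.symm, n3.symm, n4.symm, n5.symm, n6.symm]
    have e3 := sum2 h (lv [a, j, b, e]) n2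
    omega
  have fin : ∀ a b e : Fin n, j ≠ a → j ≠ b → j ≠ e → a ≠ b → a ≠ e → b ≠ e → Inn κ c a →
      Inn κ c b → Inn κ c e → Inn κ c1 a → (∀ i, i = u ∨ i = v ∨ i = w ∨ i = j →
      i = a ∨ i = b ∨ i = e ∨ i = j) → ∃ j', j' ≠ j ∧ ∃ c1 c2, c1 ≠ c2 ∧ Inn κ c1 j ∧ Inn κ c2 j ∧
      (∀ i, Inn κ c1 i → i = j ∨ i = j') ∧ ∀ i, Inn κ c2 i → i = j ∨ i = j' := by
    intro a b e n1 n2 n3 n4 n5 n6 ia ib ie i1a hall
    refine ⟨a, n1.symm, c1, c2, hc12, hI1, hI2, ?_, ?_⟩
    · intro i hi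
      rcases hall i (hN c1 i hI1 hi) with rfl | rfl | rfl | rfl
      · exact Or.inr rfl
      · exact absurd hi (key a i e n1 n2 n3 n4 n5 n6 ia ib ie i1a c1 hI1 hc1)
      · exact absurd hi (key a i b n1 n3 n2 n5 n4 n6.symm ia ie ib i1a c1 hI1 hc1)
      · exact Or.inl rfl
    · intro i hi
      rcases hall i (hN c2 i hI2 hi) with rfl | rfl | rfl | rfl
      · exact Or.inr rfl
      · exact absurd hi (key a i e n1 n2 n3 n4 n5 n6 ia ib ie i1a c2 hI2 hc2)
      · exact absurd hi (key a i b n1 n3 n2 n5 n4 n6.symm ia ie ib i1a c2 hI2 hc2)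
      · exact Or.inl rfl
  obtain ⟨i, hi, hi1⟩ := other h hj hI1
  rcases hN c1 i hI1 hi1 with rfl | rfl | rfl | rfl
  · exact fin i v w hju hjv hjw huv huw hvw iu iv iw hi1 (fun _ h => h)
  · exact fin i u w hjv hju hjw huv.symm hvw huw iv iu iw hi1 (fun l hl => by tauto)
  · exact fin i u v hjw hju hjv huw.symm hvw.symm huv iw iu iv hi1 (fun l hl => by tauto)
  · exact absurd rfl hi

theorem big (h : Cfg κ z deg deg0 dl) (hnd : ∀ j, ¬ deg j) {c : Γ} {j1 j2 j3 j4 : Fin n}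
    (n12 : j1 ≠ j2) (n13 : j1 ≠ j3) (n14 : j1 ≠ j4) (n23 : j2 ≠ j3) (n24 : j2 ≠ j4)
    (n34 : j3 ≠ j4) (i1 : Inn κ c j1) (i2 : Inn κ c j2) (i3 : Inn κ c j3) (i4 : Inn κ c j4)
    (j : Fin n) : ∃ j', j' ≠ j ∧ ∃ c1 c2, c1 ≠ c2 ∧ Inn κ c1 j ∧ Inn κ c2 j ∧
      (∀ i, Inn κ c1 i → i = j ∨ i = j') ∧ ∀ i, Inn κ c2 i → i = j ∨ i = j' := by
  by_cases h1 : j = j1
  · subst h1
    exact big_in h (hnd j) n12 n13 n14 n23 n24 n34 i1 i2 i3 i4
  by_cases h2 : j = j2
  · subst h2
    exact big_in h (hnd j) n12.symm n23 n24 n13 n14 n34 i2 i1 i3 i4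
  by_cases h3 : j = j3
  · subst h3
    exact big_in h (hnd j) n13.symm n23.symm n34 n12 n14 n24 i3 i1 i2 i4
  by_cases h4 : j = j4
  · subst h4
    exact big_in h (hnd j) n14.symm n24.symm n34.symm n12 n13 n23 i4 i1 i2 i3
  -- `j` is good
  have hgood : Good κ deg j := by
    by_contra hbad
    obtain ⟨p, q, d, d', hp, hq, hpq, e1, e2, e3, e4⟩ := nbr h (hnd j) hbad
    have hN : ∀ (d : Γ) (r : Fin n), Inn κ d j → Inn κ d r → r ≠ j1 ∧ r ≠ j2 ∧ r ≠ j3 ∧ r ≠ j4 := by
      intro d r hd hr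
      refine ⟨?_, ?_, ?_, ?_⟩
      · rintro rfl
        rcases big_nbr h n23 n24 n12.symm n34 n13.symm n14.symm i2 i3 i4 i1 hr hd with h5 | h5 | h5 | h5
        exacts [h2 h5, h3 h5, h4 h5, h1 h5]
      · rintro rfl
        rcases big_nbr h n13 n14 n12 n34 n23.symm n24.symm i1 i3 i4 i2 hr hd with h5 | h5 | h5 | h5
        exacts [h1 h5, h3 h5, h4 h5, h2 h5]
      · rintro rfl
        rcases big_nbr h n12 n14 n13 n24 n23 n34.symm i1 i2 i4 i3 hr hd with h5 | h5 | h5 | h5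
        exacts [h1 h5, h2 h5, h4 h5, h3 h5]
      · rintro rfl
        rcases big_nbr h n12 n13 n14 n23 n24 n34 i1 i2 i3 i4 hr hd with h5 | h5 | h5 | h5
        exacts [h1 h5, h2 h5, h3 h5, h4 h5]
    obtain ⟨p1, p2, p3, p4⟩ := hN d p e1 e2
    obtain ⟨q1, q2, q3, q4⟩ := hN d' q e3 e4
    have f1 : 1 ≤ dl (lv [j1, j2, j3, j4, p, j, q]) j2 := by
      refine bet' h i2 i1 ?_ i2 i3 ?_
      · simp [lv, n12.symm]
      · simp [lv, n12.symm, n13.symm, n23.symm]
    have f2 : 1 ≤ dl (lv [j1, j2, j3, j4, p, j, q]) j3 := by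
      refine bet' h i3 i1 ?_ i3 i4 ?_
      · simp [lv, n13.symm, n23.symm]
      · simp [lv, n13.symm, n23.symm, n14.symm, n24.symm, n34.symm]
    have f3 : 1 ≤ dl (lv [j1, j2, j3, j4, p, j, q]) j := by
      refine bet' h e1 e2 ?_ e3 e4 ?_
      · simp [lv, p1, p2, p3, p4, h1, h2, h3, h4, hp.symm]
      · simp [lv, q1, q2, q3, q4, h1, h2, h3, h4, hp.symm, hq, hpq.symm]
    have f4 := sum3 h (lv [j1, j2, j3, j4, p, j, q]) n23 (Ne.symm h2) (Ne.symm h3)
      (a := j2) (b := j3) (c := j)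
    omega
  obtain ⟨_, j', hj', hall⟩ := hgood
  exact ⟨j', hj', κ j 0, κ j 1, fun e => absurd (h.inj j (hnd j) e) (by decide), ⟨0, rfl⟩,
    ⟨1, rfl⟩, fun i hi => hall _ i ⟨0, rfl⟩ hi, fun i hi => hall _ i ⟨1, rfl⟩ hi⟩

/-- no line is contained in four triples -/
def No4 (κ : Fin n → Fin 3 → Γ) : Prop := ∀ (c : Γ) (a b e f : Fin n), a ≠ b → a ≠ e → a ≠ f →
  b ≠ e → b ≠ f → e ≠ f → Inn κ c a → Inn κ c b → Inn κ c e → Inn κ c f → False

theorem final_case (h : Cfg κ z deg deg0 dl) (hnd : ∀ j, ¬ deg j) (h4 : No4 κ) {c c' : Γ}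
    (hcc : c ≠ c') {x y w p : Fin n} (hxy : x ≠ y) (hxw : x ≠ w) (hxp : x ≠ p) (hyw : y ≠ w)
    (hyp : y ≠ p) (hwp : w ≠ p) (ix : Inn κ c x) (iy : Inn κ c y) (iw : Inn κ c w)
    (ip : ¬ Inn κ c p) (ix' : Inn κ c' x) (iy' : Inn κ c' y) (ip' : Inn κ c' p)
    (hcl : ∀ i, i = x ∨ i = y ∨ i = w ∨ i = p → ∀ d r, Inn κ d i → Inn κ d r →
      r = x ∨ r = y ∨ r = w ∨ r = p) : False := by
  have hw' : ¬ Inn κ c' w := fun hw => h4 c' x y w p hxy hxw hxp hyw hyp hwp ix' iy' hw ip'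
  have e1 : 2 ≤ dl (lv [w, p, x, y]) x := by
    refine bet2' h hcc ix iw ?_ ix' ip' ?_ hcc ix iy ?_ ix' iy' ?_
    · simp [lv, hxw, hxp]
    · simp [lv, hxw, hxp, hwp.symm]
    · simp [lv, hxw, hxp, hyw, hyp, hxy.symm]
    · simp [lv, hxw, hxp, hyw, hyp, hxy.symm]
  have hpw : ∀ d, Inn κ d p → ¬ Inn κ d w := by
    intro d hp hw
    have e2 : 1 ≤ dl (lv [w, p, x, y]) p := by
      refine bet' h hp hw ?_ ip' ix' ?_
      · simp [lv, hwp.symm]
      · simp [lv, hwp.symm, hxw, hxp]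
    have e3 := sum2 h (lv [w, p, x, y]) hxp
    omega
  obtain ⟨f1, f2, hf1, hf2, hf12, iF1, iF2, hF⟩ := lines h (hnd x) ix
  obtain ⟨g1, g2, hg1, hg2, hg12, iG1, iG2, hG⟩ := lines h (hnd y) iy
  obtain ⟨e1', e2', he1, he2, he12, iE1, iE2, hE⟩ := lines h (hnd w) iw
  -- the third lines of `x` and `y`
  obtain ⟨fx, hfx1, hfx2, hfx⟩ : ∃ fx, c ≠ fx ∧ Inn κ fx x ∧
      ∀ d, Inn κ d x → d = c ∨ d = c' ∨ d = fx := by
    rcases hF c' ix' with h1 | h1 | h1
    · exact absurd h1.symm hcc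
    · exact ⟨f2, hf2, iF2, fun d hd => by rw [h1]; exact hF d hd⟩
    · exact ⟨f1, hf1, iF1, fun d hd => by rw [h1]; have := hF d hd; tauto⟩
  obtain ⟨fy, hfy1, hfy2, hfy⟩ : ∃ fy, c ≠ fy ∧ Inn κ fy y ∧
      ∀ d, Inn κ d y → d = c ∨ d = c' ∨ d = fy := by
    rcases hG c' iy' with h1 | h1 | h1
    · exact absurd h1.symm hcc
    · exact ⟨g2, hg2, iG2, fun d hd => by rw [h1]; exact hG d hd⟩
    · exact ⟨g1, hg1, iG1, fun d hd => by rw [h1]; have := hG d hd; tauto⟩
  have hEf : ∀ e, c ≠ e → Inn κ e w → e = fx ∨ e = fy := by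
    intro e hce he
    have hec' : e ≠ c' := by
      rintro rfl
      exact hw' he
    obtain ⟨i, hi, hie⟩ := other h (hnd w) he
    rcases hcl w (Or.inr (Or.inr (Or.inl rfl))) e i he hie with rfl | rfl | rfl | rfl
    · rcases hfx e hie with h1 | h1 | h1
      · exact absurd h1.symm hce
      · exact absurd h1 hec'
      · exact Or.inl h1
    · rcases hfy e hie with h1 | h1 | h1
      · exact absurd h1.symm hce
      · exact absurd h1 hec'
      · exact Or.inr h1
    · exact absurd rfl hi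
    · exact absurd he (hpw e hie)
  have hxyw : Inn κ fx w ∧ Inn κ fy w := by
    rcases hEf e1' he1 iE1 with h1 | h1 <;> rcases hEf e2' he2 iE2 with h2 | h2
    · exact absurd (h1.trans h2.symm) he12
    · rw [← h1, ← h2]
      exact ⟨iE1, iE2⟩
    · rw [← h1, ← h2]
      exact ⟨iE2, iE1⟩
    · exact absurd (h1.trans h2.symm) he12
  obtain ⟨k1, k2, hk1, hk2, hk12, iK1, iK2, hK⟩ := lines h (hnd p) ip'
  obtain ⟨i, hi, hik⟩ := other h (hnd p) iK1
  have hkc : k1 ≠ c := by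
    rintro rfl
    exact ip iK1
  rcases hcl p (Or.inr (Or.inr (Or.inr rfl))) k1 i iK1 hik with rfl | rfl | rfl | rfl
  · rcases hfx k1 hik with h1 | h1 | h1
    · exact hkc h1
    · exact hk1 h1.symm
    · rw [h1] at iK1
      exact hpw fx iK1 hxyw.1
  · rcases hfy k1 hik with h1 | h1 | h1
    · exact hkc h1
    · exact hk1 h1.symm
    · rw [h1] at iK1
      exact hpw fy iK1 hxyw.2
  · exact hpw k1 iK1 hik
  · exact hi rfl

theorem small3 (h : Cfg κ z deg deg0 dl) (hnd : ∀ j, ¬ deg j) (h4 : No4 κ) {c : Γ}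
    {u v s p : Fin n} (huv : u ≠ v) (hus : u ≠ s) (hup : u ≠ p) (hvs : v ≠ s) (hvp : v ≠ p)
    (hsp : s ≠ p) (iu : Inn κ c u) (iv : Inn κ c v) (is : Inn κ c s) (ip : ¬ Inn κ c p)
    {ds du : Γ} (hs : Inn κ ds s) (hs' : Inn κ ds p) (hu : Inn κ du u) (hu' : Inn κ du p) :
    False := by
  classical
  -- closure
  have clp : ∀ d r, Inn κ d p → Inn κ d r → r = u ∨ r = v ∨ r = s ∨ r = p := by
    intro d r h1 h2
    by_contra hcon
    push Not at hcon
    obtain ⟨n1, n2, n3, n4⟩ := hcon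
    have e1 : 1 ≤ dl (lv [u, v, s, p]) v := by
      refine bet' h iv iu ?_ iv is ?_
      · simp [lv, huv.symm]
      · simp [lv, huv.symm, hus.symm, hvs.symm]
    have e2 : 1 ≤ dl (lv [u, v, s, p]) s := by
      refine bet' h is iu ?_ hs hs' ?_
      · simp [lv, hus.symm, hvs.symm]
      · simp [lv, hus.symm, hvs.symm, hup.symm, hvp.symm, hsp.symm]
    have e3 : 1 ≤ dl (lv [u, v, s, p]) p := by
      refine bet' h hs' hs ?_ h1 h2 ?_
      · simp [lv, hup.symm, hvp.symm, hsp.symm, hus.symm, hvs.symm]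
      · simp [lv, hup.symm, hvp.symm, hsp.symm, n1, n2, n3, n4]
    have e4 := sum3 h (lv [u, v, s, p]) hvs hvp hsp
    omega
  have clv : ∀ d r, Inn κ d v → Inn κ d r → r = u ∨ r = v ∨ r = s ∨ r = p := by
    intro d r h1 h2
    by_contra hcon
    push Not at hcon
    obtain ⟨n1, n2, n3, n4⟩ := hcon
    have e1 : 1 ≤ dl (lv [s, p, u, v]) p := by
      refine bet' h hs' hs ?_ hu' hu ?_
      · simp [lv, hsp.symm]
      · simp [lv, hsp.symm, hus, hup]
    have e2 : 1 ≤ dl (lv [s, p, u, v]) u := by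
      refine bet' h iu is ?_ iu iv ?_
      · simp [lv, hus, hup]
      · simp [lv, hus, hup, hvs, hvp, huv.symm]
    have e3 : 1 ≤ dl (lv [s, p, u, v]) v := by
      refine bet' h iv is ?_ h1 h2 ?_
      · simp [lv, hvs, hvp, huv.symm]
      · simp [lv, hvs, hvp, huv.symm, n1, n2, n3, n4]
    have e4 := sum3 h (lv [s, p, u, v]) hup.symm hvp.symm huv
    omega
  have clu : ∀ d r, Inn κ d u → Inn κ d r → r = u ∨ r = v ∨ r = s ∨ r = p := by
    intro d r h1 h2
    by_contra hcon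
    push Not at hcon
    obtain ⟨n1, n2, n3, n4⟩ := hcon
    have e1 : 1 ≤ dl (lv [s, p, v, u]) p := by
      refine bet' h hs' hs ?_ hu' hu ?_
      · simp [lv, hsp.symm]
      · simp [lv, hsp.symm, hus, hup, huv]
    have e2 : 1 ≤ dl (lv [s, p, v, u]) v := by
      refine bet' h iv is ?_ iv iu ?_
      · simp [lv, hvs, hvp]
      · simp [lv, hus, hup, hvs, hvp, huv]
    have e3 : 1 ≤ dl (lv [s, p, v, u]) u := by
      refine bet' h iu is ?_ h1 h2 ?_
      · simp [lv, hus, hup, huv]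
      · simp [lv, hus, hup, huv, n1, n2, n3, n4]
    have e4 := sum3 h (lv [s, p, v, u]) hvp.symm hup.symm huv.symm
    omega
  have cls : ∀ d r, Inn κ d s → Inn κ d r → r = u ∨ r = v ∨ r = s ∨ r = p := by
    intro d r h1 h2
    by_contra hcon
    push Not at hcon
    obtain ⟨n1, n2, n3, n4⟩ := hcon
    have e1 : 1 ≤ dl (lv [u, p, v, s]) p := by
      refine bet' h hu' hu ?_ hs' hs ?_
      · simp [lv, hup.symm]
      · simp [lv, hup.symm, hus.symm, hsp, hvs.symm]
    have e2 : 1 ≤ dl (lv [u, p, v, s]) v := by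
      refine bet' h iv iu ?_ iv is ?_
      · simp [lv, huv.symm, hvp]
      · simp [lv, huv.symm, hvp, hus.symm, hsp, hvs.symm]
    have e3 : 1 ≤ dl (lv [u, p, v, s]) s := by
      refine bet' h is iu ?_ h1 h2 ?_
      · simp [lv, hus.symm, hsp, hvs.symm]
      · simp [lv, hus.symm, hsp, hvs.symm, n1, n2, n3, n4]
    have e4 := sum3 h (lv [u, p, v, s]) hvp.symm hsp.symm hvs
    omega
  have hcl : ∀ i, i = u ∨ i = v ∨ i = s ∨ i = p → ∀ d r, Inn κ d i → Inn κ d r →
      r = u ∨ r = v ∨ r = s ∨ r = p := by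
    rintro i (rfl | rfl | rfl | rfl)
    exacts [clu, clv, cls, clp]
  -- another class of three
  have claim : ∃ c', c ≠ c' ∧ ((Inn κ c' u ∧ Inn κ c' v ∧ Inn κ c' s) ∨
      (Inn κ c' u ∧ Inn κ c' v ∧ Inn κ c' p) ∨ (Inn κ c' u ∧ Inn κ c' s ∧ Inn κ c' p) ∨
      (Inn κ c' v ∧ Inn κ c' s ∧ Inn κ c' p)) := by
    by_contra hcon
    push Not at hcon
    let T : Finset (Fin n × Fin 3) :=
      (({u, v, s, p} : Finset (Fin n)) ×ˢ (univ : Finset (Fin 3))).filter
        fun q => κ q.1 q.2 ≠ c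
    have hT : ∀ q, q ∈ T ↔ (q.1 = u ∨ q.1 = v ∨ q.1 = s ∨ q.1 = p) ∧ κ q.1 q.2 ≠ c := by
      intro q
      simp only [T, mem_filter, mem_product, mem_insert, mem_singleton, mem_univ, and_true]
    have heven : Even T.card := by
      refine even_of_matching T (fun q q' => κ q.1 q.2 = κ q'.1 q'.2) ?_ (fun _ _ h => h.symm) ?_
      · intro q hq
        rw [hT] at hq
        obtain ⟨i, hi, y, hy⟩ := other h (hnd q.1) (c := κ q.1 q.2) ⟨q.2, rfl⟩
        refine ⟨(i, y), ?_, ?_, hy.symm⟩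
        · rw [hT]
          refine ⟨hcl q.1 hq.1 (κ q.1 q.2) i ⟨q.2, rfl⟩ ⟨y, hy⟩, ?_⟩
          simp only [hy]
          exact hq.2
        · intro e
          exact hi (congrArg Prod.fst e)
      · rintro ⟨a, x⟩ ha ⟨b, y⟩ ⟨e, w⟩ hb he hba hea h1 h2
        rw [hT] at ha hb he
        simp only at ha hb he h1 h2
        by_cases hbe : b = e
        · subst hbe
          rw [h1] at h2
          rw [h.inj b (hnd b) h2]
        · exfalso
          have hab : a ≠ b := by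
            rintro rfl
            exact hba (by rw [h.inj a (hnd a) h1])
          have hae : a ≠ e := by
            rintro rfl
            exact hea (by rw [h.inj a (hnd a) h2])
          have ia : Inn κ (κ a x) a := ⟨x, rfl⟩
          have ib : Inn κ (κ a x) b := ⟨y, h1.symm⟩
          have ie : Inn κ (κ a x) e := ⟨w, h2.symm⟩
          obtain ⟨k1, k2, k3, k4⟩ := hcon (κ a x) (Ne.symm ha.2)
          have hmem : ∀ i, (i = u ∨ i = v ∨ i = s ∨ i = p) → i = a ∨ i = b ∨ i = e ∨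
              ∀ l, (l = u ∨ l = v ∨ l = s ∨ l = p) → l ≠ i → Inn κ (κ a x) l := by
            intro i hi
            by_cases e1 : i = a
            · exact Or.inl e1
            by_cases e2 : i = b
            · exact Or.inr (Or.inl e2)
            by_cases e3 : i = e
            · exact Or.inr (Or.inr (Or.inl e3))
            · right; right; right
              intro l hl hli
              have hcard : ({a, b, e, i} : Finset (Fin n)) = {u, v, s, p} := by
                apply Finset.eq_of_subset_of_card_le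
                · intro t ht
                  simp only [mem_insert, mem_singleton] at ht ⊢
                  rcases ht with rfl | rfl | rfl | rfl
                  exacts [ha.1, hb.1, he.1, hi]
                · rw [card_insert_of_notMem, card_insert_of_notMem, card_insert_of_notMem,
                    card_singleton, card_insert_of_notMem, card_insert_of_notMem,
                    card_insert_of_notMem, card_singleton]
                  · simpa using fun h => e3 h.symm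
                  · simp only [mem_insert, mem_singleton, not_or]
                    exact ⟨hbe, fun h => e2 h.symm⟩
                  · simp only [mem_insert, mem_singleton, not_or]
                    exact ⟨hab, hae, fun h => e1 h.symm⟩
                  · simpa using hsp
                  · simp only [mem_insert, mem_singleton, not_or]
                    exact ⟨hvs, hvp⟩
                  · simp only [mem_insert, mem_singleton, not_or]
                    exact ⟨huv, hus, hup⟩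
              have hl' : l ∈ ({a, b, e, i} : Finset (Fin n)) := by
                rw [hcard]
                simpa using hl
              simp only [mem_insert, mem_singleton] at hl'
              rcases hl' with rfl | rfl | rfl | rfl
              exacts [ia, ib, ie, absurd rfl hli]
          have hin : ∀ i, (i = u ∨ i = v ∨ i = s ∨ i = p) → Inn κ (κ a x) i ∨
              ∀ l, (l = u ∨ l = v ∨ l = s ∨ l = p) → l ≠ i → Inn κ (κ a x) l := by
            intro i hi
            rcases hmem i hi with rfl | rfl | rfl | h5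
            exacts [Or.inl ia, Or.inl ib, Or.inl ie, Or.inr h5]
          rcases hin u (Or.inl rfl) with h5 | h5
          · rcases hin v (Or.inr (Or.inl rfl)) with h6 | h6
            · rcases hin s (Or.inr (Or.inr (Or.inl rfl))) with h7 | h7
              · exact k1 h5 h6 h7
              · exact k2 h5 h6 (h7 p (Or.inr (Or.inr (Or.inr rfl))) hsp.symm)
            · exact k3 h5 (h6 s (Or.inr (Or.inr (Or.inl rfl))) hvs.symm)
                (h6 p (Or.inr (Or.inr (Or.inr rfl))) hvp.symm)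
          · exact k4 (h5 v (Or.inr (Or.inl rfl)) huv.symm)
              (h5 s (Or.inr (Or.inr (Or.inl rfl))) hus.symm)
              (h5 p (Or.inr (Or.inr (Or.inr rfl))) hup.symm)
    have hc2 : ∀ i, Inn κ c i → (univ.filter fun x : Fin 3 => κ i x ≠ c).card = 2 := by
      rintro i ⟨x0, hx0⟩
      have h1 := Finset.card_filter_add_card_filter_not (s := (univ : Finset (Fin 3)))
        (fun x => κ i x = c)
      have h2 : (univ.filter fun x : Fin 3 => κ i x = c) = {x0} := by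
        ext x
        simp only [mem_filter, mem_univ, true_and, mem_singleton]
        constructor
        · intro h3
          exact h.inj i (hnd i) (h3.trans hx0.symm)
        · rintro rfl
          exact hx0
      rw [h2, card_singleton, card_univ, Fintype.card_fin] at h1
      simp only [ne_eq]
      omega
    have hc3 : (univ.filter fun x : Fin 3 => κ p x ≠ c).card = 3 := by
      rw [Finset.filter_true_of_mem]
      · simp
      · intro x _ h1
        exact ip ⟨x, h1⟩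
    have hcard : T.card = 9 := by
      simp only [T]
      rw [Finset.card_filter, Finset.sum_product]
      simp only [← Finset.card_filter]
      have m1 : s ∉ ({p} : Finset (Fin n)) := by simpa using hsp
      have m2 : v ∉ ({s, p} : Finset (Fin n)) := by
        simp only [mem_insert, mem_singleton, not_or]
        exact ⟨hvs, hvp⟩
      have m3 : u ∉ ({v, s, p} : Finset (Fin n)) := by
        simp only [mem_insert, mem_singleton, not_or]
        exact ⟨huv, hus, hup⟩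
      rw [sum_insert m3, sum_insert m2, sum_insert m1, sum_singleton, hc2 u iu, hc2 v iv,
        hc2 s is, hc3]
      norm_num
    rw [hcard] at heven
    exact absurd heven (by decide)
  obtain ⟨c', hcc, h1 | h1 | h1 | h1⟩ := claim
  · have e1 : 2 ≤ dl (lv [u, v, s, p]) v := by
      refine bet2' h hcc iv iu ?_ h1.2.1 h1.1 ?_ hcc iv is ?_ h1.2.1 h1.2.2 ?_
      · simp [lv, huv.symm]
      · simp [lv, huv.symm]
      · simp [lv, huv.symm, hus.symm, hvs.symm]
      · simp [lv, huv.symm, hus.symm, hvs.symm]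
    have e2 : 1 ≤ dl (lv [u, v, s, p]) s := by
      refine bet' h is iu ?_ hs hs' ?_
      · simp [lv, hus.symm, hvs.symm]
      · simp [lv, hus.symm, hvs.symm, hup.symm, hvp.symm, hsp.symm]
    have e4 := sum2 h (lv [u, v, s, p]) hvs
    omega
  · exact final_case h hnd h4 hcc huv hus hup hvs hvp hsp iu iv is ip h1.1 h1.2.1 h1.2.2 hcl
  · refine final_case h hnd h4 hcc hus huv hup hvs.symm hsp hvp iu is iv ip h1.1 h1.2.1 h1.2.2 ?_
    intro i hi d r h2 h3
    have := hcl i (by tauto) d r h2 h3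
    tauto
  · refine final_case h hnd h4 hcc hvs huv.symm hvp hus.symm hsp hup iv is iu ip h1.1 h1.2.1
      h1.2.2 ?_
    intro i hi d r h2 h3
    have := hcl i (by tauto) d r h2 h3
    tauto

theorem small2 (h : Cfg κ z deg deg0 dl) (hnd : ∀ j, ¬ deg j) (h4 : No4 κ) {c : Γ}
    {u v s p : Fin n} (huv : u ≠ v) (hus : u ≠ s) (hvs : v ≠ s) (iu : Inn κ c u)
    (iv : Inn κ c v) (is : Inn κ c s) (ip : ¬ Inn κ c p) {ds : Γ} (hs : Inn κ ds s)
    (hs' : Inn κ ds p) : False := by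
  have hup : u ≠ p := by
    rintro rfl
    exact ip iu
  have hvp : v ≠ p := by
    rintro rfl
    exact ip iv
  have hsp : s ≠ p := by
    rintro rfl
    exact ip is
  have clp : ∀ d r, Inn κ d p → Inn κ d r → r = u ∨ r = v ∨ r = s ∨ r = p := by
    intro d r h1 h2
    by_contra hcon
    push Not at hcon
    obtain ⟨n1, n2, n3, n4⟩ := hcon
    have e1 : 1 ≤ dl (lv [u, v, s, p]) v := by
      refine bet' h iv iu ?_ iv is ?_
      · simp [lv, huv.symm]
      · simp [lv, huv.symm, hus.symm, hvs.symm]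
    have e2 : 1 ≤ dl (lv [u, v, s, p]) s := by
      refine bet' h is iu ?_ hs hs' ?_
      · simp [lv, hus.symm, hvs.symm]
      · simp [lv, hus.symm, hvs.symm, hup.symm, hvp.symm, hsp.symm]
    have e3 : 1 ≤ dl (lv [u, v, s, p]) p := by
      refine bet' h hs' hs ?_ h1 h2 ?_
      · simp [lv, hup.symm, hvp.symm, hsp.symm, hus.symm, hvs.symm]
      · simp [lv, hup.symm, hvp.symm, hsp.symm, n1, n2, n3, n4]
    have e4 := sum3 h (lv [u, v, s, p]) hvs hvp hsp
    omega
  have hmeet : (∃ d, Inn κ d u ∧ Inn κ d p) ∨ ∃ d, Inn κ d v ∧ Inn κ d p := by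
    by_contra hcon
    push Not at hcon
    have h1 : ∀ d, Inn κ d p → Inn κ d s := by
      intro d hd
      obtain ⟨i, hi, hi'⟩ := other h (hnd p) hd
      rcases clp d i hd hi' with rfl | rfl | rfl | rfl
      · exact absurd hd (hcon.1 d hi')
      · exact absurd hd (hcon.2 d hi')
      · exact hi'
      · exact absurd rfl hi
    exact ip ((lines_eq h (hnd p) h1).2 c is)
  rcases hmeet with ⟨d, h1, h2⟩ | ⟨d, h1, h2⟩
  · exact small3 h hnd h4 huv hus hup hvs hvp hsp iu iv is ip hs hs' h1 h2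
  · exact small3 h hnd h4 huv.symm hvs hvp hus hup hsp iv iu is ip hs hs' h1 h2

/-- three triples with a common line which share lines among themselves only -/
theorem two_lines (h : Cfg κ z deg deg0 dl) (hnd : ∀ j, ¬ deg j) {c : Γ} {a b e : Fin n}
    (hab : a ≠ b) (hae : a ≠ e) (hbe : b ≠ e) (ia : Inn κ c a) (ib : Inn κ c b) (ie : Inn κ c e)
    (hN : ∀ i, i = a ∨ i = b ∨ i = e → ∀ d r, Inn κ d i → Inn κ d r → r = a ∨ r = b ∨ r = e) :
    ∃ d d', c ≠ d ∧ c ≠ d' ∧ Inn κ d a ∧ Inn κ d b ∧ Inn κ d' a ∧ Inn κ d' e := by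
  obtain ⟨c1, c2, hc1, hc2, hc12, hI1, hI2, hall⟩ := lines h (hnd a) ia
  -- one neighbour only
  have key : ∀ b e : Fin n, a ≠ b → a ≠ e → b ≠ e → Inn κ c b → Inn κ c e →
      (∀ i, i = a ∨ i = b ∨ i = e → ∀ d r, Inn κ d i → Inn κ d r → r = a ∨ r = b ∨ r = e) →
      (∀ d, c ≠ d → Inn κ d a → ¬ Inn κ d e) → False := by
    intro b e hab hae hbe ib ie hN hno
    have h1 : ∀ d, c ≠ d → Inn κ d a → Inn κ d b := by
      intro d hd hda
      obtain ⟨i, hi, hi'⟩ := other h (hnd a) hda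
      rcases hN a (Or.inl rfl) d i hda hi' with rfl | rfl | rfl
      · exact absurd rfl hi
      · exact hi'
      · exact absurd hi' (hno d hd hda)
    have h2 : ∀ d, Inn κ d a → Inn κ d b := by
      intro d hd
      by_cases hcd : c = d
      · rw [← hcd]; exact ib
      · exact h1 d hcd hd
    obtain ⟨k1, k2, hk1, _, _, iK1, _, _⟩ := lines h (hnd e) ie
    obtain ⟨i, hi, hi'⟩ := other h (hnd e) iK1
    rcases hN e (Or.inr (Or.inr rfl)) k1 i iK1 hi' with rfl | rfl | rfl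
    · exact hno k1 hk1 hi' iK1
    · exact hno k1 hk1 ((lines_eq h (hnd a) h2).2 k1 hi') iK1
    · exact hi rfl
  have hb : ∃ d, c ≠ d ∧ Inn κ d a ∧ Inn κ d b := by
    by_contra hcon
    push Not at hcon
    refine key e b hae hab hbe.symm ie ib ?_ hcon
    intro i hi d r h1 h2
    have := hN i (by tauto) d r h1 h2
    tauto
  have he : ∃ d, c ≠ d ∧ Inn κ d a ∧ Inn κ d e := by
    by_contra hcon
    push Not at hcon
    exact key b e hab hae hbe ib ie hN hcon
  obtain ⟨d, h1, h2, h3⟩ := hb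
  obtain ⟨d', h1', h2', h3'⟩ := he
  exact ⟨d, d', h1, h1', h2, h3, h2', h3'⟩

theorem bad_of_three {c : Γ} {j a b : Fin n} (hja : a ≠ j) (hjb : b ≠ j)
    (hab : a ≠ b) (ij : Inn κ c j) (ia : Inn κ c a) (ib : Inn κ c b) : ¬ Good κ deg j := by
  rintro ⟨_, j', _, hall⟩
  rcases hall c a ij ia with h1 | h1
  · exact hja h1
  · rcases hall c b ij ib with h2 | h2
    · exact hjb h2
    · exact hab (h1.trans h2.symm)

theorem small (h : Cfg κ z deg deg0 dl) (hn : Even n) (hnd : ∀ j, ¬ deg j) (h4 : No4 κ) {c : Γ}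
    {j1 j2 j3 : Fin n} (h12 : j1 ≠ j2) (h13 : j1 ≠ j3) (h23 : j2 ≠ j3) (i1 : Inn κ c j1)
    (i2 : Inn κ c j2) (i3 : Inn κ c j3) : False := by
  classical
  have hc3 : ∀ i, Inn κ c i → i = j1 ∨ i = j2 ∨ i = j3 := by
    intro i hi
    by_contra hcon
    push Not at hcon
    exact h4 c j1 j2 j3 i h12 h13 hcon.1.symm h23 hcon.2.1.symm hcon.2.2.symm i1 i2 i3 hi
  have b1 : ¬ Good κ deg j1 := bad_of_three h12.symm h13.symm h23 i1 i2 i3
  have b2 : ¬ Good κ deg j2 := bad_of_three h12 h23.symm h13 i2 i1 i3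
  have b3 : ¬ Good κ deg j3 := bad_of_three h13 h23 h12 i3 i1 i2
  -- another bad triple
  obtain ⟨j4, hb4, n1, n2, n3⟩ : ∃ j4, ¬ Good κ deg j4 ∧ j4 ≠ j1 ∧ j4 ≠ j2 ∧ j4 ≠ j3 := by
    by_contra hcon
    push Not at hcon
    have heven := even_bad h hn
    have hsub : (univ.filter fun j => ¬ Good κ deg j) = {j1, j2, j3} := by
      ext j
      simp only [mem_filter, mem_univ, true_and, mem_insert, mem_singleton]
      constructor
      · intro hj
        by_contra hcon'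
        push Not at hcon'
        exact hcon'.2.2 (hcon j hj hcon'.1 hcon'.2.1)
      · rintro (rfl | rfl | rfl)
        exacts [b1, b2, b3]
    rw [hsub, card_insert_of_notMem, card_insert_of_notMem, card_singleton] at heven
    · exact absurd heven (by decide)
    · simpa using h23
    · simp only [mem_insert, mem_singleton, not_or]
      exact ⟨h12, h13⟩
  by_cases hN : ∀ i, i = j1 ∨ i = j2 ∨ i = j3 → ∀ d r, Inn κ d i → Inn κ d r →
      r = j1 ∨ r = j2 ∨ r = j3
  · obtain ⟨d, d', hd, hd', e1, e2, e3, e4⟩ := two_lines h hnd h12 h13 h23 i1 i2 i3 hN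
    obtain ⟨p, q, f, f', hp, hq, hpq, k1, k2, k3, k4⟩ := nbr h (hnd j4) hb4
    have hout : ∀ g r, Inn κ g j4 → Inn κ g r → r ≠ j1 ∧ r ≠ j2 ∧ r ≠ j3 := by
      intro g r hg hr
      refine ⟨?_, ?_, ?_⟩
      · rintro rfl
        rcases hN r (Or.inl rfl) g j4 hr hg with h5 | h5 | h5
        exacts [n1 h5, n2 h5, n3 h5]
      · rintro rfl
        rcases hN r (Or.inr (Or.inl rfl)) g j4 hr hg with h5 | h5 | h5
        exacts [n1 h5, n2 h5, n3 h5]
      · rintro rfl
        rcases hN r (Or.inr (Or.inr rfl)) g j4 hr hg with h5 | h5 | h5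
        exacts [n1 h5, n2 h5, n3 h5]
    obtain ⟨p1, p2, p3⟩ := hout f p k1 k2
    obtain ⟨q1, q2, q3⟩ := hout f' q k3 k4
    have s1 : 2 ≤ dl (lv [j2, j1, j3, p, j4, q]) j1 := by
      refine bet2' h hd i1 i2 ?_ e1 e2 ?_ hd' i1 i3 ?_ e3 e4 ?_
      · simp [lv, h12]
      · simp [lv, h12]
      · simp [lv, h12, h13.symm, h23.symm]
      · simp [lv, h12, h13.symm, h23.symm]
    have s2 : 1 ≤ dl (lv [j2, j1, j3, p, j4, q]) j4 := by
      refine bet' h k1 k2 ?_ k3 k4 ?_
      · simp [lv, p1, p2, p3, n1, n2, n3, hp.symm]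
      · simp [lv, q1, q2, q3, n1, n2, n3, hp.symm, hpq.symm, hq]
    have s3 := sum2 h (lv [j2, j1, j3, p, j4, q]) n1.symm
    omega
  · push Not at hN
    obtain ⟨i, hi, d, r, hdi, hdr, r1, r2, r3⟩ := hN
    have hr : ¬ Inn κ c r := fun hr => by
      rcases hc3 r hr with h5 | h5 | h5
      exacts [r1 h5, r2 h5, r3 h5]
    rcases hi with rfl | rfl | rfl
    · exact small2 h hnd h4 h23 h12.symm h13.symm i2 i3 i1 hr hdi hdr
    · exact small2 h hnd h4 h13 h12 h23.symm i1 i3 i2 hr hdi hdr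
    · exact small2 h hnd h4 h12 h13 h23 i1 i2 i3 hr hdi hdr

/-- **The classification.** -/
theorem classify (h : Cfg κ z deg deg0 dl) (hn : Even n) :
    (∃ b b', b ≠ b' ∧ ¬ Good κ deg b ∧ ¬ Good κ deg b' ∧
      ∀ j, j ≠ b → j ≠ b' → Good κ deg j) ∨
    ((∀ j, ¬ deg j) ∧ ∀ c j, Inn κ c j → ∃ j', j' ≠ j ∧ ∀ i, Inn κ c i → i = j ∨ i = j') ∨
    ((∀ j, ¬ deg j) ∧ ∀ j, ∃ j', j' ≠ j ∧ ∃ c1 c2, c1 ≠ c2 ∧ Inn κ c1 j ∧ Inn κ c2 j ∧
      (∀ i, Inn κ c1 i → i = j ∨ i = j') ∧ ∀ i, Inn κ c2 i → i = j ∨ i = j') := by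
  by_cases hnd : ∀ j, ¬ deg j
  · right
    by_cases hA : ∀ c j, Inn κ c j → ∃ j', j' ≠ j ∧ ∀ i, Inn κ c i → i = j ∨ i = j'
    · exact Or.inl ⟨hnd, hA⟩
    · right
      refine ⟨hnd, ?_⟩
      push Not at hA
      obtain ⟨c, j1, hj1, hA⟩ := hA
      obtain ⟨j2, h21, hj2⟩ := other h (hnd j1) hj1
      obtain ⟨j3, hj3, h31, h32⟩ := hA j2 h21
      by_cases h4 : No4 κ
      · exact (small h hn hnd h4 h21.symm (Ne.symm h31) (Ne.symm h32) hj1 hj2 hj3).elim
      · unfold No4 at h4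
        push Not at h4
        obtain ⟨c', a, b, e, f, n1, n2, n3, n4, n5, n6, k1, k2, k3, k4, -⟩ := h4
        exact fun j => big h hnd n1 n2 n3 n4 n5 n6 k1 k2 k3 k4 j
  · left
    push Not at hnd
    obtain ⟨j0, hj0⟩ := hnd
    obtain ⟨b, hb, hbb, hall⟩ := caseI h hn hj0
    exact ⟨j0, b, hb.symm, fun hg => hg.1 hj0, hbb, hall⟩

end

end Pool.Agent.Y3.FJ
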