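import Pool.Agent.Y3.FJ.Ord

/-!
# Every triple belongs to few balanced pairs
-/

set_option autoImplicit false

namespace Pool.Agent.Y3.FJ

open Finset Filter Topology Module Pool.Agent.Y3.GD

set_option linter.unusedSectionVars false

noncomputable section

/-- characters -/
def Ch {m : ℕ} (α : Fin 3 → ZMod m) : Prop := (∀ y, α y ≠ 0) ∧ ∑ y, α y = 0

theorem hodgeO_pair {m : ℕ} {α γ : Fin 3 → ZMod m} (hα : Ch α) (hγ : Ch γ) (h : HP α γ) :
    HodgeO (n := 2) ![α, γ] := by
  refine ⟨?_, ?_, ?_⟩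
  · intro j
    fin_cases j
    · exact hα.1
    · exact hγ.1
  · intro j
    fin_cases j
    · exact hα.2
    · exact hγ.2
  · intro t
    rw [Fin.sum_univ_two]
    have h1 := h t
    simp only [Matrix.cons_val_zero, Matrix.cons_val_one] at h1 ⊢
    rw [h1]
    ring

theorem dm_single {N m : ℕ} (a : Fin N → ZMod m) (i : Fin N) : dm (Pi.single i 1) a = a i := by
  unfold dm
  rw [Finset.sum_eq_single i]
  · simp
  · intro j _ hj
    rw [Pi.single_eq_of_ne hj]
    simp
  · intro h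
    exact absurd (mem_univ _) h

theorem hp_rel (x : Fin 3) : ∃ R : ℕ, ∀ m : ℕ, 0 < m → ∀ α γ : Fin 3 → ZMod m,
    Ch α → Ch γ → HP α γ → ∃ (y : Fin 3) (u v : ℤ), u ≠ 0 ∧ |u| ≤ R ∧ |v| ≤ R ∧
      (R.factorial : ZMod m) * ((u : ZMod m) * γ x - (v : ZMod m) * α y) = 0 := by
  by_contra hcon
  push Not at hcon
  choose m hm α γ hα hγ hHP hno using hcon
  let U : Ultrafilter ℕ := hyperfilter ℕ
  have hU : (U : Filter ℕ) ≤ atTop := Nat.hyperfilter_le_atTop
  let a : ∀ R, Fin 2 → Fin 3 → ZMod (m R) := fun R => ![α R, γ R]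
  have hH : ∀ R, HodgeO (a R) := fun R => hodgeO_pair (hα R) (hγ R) (hHP R)
  obtain ⟨z, hz⟩ := exists_limit (U := U) (a := fun R => fl (a R)) hm
  have hT : TorH (Lam m (fun R => fl (a R)) U) z := by
    refine torH_of_limit hm hz (fun R i => (hH R).1 _ _) ?_
    intro R t
    rw [sum_fl (a R) (fun v => ((t : ZMod (m R)) * v).val), (hH R).2.2 t]
  have htri : ∀ j : Fin 2, (∑ y : Fin 3, Pi.single (finProdFinEquiv (j, y)) 1 :
      Fin (2 * 3) → ℤ) ∈ Lam m (fun R => fl (a R)) U ∧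
      ∃ w : ℤ, dr (∑ y : Fin 3, Pi.single (finProdFinEquiv (j, y)) 1) z = w := by
    intro j
    refine mem_Lam_of_forall hm hz fun R => ?_
    rw [dm_tri, (hH R).2.1 j]
  have hx : ∀ j : Fin 2, ∃ w : ℤ, ∑ y : Fin 3, z (finProdFinEquiv (j, y)) = w := by
    intro j
    obtain ⟨w, hw⟩ := (htri j).2
    refine ⟨w, ?_⟩
    rw [← hw, Fin.sum_univ_three, Fin.sum_univ_three, dr_add, dr_add, dr_single, dr_single,
      dr_single]
  -- the relation
  have key : ∀ (y : Fin 3) (u v : ℤ), u ≠ 0 →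
      (u • (Pi.single (finProdFinEquiv ((1 : Fin 2), x)) 1 : Fin (2 * 3) → ℤ) -
        v • (Pi.single (finProdFinEquiv ((0 : Fin 2), y)) 1 : Fin (2 * 3) → ℤ)) ∈
        Lam m (fun R => fl (a R)) U → False := by
    intro y u v hu hmem
    obtain ⟨g, hg, h⟩ := (mem_Lam m _ U).1 hmem
    have e1 : ∀ᶠ R : ℕ in (U : Filter ℕ), |u| ≤ R ∧ |v| ≤ R ∧ g ≤ R := by
      refine Eventually.filter_mono hU ?_
      filter_upwards [eventually_ge_atTop u.natAbs, eventually_ge_atTop v.natAbs,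
        eventually_ge_atTop g] with R h1 h2 h3
      refine ⟨?_, ?_, h3⟩
      · rw [Int.abs_eq_natAbs]
        exact_mod_cast h1
      · rw [Int.abs_eq_natAbs]
        exact_mod_cast h2
    obtain ⟨R, h1, h2, h3, h4⟩ := (h.and e1).exists
    refine hno R y u v hu h2 h3 ?_
    have h5 : dm (u • (Pi.single (finProdFinEquiv ((1 : Fin 2), x)) 1 : Fin (2 * 3) → ℤ) -
        v • (Pi.single (finProdFinEquiv ((0 : Fin 2), y)) 1 : Fin (2 * 3) → ℤ)) (fl (a R)) =
        (u : ZMod (m R)) * γ R x - (v : ZMod (m R)) * α R y := by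
      rw [sub_eq_add_neg, dm_add, dm_neg, dm_smul, dm_smul, dm_single, dm_single, fl_apply,
        fl_apply, ← sub_eq_add_neg]
      rfl
    rw [h5] at h1
    obtain ⟨q, hq⟩ := Nat.dvd_factorial hg h4
    rw [hq]
    push_cast
    rw [mul_comm (g : ZMod (m R)), mul_assoc, h1, mul_zero]
  by_cases h0 : (Pi.single (finProdFinEquiv ((1 : Fin 2), x)) 1 : Fin (2 * 3) → ℤ) ∈
      Lam m (fun R => fl (a R)) U
  · refine key 0 1 0 one_ne_zero ?_
    rw [one_smul, zero_smul, sub_zero]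
    exact h0
  · obtain ⟨i1, h1, ⟨D, c, hD, hDc⟩, h3⟩ := partner hT finProdFinEquiv (fun j => (htri j).1) hx h0
    rw [Equiv.symm_apply_apply] at h3
    have h4 : finProdFinEquiv.symm i1 = ((0 : Fin 2), (finProdFinEquiv.symm i1).2) := by
      refine Prod.ext ?_ rfl
      have : ∀ b : Fin 2, b ≠ 1 → b = 0 := by decide
      exact this _ h3
    have h5 : i1 = finProdFinEquiv ((0 : Fin 2), (finProdFinEquiv.symm i1).2) := by
      rw [← h4, Equiv.apply_symm_apply]
    have hc : c ≠ 0 := by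
      rintro rfl
      rw [zero_smul, sub_zero] at hDc
      exact h1 (hT.sat D _ hD hDc)
    refine key (finProdFinEquiv.symm i1).2 c D hc ?_
    rw [← h5]
    have h6 := neg_mem hDc
    rwa [neg_sub] at h6

theorem card_rel_le {m : ℕ} [NeZero m] (R : ℕ) (α : Fin 3 → ZMod m) :
    {c : ZMod m | ∃ (y : Fin 3) (u v : ℤ), u ≠ 0 ∧ |u| ≤ R ∧ |v| ≤ R ∧
      (R.factorial : ZMod m) * ((u : ZMod m) * c - (v : ZMod m) * α y) = 0}.ncard ≤
      3 * ((2 * R + 1) * (2 * R + 1)) * (R.factorial * R) := by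
  classical
  let T : Finset (Fin 3 × ℤ × ℤ) := univ ×ˢ (Finset.Icc (-(R : ℤ)) R) ×ˢ (Finset.Icc (-(R : ℤ)) R)
  let S : Fin 3 × ℤ × ℤ → Finset (ZMod m) := fun q => if q.2.1 = 0 then ∅ else
    univ.filter fun c => (R.factorial : ZMod m) * ((q.2.1 : ZMod m) * c - (q.2.2 : ZMod m) * α q.1) = 0
  have h1 : {c : ZMod m | ∃ (y : Fin 3) (u v : ℤ), u ≠ 0 ∧ |u| ≤ R ∧ |v| ≤ R ∧
      (R.factorial : ZMod m) * ((u : ZMod m) * c - (v : ZMod m) * α y) = 0} ⊆
      ((T.biUnion S : Finset (ZMod m)) : Set (ZMod m)) := by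
    rintro c ⟨y, u, v, h2, h3, h4, h5⟩
    rw [mem_coe, mem_biUnion]
    refine ⟨(y, u, v), ?_, ?_⟩
    · simp only [T, mem_product, mem_univ, true_and, Finset.mem_Icc]
      exact ⟨abs_le.1 h3, abs_le.1 h4⟩
    · simp only [S]
      rw [if_neg h2, mem_filter]
      exact ⟨mem_univ _, h5⟩
  refine (Set.ncard_le_ncard h1 (Finset.finite_toSet _)).trans ?_
  rw [Set.ncard_coe_finset]
  refine Finset.card_biUnion_le.trans ?_
  have h2 : ∀ q ∈ T, (S q).card ≤ R.factorial * R := by
    intro q hq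
    simp only [T, mem_product, mem_univ, true_and, Finset.mem_Icc] at hq
    simp only [S]
    split_ifs with h3
    · simp
    · rcases (univ.filter fun c => (R.factorial : ZMod m) *
        ((q.2.1 : ZMod m) * c - (q.2.2 : ZMod m) * α q.1) = 0).eq_empty_or_nonempty with h0 | ⟨c0, hc0⟩
      · rw [h0]
        simp
      · rw [mem_filter] at hc0
        have h4 : ((R.factorial : ℤ) * q.2.1 : ℤ) ≠ 0 :=
          mul_ne_zero (by exact_mod_cast (Nat.factorial_pos R).ne') h3
        have h5 : (univ.filter fun c => (R.factorial : ZMod m) *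
            ((q.2.1 : ZMod m) * c - (q.2.2 : ZMod m) * α q.1) = 0).card ≤
            (univ.filter fun y : ZMod m => (((R.factorial : ℤ) * q.2.1 : ℤ) : ZMod m) * y = 0).card := by
          refine Finset.card_le_card_of_injOn (fun c => c - c0) ?_ ?_
          · intro c hc
            rw [mem_coe, mem_filter] at hc ⊢
            refine ⟨mem_univ _, ?_⟩
            have h6 := hc.2
            have h7 := hc0.2
            have h8 : (((R.factorial : ℤ) * q.2.1 : ℤ) : ZMod m) * (c - c0) =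
              (R.factorial : ZMod m) * ((q.2.1 : ZMod m) * c - (q.2.2 : ZMod m) * α q.1) -
              (R.factorial : ZMod m) * ((q.2.1 : ZMod m) * c0 - (q.2.2 : ZMod m) * α q.1) := by
              push_cast
              ring
            rw [h8, h6, h7, sub_zero]
          · intro c _ c' _ h
            exact sub_left_injective h
        refine h5.trans ((card_tors_le _ h4).trans ?_)
        rw [Int.natAbs_mul, Int.natAbs_natCast]
        refine Nat.mul_le_mul_left _ ?_
        have := abs_le.2 hq.1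
        rw [Int.abs_eq_natAbs] at this
        exact_mod_cast this
  refine (Finset.sum_le_card_nsmul T _ _ h2).trans (le_of_eq ?_)
  have h3 : T.card = 3 * ((2 * R + 1) * (2 * R + 1)) := by
    simp only [T]
    rw [card_product, card_product, card_univ, Fintype.card_fin, Int.card_Icc]
    congr 2 <;> omega
  rw [smul_eq_mul, h3]

/-- **Every triple belongs to a bounded number of balanced pairs.** -/
theorem deg_le : ∃ C : ℕ, ∀ m : ℕ, 0 < m → ∀ α : Fin 3 → ZMod m, Ch α →
    {γ : Fin 3 → ZMod m | Ch γ ∧ HP α γ}.ncard ≤ C := by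
  classical
  choose R hR using hp_rel
  let B : Fin 3 → ℕ := fun x =>
    3 * ((2 * R x + 1) * (2 * R x + 1)) * ((R x).factorial * R x)
  refine ⟨∏ x, B x, fun m hm α hα => ?_⟩
  have : NeZero m := ⟨hm.ne'⟩
  let F : Fin 3 → Finset (ZMod m) := fun x => univ.filter fun c =>
    ∃ (y : Fin 3) (u v : ℤ), u ≠ 0 ∧ |u| ≤ R x ∧ |v| ≤ R x ∧
      ((R x).factorial : ZMod m) * ((u : ZMod m) * c - (v : ZMod m) * α y) = 0
  have h1 : {γ : Fin 3 → ZMod m | Ch γ ∧ HP α γ} ⊆
      ((Fintype.piFinset F : Finset (Fin 3 → ZMod m)) : Set (Fin 3 → ZMod m)) := by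
    rintro γ ⟨h2, h3⟩
    rw [mem_coe, Fintype.mem_piFinset]
    intro x
    rw [mem_filter]
    exact ⟨mem_univ _, hR x m hm α γ hα h2 h3⟩
  refine (Set.ncard_le_ncard h1 (Finset.finite_toSet _)).trans ?_
  rw [Set.ncard_coe_finset, Fintype.card_piFinset]
  refine Finset.prod_le_prod' fun x _ => ?_
  refine le_trans (le_of_eq ?_) (card_rel_le (R x) α)
  rw [← Set.ncard_coe_finset]
  congr 1
  ext c
  simp only [F, coe_filter, mem_univ, true_and, Set.mem_ofPred_eq]

end

end Pool.Agent.Y3.FJ
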