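import Mathlib

/-!
# Deficiencies: the dimension of the span of triples of vectors with sum zero
-/

set_option autoImplicit false

namespace Pool.Agent.Y3.FJ

open Finset Module

set_option linter.unusedSectionVars false

noncomputable section

variable {K M : Type} [Field K] [AddCommGroup M] [Module K M] [FiniteDimensional K M] {n : ℕ}

theorem finrank_sing_le (v : M) : finrank K (K ∙ v) ≤ 1 := by
  by_cases hv : v = 0
  · rw [hv, Submodule.span_zero_singleton, finrank_bot]
    exact Nat.zero_le _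
  · rw [finrank_span_singleton hv]

section

variable (K) (d : Fin n → Fin 3 → M)

/-- the span of a triple -/
def Wd (j : Fin n) : Submodule K M := Submodule.span K (Set.range (d j))

/-- the span of the first triples -/
def Fl (f : Fin n → ℕ) (t : ℕ) : Submodule K M := ⨆ i : {i : Fin n // f i < t}, Wd K d i

/-- the growth of the dimension at a triple -/
def cc (f : Fin n → ℕ) (j : Fin n) : ℤ :=
  (finrank K (Fl K d f (f j + 1)) : ℤ) - finrank K (Fl K d f (f j))

variable {K d}

theorem Wd_le_Fl {f : Fin n → ℕ} {i : Fin n} {t : ℕ} (h : f i < t) : Wd K d i ≤ Fl K d f t :=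
  le_iSup (fun i : {i : Fin n // f i < t} => Wd K d i) ⟨i, h⟩

theorem Fl_zero (f : Fin n → ℕ) : Fl K d f 0 = ⊥ := by
  unfold Fl
  rw [iSup_eq_bot]
  rintro ⟨i, hi⟩
  exact absurd hi (Nat.not_lt_zero _)

theorem Fl_succ {f : Fin n → ℕ} (hf : Function.Injective f) (j : Fin n) :
    Fl K d f (f j + 1) = Fl K d f (f j) ⊔ Wd K d j := by
  apply le_antisymm
  · refine iSup_le ?_
    rintro ⟨i, hi⟩
    rcases Nat.lt_succ_iff_lt_or_eq.1 hi with h | h
    · exact (Wd_le_Fl h).trans le_sup_left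
    · have h' := hf h
      subst h'
      exact le_sup_right
  · refine sup_le (iSup_le ?_) (Wd_le_Fl (Nat.lt_succ_self _))
    rintro ⟨i, hi⟩
    exact Wd_le_Fl (hi.trans (Nat.lt_succ_self _))

theorem Fl_succ_of_ne {f : Fin n → ℕ} {t : ℕ} (h : ∀ j, f j ≠ t) :
    Fl K d f (t + 1) = Fl K d f t := by
  apply le_antisymm
  · refine iSup_le ?_
    rintro ⟨i, hi⟩
    exact Wd_le_Fl (lt_of_le_of_ne (Nat.lt_succ_iff.1 hi) (h i))
  · refine iSup_le ?_
    rintro ⟨i, hi⟩
    exact Wd_le_Fl (hi.trans (Nat.lt_succ_self _))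

theorem finrank_Fl {f : Fin n → ℕ} (hf : Function.Injective f) (t : ℕ) :
    (finrank K (Fl K d f t) : ℤ) = ∑ j ∈ univ.filter (fun j => f j < t), cc K d f j := by
  classical
  induction t with
  | zero =>
    rw [Fl_zero]
    simp
  | succ t ih =>
    by_cases h : ∃ j, f j = t
    · obtain ⟨j, rfl⟩ := h
      have h1 : univ.filter (fun i => f i < f j + 1) =
          insert j (univ.filter fun i => f i < f j) := by
        ext i
        simp only [mem_filter, mem_univ, true_and, mem_insert]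
        rw [Nat.lt_succ_iff_lt_or_eq, or_comm]
        exact or_congr ⟨fun h => hf h, fun h => by rw [h]⟩ Iff.rfl
      rw [h1, sum_insert (by simp), ← ih]
      unfold cc
      ring
    · push Not at h
      rw [Fl_succ_of_ne h, ih]
      refine Finset.sum_congr ?_ fun _ _ => rfl
      ext i
      simp only [mem_filter, mem_univ, true_and]
      constructor
      · intro h1
        omega
      · intro h1
        have := h i
        omega

theorem sum_cc {f : Fin n → ℕ} (hf : Function.Injective f) (hs : ⨆ j, Wd K d j = ⊤) :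
    ∑ j, cc K d f j = finrank K M := by
  classical
  have h1 := finrank_Fl (K := K) (d := d) hf (∑ j, f j + 1)
  have h2 : ∀ j, f j < ∑ j, f j + 1 := fun j =>
    Nat.lt_succ_of_le (Finset.single_le_sum (fun i _ => Nat.zero_le (f i)) (mem_univ j))
  rw [Finset.filter_true_of_mem fun j _ => h2 j] at h1
  rw [← h1]
  have h3 : Fl K d f (∑ j, f j + 1) = ⊤ := by
    rw [eq_top_iff, ← hs]
    exact iSup_le fun j => Wd_le_Fl (h2 j)
  rw [h3, finrank_top]

theorem univ_three : ∀ x y z : Fin 3, x ≠ y → x ≠ z → y ≠ z →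
    (univ : Finset (Fin 3)) = {x, y, z} := by decide

theorem exists_third : ∀ x y : Fin 3, x ≠ y → ∃ z, x ≠ z ∧ y ≠ z ∧ ∀ u, u = x ∨ u = y ∨ u = z := by
  decide

theorem exists_other : ∀ x : Fin 3, ∃ y, x ≠ y := by decide

variable (hsum : ∀ j, ∑ x, d j x = 0)
include hsum

theorem third {j : Fin n} {x y z : Fin 3} (h1 : x ≠ y) (h2 : x ≠ z) (h3 : y ≠ z) :
    d j z = -(d j x + d j y) := by
  have h := hsum j
  rw [univ_three x y z h1 h2 h3, sum_insert, sum_insert, sum_singleton] at h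
  · rw [eq_neg_iff_add_eq_zero, ← h]
    abel
  · simpa using h3
  · simp only [mem_insert, mem_singleton, not_or]
    exact ⟨h1, h2⟩

theorem Wd_le_of_two {j : Fin n} {x y : Fin 3} (h1 : x ≠ y) {F : Submodule K M} (hx : d j x ∈ F)
    (hy : d j y ∈ F) : Wd K d j ≤ F := by
  obtain ⟨z, h2, h3, h4⟩ := exists_third x y h1
  refine Submodule.span_le.2 ?_
  rintro _ ⟨u, rfl⟩
  rcases h4 u with rfl | rfl | rfl
  · exact hx
  · exact hy
  · rw [third hsum h1 h2 h3]
    exact F.neg_mem (F.add_mem hx hy)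

theorem cc_le_two {f : Fin n → ℕ} (hf : Function.Injective f) (j : Fin n) : cc K d f j ≤ 2 := by
  unfold cc
  rw [Fl_succ hf]
  have h1 : Fl K d f (f j) ⊔ Wd K d j ≤ (Fl K d f (f j) ⊔ K ∙ (d j 0)) ⊔ K ∙ (d j 1) := by
    refine sup_le (le_sup_left.trans le_sup_left) (Wd_le_of_two hsum (x := 0) (y := 1) (by decide)
      ?_ ?_)
    · exact Submodule.mem_sup_left (Submodule.mem_sup_right (Submodule.mem_span_singleton_self _))
    · exact Submodule.mem_sup_right (Submodule.mem_span_singleton_self _)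
  have h2 := Submodule.finrank_mono h1
  have h3 := Submodule.finrank_add_le_finrank_add_finrank (Fl K d f (f j) ⊔ K ∙ (d j 0)) (K ∙ (d j 1))
  have h4 := Submodule.finrank_add_le_finrank_add_finrank (Fl K d f (f j)) (K ∙ (d j 0))
  have h5 : finrank K (K ∙ (d j 0)) ≤ 1 := finrank_sing_le _
  have h6 : finrank K (K ∙ (d j 1)) ≤ 1 := finrank_sing_le _
  omega

theorem cc_le_one {f : Fin n → ℕ} (hf : Function.Injective f) {j : Fin n} {x : Fin 3}
    (hx : d j x ∈ Fl K d f (f j)) : cc K d f j ≤ 1 := by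
  unfold cc
  rw [Fl_succ hf]
  obtain ⟨y, hy⟩ := exists_other x
  have h1 : Fl K d f (f j) ⊔ Wd K d j ≤ Fl K d f (f j) ⊔ K ∙ (d j y) := by
    refine sup_le le_sup_left (Wd_le_of_two hsum hy ?_ ?_)
    · exact Submodule.mem_sup_left hx
    · exact Submodule.mem_sup_right (Submodule.mem_span_singleton_self _)
  have h2 := Submodule.finrank_mono h1
  have h4 := Submodule.finrank_add_le_finrank_add_finrank (Fl K d f (f j)) (K ∙ (d j y))
  have h5 : finrank K (K ∙ (d j y)) ≤ 1 := finrank_sing_le _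
  omega

theorem cc_le_zero {f : Fin n → ℕ} (hf : Function.Injective f) {j : Fin n} {x y : Fin 3}
    (hxy : x ≠ y) (hx : d j x ∈ Fl K d f (f j)) (hy : d j y ∈ Fl K d f (f j)) :
    cc K d f j ≤ 0 := by
  unfold cc
  rw [Fl_succ hf, sup_eq_left.2 (Wd_le_of_two hsum hxy hx hy)]
  omega

omit hsum in
theorem cc_le_finrank {f : Fin n → ℕ} (hf : Function.Injective f) (j : Fin n) :
    cc K d f j ≤ finrank K (Wd K d j) := by
  unfold cc
  rw [Fl_succ hf]
  have h4 := Submodule.finrank_add_le_finrank_add_finrank (Fl K d f (f j)) (Wd K d j)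
  omega

end

/-! ### the two orders of a level function -/

/-- an order refining the levels -/
def fwd (g : Fin n → ℕ) (i : Fin n) : ℕ := n * g i + i

/-- the reversed order -/
def bwd (g : Fin n → ℕ) (i : Fin n) : ℕ := (∑ l, fwd g l) - fwd g i

theorem fwd_injective (g : Fin n → ℕ) : Function.Injective (fwd g) := by
  intro i i' h
  have h1 : fwd g i % n = i := by
    unfold fwd
    rw [Nat.mul_add_mod, Nat.mod_eq_of_lt i.2]
  have h2 : fwd g i' % n = i' := by
    unfold fwd
    rw [Nat.mul_add_mod, Nat.mod_eq_of_lt i'.2]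
  apply Fin.ext
  rw [← h1, ← h2, h]

theorem fwd_le_sum (g : Fin n → ℕ) (i : Fin n) : fwd g i ≤ ∑ l, fwd g l :=
  Finset.single_le_sum (fun l _ => Nat.zero_le (fwd g l)) (mem_univ i)

theorem bwd_injective (g : Fin n → ℕ) : Function.Injective (bwd g) := by
  intro i i' h
  apply fwd_injective g
  have h1 := fwd_le_sum g i
  have h2 := fwd_le_sum g i'
  unfold bwd at h
  omega

theorem fwd_lt {g : Fin n → ℕ} {i j : Fin n} (h : g i < g j) : fwd g i < fwd g j := by
  unfold fwd
  have h1 : n * (g i + 1) ≤ n * g j := Nat.mul_le_mul_left _ h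
  have := i.2
  rw [mul_add, mul_one] at h1
  omega

theorem bwd_lt {g : Fin n → ℕ} {i j : Fin n} (h : g j < g i) : bwd g i < bwd g j := by
  have h1 := fwd_lt h
  have h2 := fwd_le_sum g i
  have h3 := fwd_le_sum g j
  unfold bwd
  omega

theorem bwd_lt_of_fwd {g : Fin n → ℕ} {i j : Fin n} (h : fwd g j < fwd g i) :
    bwd g i < bwd g j := by
  have h2 := fwd_le_sum g i
  have h3 := fwd_le_sum g j
  unfold bwd
  omega

section

variable (K) (d : Fin n → Fin 3 → M)

/-- the deficiency -/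
def dl (g : Fin n → ℕ) (j : Fin n) : ℤ := 2 - cc K d (fwd g) j - cc K d (bwd g) j

/-- the triple `i` contains the direction of the entry `x` of the triple `j` -/
def Sh (j : Fin n) (x : Fin 3) (i : Fin n) : Prop := ∃ y, (K ∙ (d i y)) = (K ∙ (d j x))

variable {K d}

theorem sum_dl (hs : ⨆ j, Wd K d j = ⊤) (g : Fin n → ℕ) :
    ∑ j, dl K d g j = 2 * n - 2 * finrank K M := by
  unfold dl
  rw [Finset.sum_sub_distrib, Finset.sum_sub_distrib, sum_cc (fwd_injective g) hs,
    sum_cc (bwd_injective g) hs]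
  simp only [sum_const, card_univ, Fintype.card_fin, nsmul_eq_mul]
  ring

theorem mem_Fl {f : Fin n → ℕ} {j i : Fin n} {x : Fin 3} (hf : f i < f j) (h : Sh K d j x i) :
    d j x ∈ Fl K d f (f j) := by
  obtain ⟨y, hy⟩ := h
  refine Wd_le_Fl hf ?_
  have h1 : d j x ∈ K ∙ (d i y) := by
    rw [hy]
    exact Submodule.mem_span_singleton_self _
  refine Submodule.span_mono ?_ h1
  rw [Set.singleton_subset_iff]
  exact ⟨y, rfl⟩

theorem two_of_three {P Q : Fin 3 → Prop} (h : ∀ x, P x ∨ Q x) :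
    (∃ x y, x ≠ y ∧ P x ∧ P y) ∨ ∃ x y, x ≠ y ∧ Q x ∧ Q y := by
  rcases h 0 with h0 | h0 <;> rcases h 1 with h1 | h1 <;> rcases h 2 with h2 | h2
  · exact Or.inl ⟨0, 1, by decide, h0, h1⟩
  · exact Or.inl ⟨0, 1, by decide, h0, h1⟩
  · exact Or.inl ⟨0, 2, by decide, h0, h2⟩
  · exact Or.inr ⟨1, 2, by decide, h1, h2⟩
  · exact Or.inl ⟨1, 2, by decide, h1, h2⟩
  · exact Or.inr ⟨0, 2, by decide, h0, h2⟩
  · exact Or.inr ⟨0, 1, by decide, h0, h1⟩
  · exact Or.inr ⟨0, 1, by decide, h0, h1⟩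

variable (hsum : ∀ j, ∑ x, d j x = 0) (hsh : ∀ j x, d j x = 0 ∨ ∃ i, i ≠ j ∧ Sh K d j x i)
include hsum hsh

omit hsum in
theorem cover (g : Fin n → ℕ) (j : Fin n) (x : Fin 3) :
    d j x ∈ Fl K d (fwd g) (fwd g j) ∨ d j x ∈ Fl K d (bwd g) (bwd g j) := by
  rcases hsh j x with h | ⟨i, hij, h⟩
  · left
    rw [h]
    exact zero_mem _
  · rcases lt_trichotomy (fwd g i) (fwd g j) with h1 | h1 | h1
    · exact Or.inl (mem_Fl h1 h)
    · exact absurd (fwd_injective g h1) hij
    · exact Or.inr (mem_Fl (bwd_lt_of_fwd h1) h)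

theorem dl_nonneg (g : Fin n → ℕ) (j : Fin n) : 0 ≤ dl K d g j := by
  unfold dl
  rcases two_of_three (cover hsh g j) with ⟨x, y, hxy, hx, hy⟩ | ⟨x, y, hxy, hx, hy⟩
  · have h1 := cc_le_zero hsum (fwd_injective g) hxy hx hy
    have h2 := cc_le_two (K := K) hsum (bwd_injective g) j
    omega
  · have h1 := cc_le_zero hsum (bwd_injective g) hxy hx hy
    have h2 := cc_le_two (K := K) hsum (fwd_injective g) j
    omega

theorem dl_bet {g : Fin n → ℕ} {j i i' : Fin n} {x x' : Fin 3} (h1 : g i < g j) (h2 : Sh K d j x i)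
    (h3 : g j < g i') (h4 : Sh K d j x' i') : 1 ≤ dl K d g j := by
  unfold dl
  have e1 := cc_le_one hsum (fwd_injective g) (mem_Fl (fwd_lt h1) h2)
  have e2 := cc_le_one hsum (bwd_injective g) (mem_Fl (bwd_lt h3) h4)
  rcases two_of_three (cover hsh g j) with ⟨x, y, hxy, hx, hy⟩ | ⟨x, y, hxy, hx, hy⟩
  · have h1 := cc_le_zero hsum (fwd_injective g) hxy hx hy
    omega
  · have h1 := cc_le_zero hsum (bwd_injective g) hxy hx hy
    omega

omit hsh in
theorem dl_bet2 {g : Fin n → ℕ} {j i i' l l' : Fin n} {x x' y y' : Fin 3} (hx : x ≠ x')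
    (h1 : g i < g j) (h2 : Sh K d j x i) (h1' : g i' < g j) (h2' : Sh K d j x' i') (hy : y ≠ y')
    (h3 : g j < g l) (h4 : Sh K d j y l) (h3' : g j < g l') (h4' : Sh K d j y' l') :
    2 ≤ dl K d g j := by
  unfold dl
  have e1 := cc_le_zero hsum (fwd_injective g) hx (mem_Fl (fwd_lt h1) h2) (mem_Fl (fwd_lt h1') h2')
  have e2 := cc_le_zero hsum (bwd_injective g) hy (mem_Fl (bwd_lt h3) h4) (mem_Fl (bwd_lt h3') h4')
  omega

theorem dl_deg (g : Fin n → ℕ) {j : Fin n} (hj : finrank K (Wd K d j) ≤ 1) : 1 ≤ dl K d g j := by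
  unfold dl
  have e1 := cc_le_finrank (K := K) (d := d) (fwd_injective g) j
  have e2 := cc_le_finrank (K := K) (d := d) (bwd_injective g) j
  rcases two_of_three (cover hsh g j) with ⟨x, y, hxy, hx, hy⟩ | ⟨x, y, hxy, hx, hy⟩
  · have h1 := cc_le_zero hsum (fwd_injective g) hxy hx hy
    omega
  · have h1 := cc_le_zero hsum (bwd_injective g) hxy hx hy
    omega

omit hsum hsh in
theorem dl_zero (g : Fin n → ℕ) {j : Fin n} (hj : Wd K d j = ⊥) : 2 ≤ dl K d g j := by
  unfold dl
  have e1 := cc_le_finrank (K := K) (d := d) (fwd_injective g) j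
  have e2 := cc_le_finrank (K := K) (d := d) (bwd_injective g) j
  rw [hj, finrank_bot] at e1 e2
  omega

omit hsh in
/-- the directions of a nondegenerate triple -/
theorem nondeg {j : Fin n} (hj : 1 < finrank K (Wd K d j)) {x y : Fin 3} (hxy : x ≠ y) :
    (K ∙ (d j x)) ≠ (K ∙ (d j y)) := by
  intro h
  have h1 : Wd K d j ≤ K ∙ (d j y) := by
    refine Wd_le_of_two hsum hxy ?_ (Submodule.mem_span_singleton_self _)
    rw [← h]
    exact Submodule.mem_span_singleton_self _
  have h2 := Submodule.finrank_mono h1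
  have h3 : finrank K (K ∙ (d j y)) ≤ 1 := finrank_sing_le _
  omega

omit hsh in
theorem nondeg_ne_zero {j : Fin n} (hj : 1 < finrank K (Wd K d j)) (x : Fin 3) : d j x ≠ 0 := by
  intro h
  obtain ⟨y, hxy⟩ := exists_other x
  have h1 : Wd K d j ≤ K ∙ (d j y) := by
    refine Wd_le_of_two hsum hxy ?_ (Submodule.mem_span_singleton_self _)
    rw [h]
    exact zero_mem _
  have h2 := Submodule.finrank_mono h1
  have h3 : finrank K (K ∙ (d j y)) ≤ 1 := finrank_sing_le _
  omega

omit hsum hsh in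
/-- the directions of a degenerate triple -/
theorem deg_par {j : Fin n} (hj : finrank K (Wd K d j) ≤ 1) {x y : Fin 3} (hx : d j x ≠ 0)
    (hy : d j y ≠ 0) : (K ∙ (d j x)) = (K ∙ (d j y)) := by
  have h1 : ∀ z, d j z ≠ 0 → (K ∙ (d j z)) = Wd K d j := by
    intro z hz
    apply Submodule.eq_of_le_of_finrank_le
    · refine Submodule.span_mono ?_
      rw [Set.singleton_subset_iff]
      exact ⟨z, rfl⟩
    · rw [finrank_span_singleton hz]
      exact hj
  rw [h1 x hx, h1 y hy]

end

end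

end Pool.Agent.Y3.FJ
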