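import Pool.Agent.Y3.FJ.Low

/-!
# The exceptional families with four triples
-/

set_option autoImplicit false

namespace Pool.Agent.Y3.FJ

open Finset Filter Topology Module Pool.Agent.Y3.GD

set_option linter.unusedSectionVars false

noncomputable section

variable {m r : ℕ}

/-- the matching of the entries -/
def tau (q : Fin 4 × Fin 3) : Fin 4 × Fin 3 :=
  (![![(1, 0), (2, 0), (3, 0)], ![(0, 0), (2, 1), (3, 1)], ![(0, 1), (1, 1), (3, 2)],
    ![(0, 2), (1, 2), (2, 2)]] : Fin 4 → Fin 3 → Fin 4 × Fin 3) q.1 q.2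

theorem tau_spec : ∀ q, tau q ≠ q ∧ tau (tau q) = q := by decide

/-- the four triples of a flow on the complete graph with four vertices -/
def Fq (q : ZMod m × ZMod m × ZMod m) : Fin 4 → Fin 3 → ZMod m :=
  ![![-(q.1 + q.2.1), q.1, q.2.1], ![q.1 + q.2.1, q.2.2, -(q.1 + q.2.1 + q.2.2)],
    ![-q.1, -q.2.2, q.1 + q.2.2], ![-q.2.1, q.1 + q.2.1 + q.2.2, -(q.1 + q.2.2)]]

/-- the six values of the flow -/
def Lq (q : ZMod m × ZMod m × ZMod m) : Fin 6 → ZMod m :=
  ![q.1, q.2.1, q.2.2, q.1 + q.2.1, q.1 + q.2.2, q.1 + q.2.1 + q.2.2]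

theorem Fq_ne_zero {q : ZMod m × ZMod m × ZMod m} (h : ∀ l, Lq q l ≠ 0) (i : Fin 4) (y : Fin 3) :
    Fq q i y ≠ 0 := by
  have h0 : q.1 ≠ 0 := h 0
  have h1 : q.2.1 ≠ 0 := h 1
  have h2 : q.2.2 ≠ 0 := h 2
  have h3 : q.1 + q.2.1 ≠ 0 := h 3
  have h4 : q.1 + q.2.2 ≠ 0 := h 4
  have h5 : q.1 + q.2.1 + q.2.2 ≠ 0 := h 5
  fin_cases i <;> fin_cases y
  · exact neg_ne_zero.2 h3
  · exact h0
  · exact h1
  · exact h3
  · exact h2
  · exact neg_ne_zero.2 h5
  · exact neg_ne_zero.2 h0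
  · exact neg_ne_zero.2 h2
  · exact h4
  · exact neg_ne_zero.2 h1
  · exact h5
  · exact neg_ne_zero.2 h4

theorem Fq_sum (q : ZMod m × ZMod m × ZMod m) (i : Fin 4) : ∑ y, Fq q i y = 0 := by
  rw [Fin.sum_univ_three]
  fin_cases i
  · change -(q.1 + q.2.1) + q.1 + q.2.1 = 0
    ring
  · change q.1 + q.2.1 + q.2.2 + -(q.1 + q.2.1 + q.2.2) = 0
    ring
  · change -q.1 + -q.2.2 + (q.1 + q.2.2) = 0
    ring
  · change -q.2.1 + (q.1 + q.2.1 + q.2.2) + -(q.1 + q.2.2) = 0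
    ring

theorem Fq_pair (q : ZMod m × ZMod m × ZMod m) : PairO (Fq q) := by
  refine ⟨tau, fun z => ⟨(tau_spec z).1, (tau_spec z).2, ?_⟩⟩
  obtain ⟨i, y⟩ := z
  fin_cases i <;> fin_cases y
  · exact (neg_neg _).symm
  · rfl
  · rfl
  · rfl
  · rfl
  · exact (neg_neg _).symm
  · exact (neg_neg _).symm
  · exact (neg_neg _).symm
  · rfl
  · exact (neg_neg _).symm
  · rfl
  · exact (neg_neg _).symm

theorem balanced_of_pair [NeZero m] {n : ℕ} {a : Fin n → Fin 3 → ZMod m} (h0 : ∀ j y, a j y ≠ 0)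
    (h : PairO a) (t : (ZMod m)ˣ) : 2 * ∑ j, ∑ y, ((t : ZMod m) * a j y).val = n * 3 * m := by
  obtain ⟨τ, hτ⟩ := h
  let F : Fin n × Fin 3 → ℕ := fun q => ((t : ZMod m) * a q.1 q.2).val
  have h1 : ∑ j, ∑ y, ((t : ZMod m) * a j y).val = ∑ q, F q := by
    rw [Fintype.sum_prod_type]
  have h2 : ∑ q, F (τ q) = ∑ q, F q :=
    Equiv.sum_comp (Function.Involutive.toPerm τ fun q => (hτ q).2.1) F
  have h3 : ∀ q, F q + F (τ q) = m := by
    intro q
    simp only [F]
    rw [(hτ q).2.2, mul_neg, ZMod.neg_val, if_neg (unit_mul_ne' t (h0 q.1 q.2))]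
    have := ZMod.val_lt ((t : ZMod m) * a q.1 q.2)
    omega
  have h4 : ∑ q, (F q + F (τ q)) = n * 3 * m := by
    rw [Finset.sum_congr rfl fun q _ => h3 q]
    simp
  rw [Finset.sum_add_distrib, h2] at h4
  rw [h1]
  omega

theorem Fq_hodge [NeZero m] {q : ZMod m × ZMod m × ZMod m} (h : ∀ l, Lq q l ≠ 0) :
    HodgeO (Fq q) :=
  ⟨Fq_ne_zero h, Fq_sum q, balanced_of_pair (Fq_ne_zero h) (Fq_pair q)⟩

theorem lt_cases : ∀ i j : Fin 4, i < j → (i = 0 ∧ j = 1) ∨ (i = 0 ∧ j = 2) ∨ (i = 0 ∧ j = 3) ∨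
    (i = 1 ∧ j = 2) ∨ (i = 1 ∧ j = 3) ∨ (i = 2 ∧ j = 3) := by decide

theorem Fq_inj {i j : Fin 4} (hij : i < j) {q q' : ZMod m × ZMod m × ZMod m}
    (h1 : Fq q i = Fq q' i) (h2 : Fq q j = Fq q' j) : q = q' := by
  obtain ⟨b, c, d⟩ := q
  obtain ⟨b', c', d'⟩ := q'
  have a0 := congrFun h1 0
  have a1 := congrFun h1 1
  have a2 := congrFun h1 2
  have g0 := congrFun h2 0
  have g1 := congrFun h2 1
  have g2 := congrFun h2 2
  simp only [Prod.mk.injEq]
  rcases lt_cases i j hij with ⟨rfl, rfl⟩ | ⟨rfl, rfl⟩ | ⟨rfl, rfl⟩ | ⟨rfl, rfl⟩ | ⟨rfl, rfl⟩ | ⟨rfl, rfl⟩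
  · change -(b + c) = -(b' + c') at a0
    change b = b' at a1
    change c = c' at a2
    change d = d' at g1
    exact ⟨a1, a2, g1⟩
  · change b = b' at a1
    change c = c' at a2
    change -d = -d' at g1
    exact ⟨a1, a2, neg_injective g1⟩
  · change b = b' at a1
    change c = c' at a2
    change -(b + d) = -(b' + d') at g2
    exact ⟨a1, a2, by linear_combination -g2 - a1⟩
  · change b + c = b' + c' at a0
    change d = d' at a1
    change -b = -b' at g0
    exact ⟨neg_injective g0, by linear_combination a0 + g0, a1⟩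
  · change b + c = b' + c' at a0
    change d = d' at a1
    change -c = -c' at g0
    exact ⟨by linear_combination a0 + g0, neg_injective g0, a1⟩
  · change -b = -b' at a0
    change -d = -d' at a1
    change -c = -c' at g0
    exact ⟨neg_injective a0, neg_injective g0, neg_injective a1⟩

/-! ### counting the flows -/

open Classical in
theorem card_L [NeZero m] (l : Fin 6) :
    (univ.filter fun q : ZMod m × ZMod m × ZMod m => Lq q l = 0).card ≤ m ^ 2 := by
  have h0 : m ^ 2 = (univ : Finset (ZMod m × ZMod m)).card := by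
    rw [card_univ, Fintype.card_prod, ZMod.card]
    ring
  rw [h0]
  fin_cases l
  · refine Finset.card_le_card_of_injOn (fun q => (q.2.1, q.2.2)) (fun _ _ => mem_coe.2 (mem_univ _)) ?_
    rintro ⟨b, c, d⟩ hq ⟨b', c', d'⟩ hq' e
    rw [mem_coe, mem_filter] at hq hq'
    have e1 : b = 0 := hq.2
    have e2 : b' = 0 := hq'.2
    rw [Prod.mk.injEq] at e
    simp only at e
    rw [e1, e2, e.1, e.2]
  · refine Finset.card_le_card_of_injOn (fun q => (q.1, q.2.2)) (fun _ _ => mem_coe.2 (mem_univ _)) ?_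
    rintro ⟨b, c, d⟩ hq ⟨b', c', d'⟩ hq' e
    rw [mem_coe, mem_filter] at hq hq'
    have e1 : c = 0 := hq.2
    have e2 : c' = 0 := hq'.2
    rw [Prod.mk.injEq] at e
    simp only at e
    rw [e1, e2, e.1, e.2]
  · refine Finset.card_le_card_of_injOn (fun q => (q.1, q.2.1)) (fun _ _ => mem_coe.2 (mem_univ _)) ?_
    rintro ⟨b, c, d⟩ hq ⟨b', c', d'⟩ hq' e
    rw [mem_coe, mem_filter] at hq hq'
    have e1 : d = 0 := hq.2
    have e2 : d' = 0 := hq'.2
    rw [Prod.mk.injEq] at e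
    simp only at e
    rw [e1, e2, e.1, e.2]
  · refine Finset.card_le_card_of_injOn (fun q => (q.1, q.2.2)) (fun _ _ => mem_coe.2 (mem_univ _)) ?_
    rintro ⟨b, c, d⟩ hq ⟨b', c', d'⟩ hq' e
    rw [mem_coe, mem_filter] at hq hq'
    have e1 : b + c = 0 := hq.2
    have e2 : b' + c' = 0 := hq'.2
    rw [Prod.mk.injEq] at e
    simp only at e
    simp only [Prod.mk.injEq]
    exact ⟨e.1, by linear_combination e1 - e2 - e.1, e.2⟩
  · refine Finset.card_le_card_of_injOn (fun q => (q.1, q.2.1)) (fun _ _ => mem_coe.2 (mem_univ _)) ?_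
    rintro ⟨b, c, d⟩ hq ⟨b', c', d'⟩ hq' e
    rw [mem_coe, mem_filter] at hq hq'
    have e1 : b + d = 0 := hq.2
    have e2 : b' + d' = 0 := hq'.2
    rw [Prod.mk.injEq] at e
    simp only at e
    simp only [Prod.mk.injEq]
    exact ⟨e.1, e.2, by linear_combination e1 - e2 - e.1⟩
  · refine Finset.card_le_card_of_injOn (fun q => (q.1, q.2.1)) (fun _ _ => mem_coe.2 (mem_univ _)) ?_
    rintro ⟨b, c, d⟩ hq ⟨b', c', d'⟩ hq' e
    rw [mem_coe, mem_filter] at hq hq'
    have e1 : b + c + d = 0 := hq.2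
    have e2 : b' + c' + d' = 0 := hq'.2
    rw [Prod.mk.injEq] at e
    simp only at e
    simp only [Prod.mk.injEq]
    exact ⟨e.1, e.2, by linear_combination e1 - e2 - e.1 - e.2⟩

open Classical in
theorem card_E [NeZero m] {i j : Fin 4} (hij : i < j) :
    (univ.filter fun q : ZMod m × ZMod m × ZMod m => Fq q i = Fq q j).card ≤ m ^ 2 := by
  refine le_trans ?_ (card_ch_le (m := m))
  refine Finset.card_le_card_of_injOn (fun q => Fq q i) ?_ ?_
  · intro q _
    rw [mem_coe, mem_filter]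
    exact ⟨mem_univ _, Fq_sum q i⟩
  · intro q hq q' hq' e
    rw [mem_coe, mem_filter] at hq hq'
    exact Fq_inj hij e (by rw [← hq.2, ← hq'.2]; exact e)

open Classical in
theorem card_H [NeZero m] {C : ℕ}
    (hC : ∀ α : Fin 3 → ZMod m, Ch α → {γ : Fin 3 → ZMod m | Ch γ ∧ HP α γ}.ncard ≤ C)
    {j : Fin 4} (hj : 0 < j) :
    (univ.filter fun q : ZMod m × ZMod m × ZMod m =>
      Ch (Fq q 0) ∧ Ch (Fq q j) ∧ HP (Fq q 0) (Fq q j)).card ≤ C * m ^ 2 := by
  let Y : Finset (Σ _ : (Fin 3 → ZMod m), (Fin 3 → ZMod m)) :=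
    (univ.filter fun α => Ch α).sigma fun α => univ.filter fun γ => Ch γ ∧ HP α γ
  have h1 : (univ.filter fun q : ZMod m × ZMod m × ZMod m =>
      Ch (Fq q 0) ∧ Ch (Fq q j) ∧ HP (Fq q 0) (Fq q j)).card ≤ Y.card := by
    refine Finset.card_le_card_of_injOn (fun q => ⟨Fq q 0, Fq q j⟩) ?_ ?_
    · intro q hq
      rw [mem_coe, mem_filter] at hq
      rw [mem_coe]
      simp only [Y, mem_sigma, mem_filter, mem_univ, true_and]
      exact hq.2
    · intro q _ q' _ e
      simp only [Sigma.mk.injEq, heq_eq_eq] at e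
      exact Fq_inj hj e.1 e.2
  refine h1.trans ?_
  simp only [Y]
  rw [card_sigma]
  have h2 : ∀ α ∈ univ.filter (fun α : Fin 3 → ZMod m => Ch α),
      (univ.filter fun γ => Ch γ ∧ HP α γ).card ≤ C := by
    intro α hα
    rw [mem_filter] at hα
    refine le_trans (le_of_eq ?_) (hC α hα.2)
    rw [← Set.ncard_coe_finset]
    congr 1
    ext γ
    simp
  refine (Finset.sum_le_card_nsmul _ _ _ h2).trans ?_
  rw [smul_eq_mul, mul_comm]
  refine Nat.mul_le_mul_left _ ?_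
  refine le_trans (card_le_card ?_) (card_ch_le (m := m))
  intro α hα
  rw [mem_filter] at hα ⊢
  exact ⟨mem_univ _, hα.2.2⟩

/-- good flows -/
def Gd (q : ZMod m × ZMod m × ZMod m) : Prop :=
  (∀ l, Lq q l ≠ 0) ∧ (∀ i j, i < j → Fq q i ≠ Fq q j) ∧ ∀ j, 0 < j → ¬ HP (Fq q 0) (Fq q j)

open Classical in
theorem card_Gd [NeZero m] {C : ℕ}
    (hC : ∀ α : Fin 3 → ZMod m, Ch α → {γ : Fin 3 → ZMod m | Ch γ ∧ HP α γ}.ncard ≤ C) :
    m ^ 3 ≤ (univ.filter fun q : ZMod m × ZMod m × ZMod m => Gd q).card + (22 + 4 * C) * m ^ 2 := by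
  let G : Finset (ZMod m × ZMod m × ZMod m) := univ.filter fun q => Gd q
  let Z : Finset (ZMod m × ZMod m × ZMod m) :=
    (univ : Finset (Fin 6)).biUnion fun l => univ.filter fun q => Lq q l = 0
  let E : Finset (ZMod m × ZMod m × ZMod m) := (univ : Finset (Fin 4 × Fin 4)).biUnion fun ij =>
    if ij.1 < ij.2 then univ.filter fun q => Fq q ij.1 = Fq q ij.2 else ∅
  let H : Finset (ZMod m × ZMod m × ZMod m) := (univ : Finset (Fin 4)).biUnion fun j =>
    if 0 < j then univ.filter fun q => Ch (Fq q 0) ∧ Ch (Fq q j) ∧ HP (Fq q 0) (Fq q j) else ∅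
  have h1 : (univ : Finset (ZMod m × ZMod m × ZMod m)) ⊆ G ∪ (Z ∪ (E ∪ H)) := by
    intro q _
    by_contra hcon
    rw [mem_union, mem_union, mem_union, not_or, not_or, not_or] at hcon
    obtain ⟨k1, k2, k3, k4⟩ := hcon
    apply k1
    have e1 : ∀ l, Lq q l ≠ 0 := by
      intro l hl
      apply k2
      rw [mem_biUnion]
      exact ⟨l, mem_univ _, mem_filter.2 ⟨mem_univ _, hl⟩⟩
    refine mem_filter.2 ⟨mem_univ _, e1, ?_, ?_⟩
    · intro i j hij hl
      apply k3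
      rw [mem_biUnion]
      refine ⟨(i, j), mem_univ _, ?_⟩
      rw [if_pos hij, mem_filter]
      exact ⟨mem_univ _, hl⟩
    · intro j hj hl
      apply k4
      rw [mem_biUnion]
      refine ⟨j, mem_univ _, ?_⟩
      rw [if_pos hj, mem_filter]
      exact ⟨mem_univ _, ⟨Fq_ne_zero e1 0, Fq_sum q 0⟩, ⟨Fq_ne_zero e1 j, Fq_sum q j⟩, hl⟩
  have h2 := card_le_card h1
  rw [card_univ, Fintype.card_prod, Fintype.card_prod, ZMod.card] at h2
  have h3 := card_union_le G (Z ∪ (E ∪ H))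
  have h4 := card_union_le Z (E ∪ H)
  have h5 := card_union_le E H
  have c1 : Z.card ≤ 6 * m ^ 2 := by
    refine card_biUnion_le.trans ((Finset.sum_le_card_nsmul _ _ _ fun l _ => card_L l).trans ?_)
    rw [card_univ, Fintype.card_fin, smul_eq_mul]
  have c2 : E.card ≤ 16 * m ^ 2 := by
    refine card_biUnion_le.trans ((Finset.sum_le_card_nsmul _ _ (m ^ 2) fun ij _ => ?_).trans ?_)
    · split_ifs with h6
      · exact card_E h6
      · simp
    · rw [card_univ, Fintype.card_prod, Fintype.card_fin, smul_eq_mul]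
  have c3 : H.card ≤ 4 * (C * m ^ 2) := by
    refine card_biUnion_le.trans ((Finset.sum_le_card_nsmul _ _ (C * m ^ 2) fun j _ => ?_).trans ?_)
    · split_ifs with h6
      · exact card_H hC h6
      · simp
    · rw [card_univ, Fintype.card_fin, smul_eq_mul]
  have h6 : m ^ 3 = m * (m * m) := by ring
  rw [h6]
  calc m * (m * m) ≤ G.card + (6 * m ^ 2 + (16 * m ^ 2 + 4 * (C * m ^ 2))) := by omega
    _ = _ := by ring

/-! ### the base case -/

open Classical in
theorem hodgeF_of_O {k n : ℕ} (hn : n = 2 * k) {f : Fin n → (Fin 3 → ZMod m) × Fin r}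
    (hf : Function.Injective f) (h : HodgeO fun j => (f j).1) : HodgeF k (univ.image f) := by
  obtain ⟨h1, h2, h3⟩ := h
  refine ⟨?_, ?_, ?_⟩
  · rw [card_image_of_injective _ hf, card_univ, Fintype.card_fin, hn]
  · intro p hp
    rw [mem_image] at hp
    obtain ⟨j, _, rfl⟩ := hp
    exact ⟨h1 j, h2 j⟩
  · intro t
    rw [sum_image (fun _ _ _ _ e => hf e), ← hn]
    exact h3 t

open Classical in
theorem base4 : ∃ C : ℕ, ∀ m r : ℕ, C ≤ m → 0 < m →
    r ^ 4 * m ^ 3 ≤ C *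
      {S : Finset ((Fin 3 → ZMod m) × Fin r) | HodgeF 2 S ∧ LinF S ∧ ¬ DivF S}.ncard := by
  obtain ⟨C, hC⟩ := deg_le
  refine ⟨2 * (22 + 4 * C) + 512, fun m r hCm hm => ?_⟩
  have : NeZero m := ⟨hm.ne'⟩
  have h1 := card_Gd (m := m) (hC m hm)
  have h2 : m ^ 3 ≤ 2 * (univ.filter fun q : ZMod m × ZMod m × ZMod m => Gd q).card := by
    have h3 : 2 * ((22 + 4 * C) * m ^ 2) ≤ m ^ 3 := by
      calc 2 * ((22 + 4 * C) * m ^ 2) = (2 * (22 + 4 * C)) * m ^ 2 := by ring
        _ ≤ m * m ^ 2 := Nat.mul_le_mul_right _ (by omega)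
        _ = m ^ 3 := by ring
    omega
  let 𝒮 : Finset (Finset ((Fin 3 → ZMod m) × Fin r)) :=
    univ.filter fun S => HodgeF 2 S ∧ LinF S ∧ ¬ DivF S
  let X : Finset ((ZMod m × ZMod m × ZMod m) × (Fin 4 → Fin r)) :=
    (univ.filter fun q => Gd q) ×ˢ univ
  let Y : Finset (Σ _ : Finset ((Fin 3 → ZMod m) × Fin r), (Fin 4 → (Fin 3 → ZMod m) × Fin r)) :=
    𝒮.sigma fun S => Fintype.piFinset fun _ => S
  have hX : X.card = (univ.filter fun q : ZMod m × ZMod m × ZMod m => Gd q).card * r ^ 4 := by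
    simp only [X]
    rw [card_product, card_univ, Fintype.card_fun, Fintype.card_fin, Fintype.card_fin]
  have hY : Y.card = 𝒮.card * 256 := by
    simp only [Y]
    rw [card_sigma, sum_congr rfl (g := fun _ => 256), sum_const, smul_eq_mul]
    intro S hS
    simp only [𝒮, mem_filter] at hS
    rw [Fintype.card_piFinset, prod_const, hS.2.1.1, card_univ, Fintype.card_fin]
    norm_num
  have hXY : X.card ≤ Y.card := by
    refine Finset.card_le_card_of_injOn (fun x =>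
      ⟨univ.image fun i => (Fq x.1 i, x.2 i), fun i => (Fq x.1 i, x.2 i)⟩) ?_ ?_
    · rintro ⟨q, ρ⟩ hx
      simp only [X, mem_coe, mem_product, mem_filter, mem_univ, true_and, and_true] at hx
      simp only [Y, 𝒮, mem_coe, mem_sigma, mem_filter, mem_univ, true_and, Fintype.mem_piFinset]
      obtain ⟨k1, k2, k3⟩ := hx
      have hf : Function.Injective fun i : Fin 4 => (Fq q i, ρ i) := by
        intro i j e
        by_contra hne
        rcases lt_or_gt_of_ne hne with h4 | h4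
        · exact k2 i j h4 (congrArg Prod.fst e)
        · exact k2 j i h4 (congrArg Prod.fst e).symm
      refine ⟨⟨hodgeF_of_O (by norm_num) hf (Fq_hodge k1), linF_of_pair hf (Fq_pair q), ?_⟩,
        fun i => mem_image_of_mem _ (mem_univ _)⟩
      rintro ⟨σ, hσ⟩
      obtain ⟨e1, e2, e3, e4⟩ := hσ (Fq q 0, ρ 0) (mem_image_of_mem
        (fun i : Fin 4 => (Fq q i, ρ i)) (mem_univ 0))
      rw [mem_image] at e1
      obtain ⟨j, _, hj⟩ := e1
      rw [← hj] at e2 e4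
      refine k3 j ?_ e4
      rw [Fin.pos_iff_ne_zero]
      rintro rfl
      exact e2 rfl
    · rintro ⟨q, ρ⟩ _ ⟨q', ρ'⟩ _ e
      simp only [Sigma.mk.injEq, heq_eq_eq] at e
      have e0 := e.2
      have e1 : ∀ i, Fq q i = Fq q' i ∧ ρ i = ρ' i := by
        intro i
        have h4 := congrFun e0 i
        rw [Prod.mk.injEq] at h4
        exact h4
      have e2 : q = q' := Fq_inj (i := 0) (j := 1) (by decide) (e1 0).1 (e1 1).1
      have e3 : ρ = ρ' := funext fun i => (e1 i).2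
      rw [e2, e3]
  have e1 : {S : Finset ((Fin 3 → ZMod m) × Fin r) | HodgeF 2 S ∧ LinF S ∧ ¬ DivF S}.ncard =
      𝒮.card := by
    rw [← Set.ncard_coe_finset]
    congr 1
    ext S
    simp [𝒮]
  rw [e1]
  calc r ^ 4 * m ^ 3 ≤ r ^ 4 * (2 * (univ.filter fun q : ZMod m × ZMod m × ZMod m => Gd q).card) :=
        Nat.mul_le_mul_left _ h2
    _ = 2 * X.card := by rw [hX]; ring
    _ ≤ 2 * Y.card := Nat.mul_le_mul_left _ hXY
    _ = 512 * 𝒮.card := by rw [hY]; ring
    _ ≤ _ := Nat.mul_le_mul_right _ (by omega)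

end

end Pool.Agent.Y3.FJ
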