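import Pool.Agent.Y3.FJ.Tor

/-!
# The limit argument for balanced tuples
-/

set_option autoImplicit false

namespace Pool.Agent.Y3.FJ

open Finset Filter Topology Pool.Agent.Y3.FD Pool.Agent.Y3.GD

set_option linter.unusedSectionVars false

noncomputable section

variable {N : ℕ}

variable {m : ℕ → ℕ} {a : ∀ R, Fin N → ZMod (m R)} {U : Ultrafilter ℕ}

theorem torH_of_limit (hm : ∀ R, 0 < m R) {x : Fin N → ℝ}
    (hx : Tendsto (fun R => xr (a R)) (U : Filter ℕ) (𝓝 x))
    (h0 : ∀ R i, a R i ≠ 0)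
    (hc : ∀ R, ∀ t : (ZMod (m R))ˣ, 2 * ∑ i, ((t : ZMod (m R)) * a R i).val = N * m R) :
    TorH (Lam m a U) x := by
  classical
  refine ⟨?_, ?_, ?_⟩
  · -- saturated
    intro d k hd hk
    obtain ⟨g, hg, h⟩ := (mem_Lam m a U).1 hk
    refine (mem_Lam m a U).2 ⟨g * d.natAbs, Nat.mul_pos hg (Int.natAbs_pos.2 hd), ?_⟩
    filter_upwards [h] with R h1
    rw [dm_smul] at h1
    rcases Int.natAbs_eq d with h2 | h2
    · have h3 : ((d.natAbs : ℕ) : ZMod (m R)) = (d : ZMod (m R)) := by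
        conv_rhs => rw [h2]
        simp
      rw [Nat.cast_mul, h3, mul_assoc]
      exact h1
    · have h3 : ((d.natAbs : ℕ) : ZMod (m R)) = -(d : ZMod (m R)) := by
        conv_rhs => rw [h2]
        simp
      rw [Nat.cast_mul, h3, mul_assoc, neg_mul, mul_neg, h1, neg_zero]
  · -- torsion coordinates
    rintro i hi ⟨n, hn⟩
    obtain ⟨R, h1⟩ := (eventually_dr hm hx hi).exists
    rw [dr_single, dr_single, hn] at h1
    have : NeZero (m R) := ⟨(hm R).ne'⟩
    have hmR := @m_pos (m R) _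
    unfold xr at h1
    have h2 : (0 : ℝ) < ((a R i).val : ℝ) / m R := by
      have h3 : 0 < (a R i).val := Nat.pos_of_ne_zero fun h => h0 R i ((ZMod.val_eq_zero _).1 h)
      have h4 : (0 : ℝ) < ((a R i).val : ℝ) := by exact_mod_cast h3
      positivity
    have h3 : ((a R i).val : ℝ) / m R < 1 := by
      rw [div_lt_one hmR]
      exact_mod_cast ZMod.val_lt _
    rw [h1] at h2 h3
    have h4 : 0 < n := by exact_mod_cast h2
    have h5 : n < 1 := by exact_mod_cast h3
    omega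
  · -- the sum
    intro z hz hkz
    have hη : ∀ᶠ η : ℝ in 𝓝[>] 0, 0 < η ∧ η ≤ 1 / 2 ∧ ∀ i, η ≤ z i ∧ z i ≤ 1 - η := by
      have h1 : ∀ y : ℝ, 0 < y → ∀ᶠ η : ℝ in 𝓝[>] 0, η ≤ y := by
        intro y hy
        have : Tendsto (fun η : ℝ => η) (𝓝[>] 0) (𝓝 0) := tendsto_id.mono_left nhdsWithin_le_nhds
        exact (this.eventually (gt_mem_nhds hy)).mono fun _ h => h.le
      have h2 : ∀ᶠ η : ℝ in 𝓝[>] 0, ∀ i, η ≤ z i ∧ η ≤ 1 - z i := by
        rw [Filter.eventually_all]
        exact fun i => (h1 _ (hz i).1).and (h1 _ (by linarith [(hz i).2]))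
      filter_upwards [h1 (1 / 2) (by norm_num), h2, self_mem_nhdsWithin] with η h3 h4 h5
      exact ⟨h5, h3, fun i => ⟨(h4 i).1, by linarith [(h4 i).2]⟩⟩
    have main : ∀ η : ℝ, 0 < η → η ≤ 1 / 2 → (∀ i, η ≤ z i ∧ z i ≤ 1 - η) →
        |(N : ℝ) / 2 - ∑ i, z i| ≤ N * η := by
      intro η hη0 hη1 hη2
      obtain ⟨p, ε, hε, hkron⟩ := kron N hη0 hη1
      let F : Finset (Fin N → ℤ) := Fintype.piFinset fun _ => Finset.Icc (-(p : ℤ)) p
      have hF : ∀ k, k ∈ F ↔ ∀ i, |k i| ≤ p := by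
        intro k
        rw [Fintype.mem_piFinset]
        refine forall_congr' fun i => ?_
        rw [Finset.mem_Icc, abs_le]
      let κ : Type := {k : F // (k : Fin N → ℤ) ∈ Lam m a U}
      have hgk : ∀ k : κ, ∃ g : ℕ, 0 < g ∧ ∀ᶠ R in (U : Filter ℕ),
          (g : ZMod (m R)) * dm (k.1 : Fin N → ℤ) (a R) = 0 := fun k => (mem_Lam m a U).1 k.2
      choose g hg0 hg1 using hgk
      obtain ⟨g0, hg0'⟩ := exists_g0 (∏ k, g k) hε
      have e1 : ∀ᶠ R in (U : Filter ℕ), ∀ k : κ,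
          (g k : ZMod (m R)) * dm (k.1 : Fin N → ℤ) (a R) = 0 := by
        rw [Filter.eventually_all]
        exact hg1
      have e2 : ∀ᶠ R in (U : Filter ℕ), ∀ k : κ,
          dr (k.1 : Fin N → ℤ) (xr (a R)) = dr (k.1 : Fin N → ℤ) x := by
        rw [Filter.eventually_all]
        exact fun k => eventually_dr hm hx k.2
      have e3 : ∀ᶠ R in (U : Filter ℕ), ∀ k ∈ F, k ∉ Lam m a U →
          g0 < addOrderOf (dm k (a R)) := by
        rw [Filter.eventually_all_finset]
        intro k _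
        by_cases hk : k ∈ Lam m a U
        · exact Eventually.of_forall fun R h => absurd hk h
        · exact (order_large hm hk g0).mono fun R h _ => h
      obtain ⟨R, h1, h2, h3⟩ := (e1.and (e2.and e3)).exists
      have : NeZero (m R) := ⟨(hm R).ne'⟩
      obtain ⟨G, hGi, hG⟩ := exists_stab (fun k : κ => dm (k.1 : Fin N → ℤ) (a R)) g hg0 h1
      obtain ⟨t, ht⟩ := hkron (m R) (a R) z hη2 G (by
        intro k hk
        have hkF := (hF k).2 hk
        by_cases hkL : k ∈ Lam m a U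
        · left
          refine ⟨hG ⟨⟨k, hkF⟩, hkL⟩, ?_⟩
          rw [ec_dm]
          have h4 : dr k (fun i => ((a R i).val : ℝ) / m R) = dr k x := h2 ⟨⟨k, hkF⟩, hkL⟩
          obtain ⟨n, hn⟩ := hkz k hkL
          have h5 : dr k z = dr k x + n := by linarith
          rw [h4, h5, ex_add, ex_int, mul_one]
        · right
          have h4 := h3 k hkF hkL
          have h5 := norm_Fs_le G (dm k (a R)) hGi
          have h6 := hg0' _ h4
          have h7 : (0 : ℝ) < Nat.totient (addOrderOf (dm k (a R))) := by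
            exact_mod_cast Nat.totient_pos.2 (addOrderOf_pos _)
          have h8 : ‖Fs G (dm k (a R))‖ * Nat.totient (addOrderOf (dm k (a R))) ≤
              ε * Fintype.card G * Nat.totient (addOrderOf (dm k (a R))) := by
            refine h5.trans ?_
            calc (Fintype.card G : ℝ) * (((∏ k, g k : ℕ) : ℝ) *
                Real.sqrt (addOrderOf (dm k (a R)))) ≤ Fintype.card G *
                  (ε * Nat.totient (addOrderOf (dm k (a R)))) :=
                  mul_le_mul_of_nonneg_left h6 (Nat.cast_nonneg _)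
              _ = _ := by ring
          exact le_of_mul_le_mul_right h8 h7)
      have h4 := hc R t
      have hmR := @m_pos (m R) _
      have h5 : (N : ℝ) / 2 = ∑ i, (((t : ZMod (m R)) * a R i).val : ℝ) / m R := by
        rw [← Finset.sum_div, eq_div_iff hmR.ne']
        have h6 : (2 : ℝ) * ∑ i, (((t : ZMod (m R)) * a R i).val : ℝ) = N * m R := by
          exact_mod_cast h4
        linarith
      rw [h5, ← Finset.sum_sub_distrib]
      refine (Finset.abs_sum_le_sum_abs _ _).trans ?_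
      have h6 : ∑ i, |(((t : ZMod (m R)) * a R i).val : ℝ) / m R - z i| ≤ ∑ _i : Fin N, η :=
        Finset.sum_le_sum fun i _ => (ht i).le
      refine h6.trans (le_of_eq ?_)
      rw [Finset.sum_const, Finset.card_univ, Fintype.card_fin, nsmul_eq_mul]
    have h1 : |(N : ℝ) / 2 - ∑ i, z i| ≤ 0 := by
      have h2 : Tendsto (fun η : ℝ => (N : ℝ) * η) (𝓝[>] 0) (𝓝 ((N : ℝ) * 0)) :=
        (tendsto_id.const_mul _).mono_left nhdsWithin_le_nhds
      rw [mul_zero] at h2
      refine ge_of_tendsto h2 ?_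
      filter_upwards [hη] with η h3
      exact main η h3.1 h3.2.1 h3.2.2
    have h2 := abs_nonpos_iff.1 h1
    linarith

theorem rank_of_limit {r : ℕ} (hU : (U : Filter ℕ) ≤ atTop)
    (hR : ∀ R, ¬ Rel R r (a R)) (I : Finset (Fin N)) (k : Fin N → Fin N → ℤ)
    (hk : ∀ j ∈ I, k j ∈ Lam m a U ∧ k j j ≠ 0 ∧ ∀ i ∈ I, i ≠ j → k j i = 0) : I.card < r := by
  classical
  by_contra hcon
  push Not at hcon
  obtain ⟨J, hJI, hJ⟩ := Finset.exists_subset_card_eq hcon
  have hg : ∀ j, ∃ g : ℕ, 0 < g ∧ (j ∈ J → ∀ᶠ R in (U : Filter ℕ),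
      (g : ZMod (m R)) * dm (k j) (a R) = 0) := by
    intro j
    by_cases hj : j ∈ J
    · obtain ⟨g, hg, h⟩ := (mem_Lam m a U).1 (hk j (hJI hj)).1
      exact ⟨g, hg, fun _ => h⟩
    · exact ⟨1, one_pos, fun h => absurd h hj⟩
  choose g hg0 hg1 using hg
  have e1 : ∀ᶠ R : ℕ in (U : Filter ℕ), ∀ j i, |k j i| ≤ R := by
    rw [Filter.eventually_all]
    intro j
    rw [Filter.eventually_all]
    intro i
    refine Eventually.filter_mono hU ?_
    filter_upwards [eventually_ge_atTop (k j i).natAbs] with R h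
    rw [Int.abs_eq_natAbs]
    exact_mod_cast h
  have e2 : ∀ᶠ R : ℕ in (U : Filter ℕ), ∀ j, g j ≤ R := by
    rw [Filter.eventually_all]
    intro j
    exact Eventually.filter_mono hU (eventually_ge_atTop (g j))
  have e3 : ∀ᶠ R in (U : Filter ℕ), ∀ j ∈ J, (g j : ZMod (m R)) * dm (k j) (a R) = 0 := by
    rw [Filter.eventually_all_finset]
    exact hg1
  obtain ⟨R, h1, h2, h3⟩ := (e1.and (e2.and e3)).exists
  apply hR R
  refine ⟨J, k, hJ, h1, fun j hj => ⟨(hk j (hJI hj)).2.1, fun i hi hij =>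
    (hk j (hJI hj)).2.2 i (hJI hi) hij, ?_⟩⟩
  obtain ⟨q, hq⟩ := Nat.dvd_factorial (hg0 j) (h2 j)
  rw [hq]
  push_cast
  rw [mul_comm (g j : ZMod (m R)), mul_assoc, h3 j hj, mul_zero]

/-- a limit point -/
theorem exists_limit (hm : ∀ R, 0 < m R) :
    ∃ x : Fin N → ℝ, Tendsto (fun R => xr (a R)) (U : Filter ℕ) (𝓝 x) := by
  have hcomp : IsCompact (Set.Icc (0 : Fin N → ℝ) 1) := isCompact_Icc
  have h1 : (U.map fun R => xr (a R) : Ultrafilter (Fin N → ℝ)) ≤
      𝓟 (Set.Icc (0 : Fin N → ℝ) 1) := by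
    rw [Ultrafilter.coe_map, le_principal_iff, Filter.mem_map]
    refine Filter.univ_mem' fun R => ?_
    have : NeZero (m R) := ⟨(hm R).ne'⟩
    have hmR := @m_pos (m R) _
    refine ⟨fun i => ?_, fun i => ?_⟩
    · unfold xr
      simp only [Pi.zero_apply]
      positivity
    · unfold xr
      simp only [Pi.one_apply]
      rw [div_le_one hmR]
      exact_mod_cast (ZMod.val_lt _).le
  obtain ⟨x, -, hx⟩ := hcomp.ultrafilter_le_nhds _ h1
  exact ⟨x, hx⟩

/-- a relation of the limit with an integral value holds -/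
theorem dm_eq_zero_of_limit (hm : ∀ R, 0 < m R) {x : Fin N → ℝ}
    (hx : Tendsto (fun R => xr (a R)) (U : Filter ℕ) (𝓝 x)) {k : Fin N → ℤ}
    (hk : k ∈ Lam m a U) (hn : ∃ n : ℤ, dr k x = n) :
    ∀ᶠ R in (U : Filter ℕ), dm k (a R) = 0 := by
  obtain ⟨n, hn⟩ := hn
  filter_upwards [eventually_dr hm hx hk] with R h1
  have : NeZero (m R) := ⟨(hm R).ne'⟩
  rw [hn] at h1
  exact dm_of_int h1

/-- integral relations at all finite levels -/
theorem mem_Lam_of_forall (hm : ∀ R, 0 < m R) {x : Fin N → ℝ}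
    (hx : Tendsto (fun R => xr (a R)) (U : Filter ℕ) (𝓝 x)) {k : Fin N → ℤ}
    (hk : ∀ R, dm k (a R) = 0) : k ∈ Lam m a U ∧ ∃ n : ℤ, dr k x = n := by
  have h1 : k ∈ Lam m a U := (mem_Lam m a U).2 ⟨1, one_pos, Eventually.of_forall fun R => by
    rw [hk R, mul_zero]⟩
  refine ⟨h1, ?_⟩
  obtain ⟨R, h2⟩ := (eventually_dr hm hx h1).exists
  have : NeZero (m R) := ⟨(hm R).ne'⟩
  obtain ⟨n, hn⟩ := int_of_dm (m := m R) (k := k) (a := a R) (g := 1) (by rw [hk R, mul_zero])
  refine ⟨n, ?_⟩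
  rw [← h2]
  rw [Nat.cast_one, one_mul] at hn
  exact hn

end

end Pool.Agent.Y3.FJ
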