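import Pool.Agent.Y3.FJ.Upp

/-!
# Lower bounds: adding opposite pairs
-/

set_option autoImplicit false

namespace Pool.Agent.Y3.FJ

open Finset Filter Topology Module Pool.Agent.Y3.GD

set_option linter.unusedSectionVars false

noncomputable section

variable {m r : ℕ}

/-! ### adding a pair of opposite characters -/

theorem ch_neg {γ : Fin 3 → ZMod m} (h : Ch γ) : Ch (-γ) :=
  ⟨fun y => neg_ne_zero.2 (h.1 y), by simp only [Pi.neg_apply, Finset.sum_neg_distrib, h.2, neg_zero]⟩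

theorem hp_neg [NeZero m] {γ : Fin 3 → ZMod m} (h : Ch γ) : HP γ (-γ) :=
  hp_of_opp h.1 ⟨1, fun _ => rfl⟩

open Classical in
theorem hodgeF_insert [NeZero m] {k : ℕ} {S : Finset ((Fin 3 → ZMod m) × Fin r)} (hS : HodgeF k S)
    {γ : Fin 3 → ZMod m} (hγ : Ch γ) {ρ ρ' : Fin r} (h1 : (γ, ρ) ∉ S) (h2 : (-γ, ρ') ∉ S)
    (h3 : (γ, ρ) ≠ (-γ, ρ')) : HodgeF (k + 1) (insert (γ, ρ) (insert (-γ, ρ') S)) := by
  have h4 : (γ, ρ) ∉ insert (-γ, ρ') S := by
    rw [mem_insert, not_or]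
    exact ⟨h3, h1⟩
  refine ⟨?_, ?_, ?_⟩
  · rw [card_insert_of_notMem h4, card_insert_of_notMem h2, hS.1]
    ring
  · intro p hp
    rw [mem_insert, mem_insert] at hp
    rcases hp with rfl | rfl | hp
    · exact hγ
    · exact ch_neg hγ
    · exact hS.2.1 p hp
  · intro t
    rw [sum_insert h4, sum_insert h2, ← add_assoc, mul_add, hS.2.2 t]
    have h5 := hp_neg hγ t
    simp only at h5 ⊢
    rw [h5]
    ring

open Classical in
theorem divF_insert [NeZero m] {S : Finset ((Fin 3 → ZMod m) × Fin r)} (hS : DivF S)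
    {γ : Fin 3 → ZMod m} (hγ : Ch γ) {ρ ρ' : Fin r} (h1 : (γ, ρ) ∉ S) (h2 : (-γ, ρ') ∉ S)
    (h3 : (γ, ρ) ≠ (-γ, ρ')) : DivF (insert (γ, ρ) (insert (-γ, ρ') S)) := by
  obtain ⟨σ, hσ⟩ := hS
  refine ⟨fun p => if p = (γ, ρ) then (-γ, ρ') else if p = (-γ, ρ') then (γ, ρ) else σ p, ?_⟩
  intro p hp
  rw [mem_insert, mem_insert] at hp
  beta_reduce
  by_cases e1 : p = (γ, ρ)
  · rw [if_pos e1, if_neg h3.symm, if_pos rfl, e1]
    exact ⟨mem_insert_of_mem (mem_insert_self _ _), h3.symm, rfl, hp_neg hγ⟩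
  by_cases e2 : p = (-γ, ρ')
  · rw [if_neg e1, if_pos e2, if_pos rfl, e2]
    exact ⟨mem_insert_self _ _, h3, rfl, hp_symm (hp_neg hγ)⟩
  · have hp' : p ∈ S := by
      rcases hp with e | e | e
      · exact absurd e e1
      · exact absurd e e2
      · exact e
    obtain ⟨k1, k2, k3, k4⟩ := hσ p hp'
    have e3 : σ p ≠ (γ, ρ) := fun e => h1 (e ▸ k1)
    have e4 : σ p ≠ (-γ, ρ') := fun e => h2 (e ▸ k1)
    rw [if_neg e1, if_neg e2, if_neg e3, if_neg e4]
    exact ⟨mem_insert_of_mem (mem_insert_of_mem k1), k2, k3, k4⟩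

open Classical in
theorem linF_insert [NeZero m] {S : Finset ((Fin 3 → ZMod m) × Fin r)} (hS : LinF S)
    {γ : Fin 3 → ZMod m} {ρ ρ' : Fin r} (h1 : (γ, ρ) ∉ S) (h2 : (-γ, ρ') ∉ S)
    (h3 : (γ, ρ) ≠ (-γ, ρ')) : LinF (insert (γ, ρ) (insert (-γ, ρ') S)) := by
  obtain ⟨τ, hτ⟩ := hS
  refine ⟨fun q => if q.1 = (γ, ρ) then ((-γ, ρ'), q.2) else if q.1 = (-γ, ρ') then
    ((γ, ρ), q.2) else τ q, ?_⟩
  intro p hp y
  rw [mem_insert, mem_insert] at hp
  by_cases e1 : p = (γ, ρ)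
  · subst e1
    simp only [if_true, if_neg h3.symm]
    exact ⟨mem_insert_of_mem (mem_insert_self _ _), fun e => h3.symm (congrArg Prod.fst e),
      trivial, rfl⟩
  by_cases e2 : p = (-γ, ρ')
  · subst e2
    simp only [if_true, if_neg h3.symm]
    refine ⟨mem_insert_self _ _, fun e => h3 (congrArg Prod.fst e), trivial, ?_⟩
    rw [Pi.neg_apply, neg_neg]
  · have hp' : p ∈ S := by
      rcases hp with e | e | e
      · exact absurd e e1
      · exact absurd e e2
      · exact e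
    obtain ⟨k1, k2, k3, k4⟩ := hτ p hp' y
    have e3 : (τ (p, y)).1 ≠ (γ, ρ) := fun e => h1 (e ▸ k1)
    have e4 : (τ (p, y)).1 ≠ (-γ, ρ') := fun e => h2 (e ▸ k1)
    simp only [if_neg e1, if_neg e2, if_neg e3, if_neg e4]
    exact ⟨mem_insert_of_mem (mem_insert_of_mem k1), k2, k3, k4⟩

open Classical in
theorem divF_of_insert {S : Finset ((Fin 3 → ZMod m) × Fin r)}
    {γ : Fin 3 → ZMod m} {ρ ρ' : Fin r} (h1 : (γ, ρ) ∉ S) (h2 : (-γ, ρ') ∉ S)
    (h4 : ∀ s ∈ S, ¬ HP s.1 γ)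
    (h : DivF (insert (γ, ρ) (insert (-γ, ρ') S))) : DivF S := by
  obtain ⟨σ, hσ⟩ := h
  refine ⟨σ, ?_⟩
  have e1 : σ (γ, ρ) = (-γ, ρ') := by
    obtain ⟨k1, k2, k3, k4⟩ := hσ (γ, ρ) (mem_insert_self _ _)
    rw [mem_insert, mem_insert] at k1
    rcases k1 with k1 | k1 | k1
    · exact absurd k1 k2
    · exact k1
    · exact absurd (hp_symm k4) (h4 _ k1)
  have e2 : σ (-γ, ρ') = (γ, ρ) := by
    rw [← e1]
    exact (hσ (γ, ρ) (mem_insert_self _ _)).2.2.1
  intro s hs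
  obtain ⟨k1, k2, k3, k4⟩ := hσ s (mem_insert_of_mem (mem_insert_of_mem hs))
  refine ⟨?_, k2, k3, k4⟩
  rw [mem_insert, mem_insert] at k1
  rcases k1 with k1 | k1 | k1
  · rw [k1, e1] at k3
    exact absurd (k3 ▸ hs) h2
  · rw [k1, e2] at k3
    exact absurd (k3 ▸ hs) h1
  · exact k1

/-! ### counting characters -/

open Classical in
theorem card_ch_le [NeZero m] : (univ.filter fun γ : Fin 3 → ZMod m => ∑ y, γ y = 0).card ≤ m ^ 2 := by
  have h1 : (univ.filter fun γ : Fin 3 → ZMod m => ∑ y, γ y = 0).card ≤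
      (univ : Finset (ZMod m × ZMod m)).card := by
    refine Finset.card_le_card_of_injOn (fun γ => (γ 0, γ 1)) (fun _ _ => mem_coe.2 (mem_univ _)) ?_
    intro γ hγ γ' hγ' e
    rw [mem_coe, mem_filter] at hγ hγ'
    rw [Prod.mk.injEq] at e
    have h2 := hγ.2
    have h3 := hγ'.2
    rw [Fin.sum_univ_three] at h2 h3
    funext y
    fin_cases y
    · exact e.1
    · exact e.2
    · simp only [Fin.reduceFinMk]
      linear_combination h2 - h3 - e.1 - e.2
  refine h1.trans (le_of_eq ?_)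
  rw [card_univ, Fintype.card_prod, ZMod.card]
  ring

open Classical in
theorem card_ch_ge [NeZero m] : m ^ 2 ≤ (univ.filter fun γ : Fin 3 → ZMod m => Ch γ).card + 3 * m := by
  let G : Finset (ZMod m × ZMod m) := univ.filter fun q => q.1 ≠ 0 ∧ q.2 ≠ 0 ∧ q.1 + q.2 ≠ 0
  let L1 : Finset (ZMod m × ZMod m) := univ.image fun c => ((0 : ZMod m), c)
  let L2 : Finset (ZMod m × ZMod m) := univ.image fun b => (b, (0 : ZMod m))
  let L3 : Finset (ZMod m × ZMod m) := univ.image fun b => (b, -b)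
  have h1 : (univ : Finset (ZMod m × ZMod m)) ⊆ G ∪ (L1 ∪ (L2 ∪ L3)) := by
    rintro ⟨b, c⟩ _
    simp only [mem_union, G, L1, L2, L3, mem_filter, mem_image, mem_univ, true_and, Prod.mk.injEq]
    by_cases h2 : b = 0
    · exact Or.inr (Or.inl ⟨c, h2.symm, rfl⟩)
    by_cases h3 : c = 0
    · exact Or.inr (Or.inr (Or.inl ⟨b, rfl, h3.symm⟩))
    by_cases h4 : b + c = 0
    · exact Or.inr (Or.inr (Or.inr ⟨b, rfl, neg_eq_of_add_eq_zero_right h4⟩))
    · exact Or.inl ⟨h2, h3, h4⟩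
  have h2 := card_le_card h1
  rw [card_univ, Fintype.card_prod, ZMod.card] at h2
  have c1 : L1.card ≤ m := card_image_le.trans (by rw [card_univ, ZMod.card])
  have c2 : L2.card ≤ m := card_image_le.trans (by rw [card_univ, ZMod.card])
  have c3 : L3.card ≤ m := card_image_le.trans (by rw [card_univ, ZMod.card])
  have h3 := card_union_le G (L1 ∪ (L2 ∪ L3))
  have h4 := card_union_le L1 (L2 ∪ L3)
  have h5 := card_union_le L2 L3
  have h6 : G.card ≤ (univ.filter fun γ : Fin 3 → ZMod m => Ch γ).card := by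
    refine Finset.card_le_card_of_injOn (fun q => ![q.1, q.2, -(q.1 + q.2)]) ?_ ?_
    · intro q hq
      rw [mem_coe, mem_filter] at hq ⊢
      refine ⟨mem_univ _, ?_, ?_⟩
      · intro y
        fin_cases y
        · exact hq.2.1
        · exact hq.2.2.1
        · exact neg_ne_zero.2 hq.2.2.2
      · rw [Fin.sum_univ_three]
        simp
    · intro q _ q' _ e
      exact Prod.ext (congrFun e 0) (congrFun e 1)
  nlinarith

open Classical in
theorem card_self_neg_le [NeZero m] :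
    (univ.filter fun γ : Fin 3 → ZMod m => γ = -γ).card ≤ 8 := by
  have h1 : (univ.filter fun γ : Fin 3 → ZMod m => γ = -γ) ⊆
      Fintype.piFinset fun _ : Fin 3 => univ.filter fun y : ZMod m => ((2 : ℤ) : ZMod m) * y = 0 := by
    intro γ hγ
    rw [mem_filter] at hγ
    rw [Fintype.mem_piFinset]
    intro y
    rw [mem_filter]
    refine ⟨mem_univ _, ?_⟩
    have h2 := congrFun hγ.2 y
    rw [Pi.neg_apply] at h2
    push_cast
    linear_combination h2
  refine (card_le_card h1).trans ?_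
  rw [Fintype.card_piFinset, prod_const, card_univ, Fintype.card_fin]
  exact Nat.pow_le_pow_left (card_tors_le (m := m) 2 (by norm_num)) 3

/-! ### the induction step -/

open Classical in
theorem step (n D : ℕ) : ∃ C : ℕ, ∀ m r : ℕ, C ≤ m → 0 < m →
    ∀ P Q : Finset ((Fin 3 → ZMod m) × Fin r) → Prop, (∀ T, Q T → T.card = n + 2) →
    (∀ S, P S → ∃ B : Finset (Fin 3 → ZMod m), B.card ≤ D ∧ ∀ γ, Ch γ → γ ∉ B → ∀ ρ ρ' : Fin r,
      (γ, ρ) ∉ S ∧ (-γ, ρ') ∉ S ∧ (γ, ρ) ≠ (-γ, ρ') ∧ Q (insert (γ, ρ) (insert (-γ, ρ') S))) →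
    {S | P S}.ncard * (r * m) ^ 2 ≤ 2 * (n + 2) ^ 2 * {T | Q T}.ncard := by
  refine ⟨6 + 2 * D, fun m r hC hm P Q hQ hPQ => ?_⟩
  have : NeZero m := ⟨hm.ne'⟩
  choose! B hB1 hB2 using hPQ
  let good : Finset ((Fin 3 → ZMod m) × Fin r) → Finset (Fin 3 → ZMod m) := fun S =>
    (univ.filter fun γ => Ch γ) \ B S
  let X : Finset (Σ _ : Finset ((Fin 3 → ZMod m) × Fin r), (Fin 3 → ZMod m) × (Fin r × Fin r)) :=
    (univ.filter fun S => P S).sigma fun S => good S ×ˢ univ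
  let Y : Finset (Σ _ : Finset ((Fin 3 → ZMod m) × Fin r),
      ((Fin 3 → ZMod m) × Fin r) × ((Fin 3 → ZMod m) × Fin r)) :=
    (univ.filter fun T => Q T).sigma fun T => T ×ˢ T
  have hgood : ∀ S, P S → m ^ 2 ≤ 2 * (good S).card := by
    intro S hS
    have h1 := card_ch_ge (m := m)
    have h2 : (univ.filter fun γ : Fin 3 → ZMod m => Ch γ).card ≤ (good S).card + (B S).card := by
      have h3 := Finset.le_card_sdiff (B S) (univ.filter fun γ : Fin 3 → ZMod m => Ch γ)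
      simp only [good]
      omega
    have h3 := hB1 S hS
    nlinarith
  have hX : (univ.filter fun S => P S).card * (m ^ 2 * (r * r)) ≤ 2 * X.card := by
    simp only [X]
    rw [card_sigma, mul_sum, ← smul_eq_mul, ← Finset.sum_const]
    refine sum_le_sum fun S hS => ?_
    rw [mem_filter] at hS
    rw [card_product, card_univ, Fintype.card_prod, Fintype.card_fin]
    calc m ^ 2 * (r * r) ≤ 2 * (good S).card * (r * r) := Nat.mul_le_mul_right _ (hgood S hS.2)
      _ = _ := by ring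
  have hY : Y.card = (n + 2) ^ 2 * (univ.filter fun T => Q T).card := by
    simp only [Y]
    rw [card_sigma, sum_congr rfl (g := fun _ => (n + 2) ^ 2), sum_const, smul_eq_mul, mul_comm]
    intro T hT
    rw [mem_filter] at hT
    rw [card_product, hQ T hT.2]
    ring
  have hXY : X.card ≤ Y.card := by
    refine Finset.card_le_card_of_injOn (fun x =>
      ⟨insert (x.2.1, x.2.2.1) (insert (-x.2.1, x.2.2.2) x.1),
        ((x.2.1, x.2.2.1), (-x.2.1, x.2.2.2))⟩) ?_ ?_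
    · rintro ⟨S, γ, ρ, ρ'⟩ hx
      simp only [X, Y, good, mem_coe, mem_sigma, mem_filter, mem_univ, true_and, mem_product,
        Finset.mem_sdiff, and_true] at hx ⊢
      have h1 := hB2 S hx.1 γ hx.2.1 hx.2.2 ρ ρ'
      exact ⟨h1.2.2.2, mem_insert_self _ _, mem_insert_of_mem (mem_insert_self _ _)⟩
    · rintro ⟨S, γ, ρ, ρ'⟩ hx ⟨S', γ', ρ1, ρ1'⟩ hx' e
      simp only [X, good, mem_coe, mem_sigma, mem_filter, mem_univ, true_and, mem_product,
        Finset.mem_sdiff, and_true] at hx hx'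
      simp only [Sigma.mk.injEq, heq_eq_eq, Prod.mk.injEq] at e
      obtain ⟨e1, ⟨e2, e3⟩, _, e4⟩ := e
      subst e2 e3 e4
      have h1 := hB2 S hx.1 γ hx.2.1 hx.2.2 ρ ρ'
      have h2 := hB2 S' hx'.1 γ hx'.2.1 hx'.2.2 ρ ρ'
      have key : ∀ S : Finset ((Fin 3 → ZMod m) × Fin r), (γ, ρ) ∉ S → (-γ, ρ') ∉ S →
          (γ, ρ) ≠ (-γ, ρ') →
          S = ((insert (γ, ρ) (insert (-γ, ρ') S)).erase (γ, ρ)).erase (-γ, ρ') := by
        intro S k1 k2 k3
        rw [erase_insert, erase_insert k2]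
        rw [mem_insert, not_or]
        exact ⟨k3, k1⟩
      have h3 : S = S' := by
        rw [key S h1.1 h1.2.1 h1.2.2.1, e1, ← key S' h2.1 h2.2.1 h2.2.2.1]
      subst h3
      rfl
  have e1 : {S | P S}.ncard = (univ.filter fun S => P S).card := by
    rw [← Set.ncard_coe_finset]
    congr 1
    ext S
    simp
  have e2 : {T | Q T}.ncard = (univ.filter fun T => Q T).card := by
    rw [← Set.ncard_coe_finset]
    congr 1
    ext S
    simp
  rw [e1, e2]
  calc _ = (univ.filter fun S => P S).card * (m ^ 2 * (r * r)) := by ring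
    _ ≤ 2 * X.card := hX
    _ ≤ 2 * Y.card := Nat.mul_le_mul_left _ hXY
    _ = _ := by rw [hY]; ring

end

end Pool.Agent.Y3.FJ
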