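import Pool.Agent.Y3.FJ.Flow

/-!
# The density theorem for Hodge classes on powers of Jacobians of Fermat curves
-/

set_option autoImplicit false

namespace Pool.Agent.Y3.FJ

open Finset Filter Topology Module Pool.Agent.Y3.GD

set_option linter.unusedSectionVars false

noncomputable section

variable {m r : ℕ}

/-! ### lower bounds -/

/-- the characters to be avoided -/
theorem avoid [NeZero m] {k : ℕ} {S : Finset ((Fin 3 → ZMod m) × Fin r)} (hS : S.card = 2 * k) :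
    ∃ B : Finset (Fin 3 → ZMod m), B.card ≤ 4 * k + 8 ∧ ∀ γ, γ ∉ B → ∀ ρ ρ' : Fin r,
      (γ, ρ) ∉ S ∧ (-γ, ρ') ∉ S ∧ (γ, ρ) ≠ (-γ, ρ') := by
  classical
  refine ⟨S.image Prod.fst ∪ (S.image (fun p => -p.1) ∪ univ.filter fun γ => γ = -γ), ?_, ?_⟩
  · have h1 := card_union_le (S.image Prod.fst)
      (S.image (fun p => -p.1) ∪ univ.filter fun γ => γ = -γ)
    have h2 := card_union_le (S.image (fun p => -p.1)) (univ.filter fun γ => γ = -γ)
    have h3 : (S.image Prod.fst).card ≤ S.card := card_image_le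
    have h4 : (S.image (fun p => -p.1)).card ≤ S.card := card_image_le
    have h5 := card_self_neg_le (m := m)
    omega
  · intro γ hγ ρ ρ'
    rw [mem_union, mem_union, not_or, not_or] at hγ
    obtain ⟨h1, h2, h3⟩ := hγ
    refine ⟨fun h => h1 (mem_image.2 ⟨_, h, rfl⟩), fun h => h2 (mem_image.2 ⟨_, h, neg_neg _⟩), ?_⟩
    intro h
    exact h3 (mem_filter.2 ⟨mem_univ _, congrArg Prod.fst h⟩)

theorem lowA (k : ℕ) : ∃ C : ℕ, ∀ m r : ℕ, C ≤ m → 0 < m → (r * m) ^ (2 * k) ≤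
    C * {S : Finset ((Fin 3 → ZMod m) × Fin r) | HodgeF k S ∧ DivF S}.ncard := by
  classical
  induction k with
  | zero =>
    refine ⟨1, fun m r _ hm => ?_⟩
    have : NeZero m := ⟨hm.ne'⟩
    rw [mul_zero, pow_zero, one_mul, Nat.one_le_iff_ne_zero, ← Nat.pos_iff_ne_zero,
      Set.ncard_pos (Set.toFinite _)]
    refine ⟨∅, ⟨by simp, by simp, by simp⟩, id, by simp⟩
  | succ k ih =>
    obtain ⟨C, hC⟩ := ih
    obtain ⟨C', hC'⟩ := step (2 * k) (4 * k + 8)
    refine ⟨C + C' + C * (2 * (2 * k + 2) ^ 2), fun m r hCm hm => ?_⟩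
    have : NeZero m := ⟨hm.ne'⟩
    have h1 := hC m r (by omega) hm
    have h2 := hC' m r (by omega) hm (fun S => HodgeF k S ∧ DivF S)
      (fun S => HodgeF (k + 1) S ∧ DivF S) (fun T hT => by rw [hT.1.1]; ring) (by
        intro S hS
        obtain ⟨B, hB, hB'⟩ := avoid hS.1.1
        refine ⟨B, hB, fun γ hγ hγB ρ ρ' => ?_⟩
        obtain ⟨e1, e2, e3⟩ := hB' γ hγB ρ ρ'
        refine ⟨e1, e2, e3, ?_, ?_⟩
        · convert hodgeF_insert hS.1 hγ e1 e2 e3
        · convert divF_insert hS.2 hγ e1 e2 e3)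
    calc (r * m) ^ (2 * (k + 1)) = (r * m) ^ (2 * k) * (r * m) ^ 2 := by ring
      _ ≤ (C * {S : Finset ((Fin 3 → ZMod m) × Fin r) | HodgeF k S ∧ DivF S}.ncard) *
          (r * m) ^ 2 := Nat.mul_le_mul_right _ h1
      _ = C * ({S : Finset ((Fin 3 → ZMod m) × Fin r) | HodgeF k S ∧ DivF S}.ncard *
          (r * m) ^ 2) := by ring
      _ ≤ C * (2 * (2 * k + 2) ^ 2 *
          {S : Finset ((Fin 3 → ZMod m) × Fin r) | HodgeF (k + 1) S ∧ DivF S}.ncard) :=
          Nat.mul_le_mul_left _ h2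
      _ = (C * (2 * (2 * k + 2) ^ 2)) *
          {S : Finset ((Fin 3 → ZMod m) × Fin r) | HodgeF (k + 1) S ∧ DivF S}.ncard := by ring
      _ ≤ _ := Nat.mul_le_mul_right _ (by omega)

theorem lowB (k : ℕ) : ∃ C : ℕ, ∀ m r : ℕ, C ≤ m → 0 < m →
    r ^ (2 * (k + 2)) * m ^ (2 * (k + 2) - 1) ≤ C *
      {S : Finset ((Fin 3 → ZMod m) × Fin r) | HodgeF (k + 2) S ∧ LinF S ∧ ¬ DivF S}.ncard := by
  classical
  induction k with
  | zero => exact base4
  | succ k ih =>
    obtain ⟨C, hC⟩ := ih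
    obtain ⟨D, hD⟩ := deg_le
    obtain ⟨C', hC'⟩ := step (2 * (k + 2)) (4 * (k + 2) + 8 + 2 * (k + 2) * D)
    refine ⟨C + C' + C * (2 * (2 * (k + 2) + 2) ^ 2), fun m r hCm hm => ?_⟩
    have : NeZero m := ⟨hm.ne'⟩
    have h1 := hC m r (by omega) hm
    have h2 := hC' m r (by omega) hm (fun S => HodgeF (k + 2) S ∧ LinF S ∧ ¬ DivF S)
      (fun S => HodgeF (k + 1 + 2) S ∧ LinF S ∧ ¬ DivF S) (fun T hT => by rw [hT.1.1]; ring) (by
        intro S hS
        obtain ⟨B, hB, hB'⟩ := avoid hS.1.1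
        refine ⟨B ∪ S.biUnion fun s => univ.filter fun γ => Ch γ ∧ HP s.1 γ, ?_, ?_⟩
        · refine (card_union_le _ _).trans (Nat.add_le_add hB ?_)
          refine card_biUnion_le.trans ?_
          have h3 : ∀ s ∈ S, (univ.filter fun γ => Ch γ ∧ HP s.1 γ).card ≤ D := by
            intro s hs
            refine le_trans (le_of_eq ?_) (hD m hm s.1 (hS.1.2.1 s hs))
            rw [← Set.ncard_coe_finset]
            congr 1
            ext γ
            simp
          refine (Finset.sum_le_card_nsmul _ _ _ h3).trans ?_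
          rw [hS.1.1, smul_eq_mul]
        · intro γ hγ hγB ρ ρ'
          rw [mem_union, not_or] at hγB
          obtain ⟨e1, e2, e3⟩ := hB' γ hγB.1 ρ ρ'
          refine ⟨e1, e2, e3, ?_, ?_, ?_⟩
          · convert hodgeF_insert hS.1 hγ e1 e2 e3
          · convert linF_insert hS.2.1 e1 e2 e3
          · intro hdiv
            apply hS.2.2
            refine divF_of_insert (γ := γ) (ρ := ρ) (ρ' := ρ') e1 e2 ?_ ?_
            · intro s hs hhp
              apply hγB.2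
              rw [mem_biUnion]
              exact ⟨s, hs, mem_filter.2 ⟨mem_univ _, hγ, hhp⟩⟩
            · convert hdiv)
    have h3 : 2 * (k + 1 + 2) - 1 = (2 * (k + 2) - 1) + 2 := by omega
    calc r ^ (2 * (k + 1 + 2)) * m ^ (2 * (k + 1 + 2) - 1) =
        (r ^ (2 * (k + 2)) * m ^ (2 * (k + 2) - 1)) * (r * m) ^ 2 := by
          rw [h3, pow_add m, mul_pow]
          ring
      _ ≤ (C * {S : Finset ((Fin 3 → ZMod m) × Fin r) |
          HodgeF (k + 2) S ∧ LinF S ∧ ¬ DivF S}.ncard) * (r * m) ^ 2 := Nat.mul_le_mul_right _ h1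
      _ = C * ({S : Finset ((Fin 3 → ZMod m) × Fin r) |
          HodgeF (k + 2) S ∧ LinF S ∧ ¬ DivF S}.ncard * (r * m) ^ 2) := by ring
      _ ≤ C * (2 * (2 * (k + 2) + 2) ^ 2 * {S : Finset ((Fin 3 → ZMod m) × Fin r) |
          HodgeF (k + 1 + 2) S ∧ LinF S ∧ ¬ DivF S}.ncard) := Nat.mul_le_mul_left _ h2
      _ = (C * (2 * (2 * (k + 2) + 2) ^ 2)) * {S : Finset ((Fin 3 → ZMod m) × Fin r) |
          HodgeF (k + 1 + 2) S ∧ LinF S ∧ ¬ DivF S}.ncard := by ring
      _ ≤ _ := Nat.mul_le_mul_right _ (by omega)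

/-! ### Hodge types -/

/-- the number of triples whose conjugate has degree one -/
def cnt (t : (ZMod m)ˣ) (S : Finset ((Fin 3 → ZMod m) × Fin r)) : ℕ :=
  (S.filter fun p => ∑ y, ((t : ZMod m) * p.1 y).val = m).card

theorem deg_one_or_two [NeZero m] {α : Fin 3 → ZMod m} (h : Ch α) (t : (ZMod m)ˣ) :
    ∑ y, ((t : ZMod m) * α y).val = m ∨ ∑ y, ((t : ZMod m) * α y).val = 2 * m := by
  have h1 : ((∑ y, ((t : ZMod m) * α y).val : ℕ) : ZMod m) = 0 := by
    push_cast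
    simp only [ZMod.natCast_zmod_val]
    rw [← Finset.mul_sum, h.2, mul_zero]
  rw [ZMod.natCast_eq_zero_iff] at h1
  obtain ⟨c, hc⟩ := h1
  have hm : 0 < m := Nat.pos_of_ne_zero (NeZero.ne m)
  have h2 : ∑ y, ((t : ZMod m) * α y).val < 3 * m := by
    rw [Fin.sum_univ_three]
    have e0 := ZMod.val_lt ((t : ZMod m) * α 0)
    have e1 := ZMod.val_lt ((t : ZMod m) * α 1)
    have e2 := ZMod.val_lt ((t : ZMod m) * α 2)
    omega
  have h3 : 0 < ∑ y, ((t : ZMod m) * α y).val := by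
    rw [Fin.sum_univ_three]
    have e0 : ((t : ZMod m) * α 0).val ≠ 0 := fun e =>
      unit_mul_ne' t (h.1 0) ((ZMod.val_eq_zero _).1 e)
    omega
  rw [hc] at h2 h3 ⊢
  have h4 : c < 3 := by
    by_contra hcon
    push Not at hcon
    have := Nat.mul_le_mul_left m hcon
    omega
  have h5 : 0 < c := by
    by_contra hcon
    push Not at hcon
    interval_cases c
    simp at h3
  interval_cases c
  · left
    ring
  · right
    ring

theorem sum_eq_cnt [NeZero m] {S : Finset ((Fin 3 → ZMod m) × Fin r)} (h : ∀ p ∈ S, Ch p.1)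
    (t : (ZMod m)ˣ) : ∑ p ∈ S, ∑ y, ((t : ZMod m) * p.1 y).val + m * cnt t S = 2 * m * S.card := by
  have h1 : ∀ p ∈ S, ∑ y, ((t : ZMod m) * p.1 y).val +
      m * (if ∑ y, ((t : ZMod m) * p.1 y).val = m then 1 else 0) = 2 * m := by
    intro p hp
    have hm : 0 < m := Nat.pos_of_ne_zero (NeZero.ne m)
    rcases deg_one_or_two (h p hp) t with h2 | h2
    · rw [if_pos h2, h2]
      ring
    · rw [if_neg (by omega), h2]
      ring
  have h2 : ∑ p ∈ S, (∑ y, ((t : ZMod m) * p.1 y).val +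
      m * (if ∑ y, ((t : ZMod m) * p.1 y).val = m then 1 else 0)) = 2 * m * S.card := by
    rw [Finset.sum_congr rfl h1, Finset.sum_const, smul_eq_mul, mul_comm]
  rw [Finset.sum_add_distrib, ← Finset.mul_sum, Finset.sum_boole] at h2
  exact h2

theorem hodge_iff [NeZero m] (k : ℕ) (S : Finset ((Fin 3 → ZMod m) × Fin r)) :
    (S.card = 2 * k ∧ (∀ p ∈ S, Ch p.1) ∧ ∀ t : (ZMod m)ˣ, cnt t S = k) ↔ HodgeF k S := by
  have hm : 0 < m := Nat.pos_of_ne_zero (NeZero.ne m)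
  constructor
  · rintro ⟨h1, h2, h3⟩
    refine ⟨h1, h2, fun t => ?_⟩
    have h4 := sum_eq_cnt h2 t
    rw [h3 t, h1] at h4
    have h5 : 2 * m * (2 * k) = 3 * (m * k) + m * k := by ring
    have h6 : 2 * k * 3 * m = 2 * (3 * (m * k)) := by ring
    rw [h6]
    omega
  · rintro ⟨h1, h2, h3⟩
    refine ⟨h1, h2, fun t => ?_⟩
    have h4 := sum_eq_cnt h2 t
    have h7 := h3 t
    rw [h1] at h4
    have h5 : 2 * m * (2 * k) = 4 * (m * k) := by ring
    have h6 : 2 * k * 3 * m = 6 * (m * k) := by ring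
    have h8 : m * cnt t S = m * k := by omega
    exact Nat.eq_of_mul_eq_mul_left hm h8

end

end Pool.Agent.Y3.FJ
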