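import Pool.Agent.Y3.FJ.Str

/-!
# Balanced families of triples satisfying few relations
-/

set_option autoImplicit false

namespace Pool.Agent.Y3.FJ

open Finset Filter Topology Module Pool.Agent.Y3.GD

set_option linter.unusedSectionVars false

noncomputable section

variable {n : ℕ}

/-- the tuple of all entries -/
def fl {m : ℕ} (a : Fin n → Fin 3 → ZMod m) : Fin (n * 3) → ZMod m :=
  fun i => a (finProdFinEquiv.symm i).1 (finProdFinEquiv.symm i).2

theorem fl_apply {m : ℕ} (a : Fin n → Fin 3 → ZMod m) (j : Fin n) (y : Fin 3) :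
    fl a (finProdFinEquiv (j, y)) = a j y := by
  unfold fl
  rw [Equiv.symm_apply_apply]

theorem sum_fl {m : ℕ} {A : Type} [AddCommMonoid A] (a : Fin n → Fin 3 → ZMod m)
    (f : ZMod m → A) : ∑ i, f (fl a i) = ∑ j, ∑ y, f (a j y) := by
  rw [← Equiv.sum_comp finProdFinEquiv, Fintype.sum_prod_type]
  exact Finset.sum_congr rfl fun j _ => Finset.sum_congr rfl fun y _ => by rw [fl_apply]

/-- balanced families of triples -/
def HodgeO {m : ℕ} (a : Fin n → Fin 3 → ZMod m) : Prop :=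
  (∀ j y, a j y ≠ 0) ∧ (∀ j, ∑ y, a j y = 0) ∧
    ∀ t : (ZMod m)ˣ, 2 * ∑ j, ∑ y, ((t : ZMod m) * a j y).val = n * 3 * m

/-- opposite triples -/
def Opp {m : ℕ} (α β : Fin 3 → ZMod m) : Prop :=
  ∃ π : Equiv.Perm (Fin 3), ∀ y, β (π y) = -α y

/-- balanced pairs -/
def HP {m : ℕ} (α β : Fin 3 → ZMod m) : Prop :=
  ∀ t : (ZMod m)ˣ, ∑ y, ((t : ZMod m) * α y).val + ∑ y, ((t : ZMod m) * β y).val = 3 * m

/-- the triples can be matched in opposite pairs -/
def SLef {m : ℕ} (a : Fin n → Fin 3 → ZMod m) : Prop :=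
  ∃ σ : Fin n → Fin n, ∀ j, σ j ≠ j ∧ σ (σ j) = j ∧ Opp (a j) (a (σ j))

/-- the triples can be matched in balanced pairs -/
def LefO {m : ℕ} (a : Fin n → Fin 3 → ZMod m) : Prop :=
  ∃ σ : Fin n → Fin n, ∀ j, σ j ≠ j ∧ σ (σ j) = j ∧ HP (a j) (a (σ j))

/-- the entries can be matched in pairs `c, -c` -/
def PairO {m : ℕ} (a : Fin n → Fin 3 → ZMod m) : Prop :=
  ∃ τ : Fin n × Fin 3 → Fin n × Fin 3, ∀ q, τ q ≠ q ∧ τ (τ q) = q ∧
    a (τ q).1 (τ q).2 = -a q.1 q.2

theorem exists_inv {ι : Type} (Q : ι → ι → Prop) (h1 : ∀ a, ∃ b, Q a b)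
    (h2 : ∀ a b, Q a b → Q b a) (h3 : ∀ a b c, Q a b → Q a c → b = c) :
    ∃ σ : ι → ι, ∀ a, Q a (σ a) ∧ σ (σ a) = a := by
  choose σ hσ using h1
  exact ⟨σ, fun a => ⟨hσ a, h3 _ _ _ (hσ (σ a)) (h2 _ _ (hσ a))⟩⟩

theorem hp_of_opp {m : ℕ} [NeZero m] {α β : Fin 3 → ZMod m} (h0 : ∀ y, α y ≠ 0)
    (h : Opp α β) : HP α β := by
  obtain ⟨π, hπ⟩ := h
  intro t
  rw [← Equiv.sum_comp π (fun y => ((t : ZMod m) * β y).val), ← Finset.sum_add_distrib]
  have h1 : ∀ y, ((t : ZMod m) * α y).val + ((t : ZMod m) * β (π y)).val = m := by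
    intro y
    rw [hπ y, mul_neg, ZMod.neg_val, if_neg (unit_mul_ne' t (h0 y))]
    have := ZMod.val_lt ((t : ZMod m) * α y)
    omega
  rw [Finset.sum_congr rfl fun y _ => h1 y]
  simp

theorem hp_symm {m : ℕ} {α β : Fin 3 → ZMod m} (h : HP α β) : HP β α := by
  intro t
  rw [add_comm]
  exact h t

theorem lef_of_slef {m : ℕ} [NeZero m] {a : Fin n → Fin 3 → ZMod m} (h0 : ∀ j y, a j y ≠ 0)
    (h : SLef a) : LefO a := by
  obtain ⟨σ, hσ⟩ := h
  exact ⟨σ, fun j => ⟨(hσ j).1, (hσ j).2.1, hp_of_opp (h0 j) (hσ j).2.2⟩⟩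

theorem dm_add_single {N m : ℕ} (a : Fin N → ZMod m) (i i' : Fin N) :
    dm (Pi.single i 1 + Pi.single i' 1) a = a i + a i' := by
  have h1 : ∀ i : Fin N, dm (Pi.single i 1) a = a i := by
    intro i
    unfold dm
    rw [Finset.sum_eq_single i]
    · simp
    · intro j _ hj
      rw [Pi.single_eq_of_ne hj]
      simp
    · intro h
      exact absurd (mem_univ _) h
  rw [dm_add, h1, h1]

theorem dm_tri {m : ℕ} (a : Fin n → Fin 3 → ZMod m) (j : Fin n) :
    dm (∑ y, Pi.single (finProdFinEquiv (j, y)) 1) (fl a) = ∑ y, a j y := by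
  have h1 : ∀ i : Fin (n * 3), dm (Pi.single i 1) (fl a) = fl a i := by
    intro i
    unfold dm
    rw [Finset.sum_eq_single i]
    · simp
    · intro j _ hj
      rw [Pi.single_eq_of_ne hj]
      simp
    · intro h
      exact absurd (mem_univ _) h
  rw [Fin.sum_univ_three, Fin.sum_univ_three, dm_add, dm_add, h1, h1, h1, fl_apply, fl_apply,
    fl_apply]

/-- the limit of a sequence of balanced families satisfying few relations -/
theorem limit_data {r : ℕ} (m : ℕ → ℕ) (hm : ∀ R, 0 < m R)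
    (a : ∀ R, Fin n → Fin 3 → ZMod (m R)) (hH : ∀ R, HodgeO (a R))
    (hR : ∀ R, ¬ Rel R r (fl (a R))) :
    ∃ (Λ : AddSubgroup (Fin (n * 3) → ℤ)) (x : Fin (n * 3) → ℝ), TorH Λ x ∧
      (∀ j : Fin n, (∑ y : Fin 3, Pi.single (finProdFinEquiv (j, y)) 1 : Fin (n * 3) → ℤ) ∈ Λ) ∧
      (∀ j : Fin n, ∃ z : ℤ, ∑ y : Fin 3, x (finProdFinEquiv (j, y)) = z) ∧
      n * 3 < finrank ℚ (Mq Λ) + r ∧
      ∃ R, ∀ i i', Ex Λ x i i' → fl (a R) i + fl (a R) i' = 0 := by
  let U : Ultrafilter ℕ := hyperfilter ℕ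
  have hU : (U : Filter ℕ) ≤ atTop := Nat.hyperfilter_le_atTop
  obtain ⟨x, hx⟩ := exists_limit (U := U) (a := fun R => fl (a R)) hm
  have hT : TorH (Lam m (fun R => fl (a R)) U) x := by
    refine torH_of_limit hm hx (fun R i => (hH R).1 _ _) ?_
    intro R t
    rw [sum_fl (a R) (fun v => ((t : ZMod (m R)) * v).val), (hH R).2.2 t]
  have htri : ∀ j : Fin n, (∑ y : Fin 3, Pi.single (finProdFinEquiv (j, y)) 1 :
      Fin (n * 3) → ℤ) ∈ Lam m (fun R => fl (a R)) U ∧
      ∃ z : ℤ, dr (∑ y : Fin 3, Pi.single (finProdFinEquiv (j, y)) 1) x = z := by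
    intro j
    refine mem_Lam_of_forall hm hx fun R => ?_
    rw [dm_tri, (hH R).2.1 j]
  refine ⟨_, x, hT, fun j => (htri j).1, ?_, finrank_Mq_ge (rank_of_limit hU hR), ?_⟩
  · intro j
    obtain ⟨z, hz⟩ := (htri j).2
    refine ⟨z, ?_⟩
    rw [← hz, Fin.sum_univ_three, Fin.sum_univ_three, dr_add, dr_add, dr_single, dr_single,
      dr_single]
  · have h1 : ∀ᶠ R in (U : Filter ℕ), ∀ i i', Ex (Lam m (fun R => fl (a R)) U) x i i' →
        fl (a R) i + fl (a R) i' = 0 := by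
      rw [Filter.eventually_all]
      intro i
      rw [Filter.eventually_all]
      intro i'
      by_cases hE : Ex (Lam m (fun R => fl (a R)) U) x i i'
      · have h2 : ∃ z : ℤ, dr (Pi.single i 1 + Pi.single i' 1) x = z := by
          obtain ⟨z, hz⟩ := hE.2
          refine ⟨z, ?_⟩
          rw [dr_add, dr_single, dr_single, hz]
        filter_upwards [dm_eq_zero_of_limit hm hx hE.1 h2] with R h3 _
        rw [dm_add_single] at h3
        exact h3
      · exact Eventually.of_forall fun R h => absurd h hE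
    exact h1.exists

theorem exists_perm : ∀ x y x' y' : Fin 3, x ≠ y → x' ≠ y' →
    ∃ π : Equiv.Perm (Fin 3), π x = x' ∧ π y = y' := by decide

theorem third' {m : ℕ} {α : Fin 3 → ZMod m} (hα : ∑ y, α y = 0) {x y z : Fin 3} (h1 : x ≠ y)
    (h2 : x ≠ z) (h3 : y ≠ z) : α z = -(α x + α y) := by
  rw [univ_three x y z h1 h2 h3, sum_insert, sum_insert, sum_singleton] at hα
  · rw [eq_neg_iff_add_eq_zero, ← hα]
    ring
  · simpa using h3
  · simp only [mem_insert, mem_singleton, not_or]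
    exact ⟨h1, h2⟩

theorem opp_of_two {m : ℕ} {α β : Fin 3 → ZMod m} (hα : ∑ y, α y = 0) (hβ : ∑ y, β y = 0)
    {x y x' y' : Fin 3} (hxy : x ≠ y) (hxy' : x' ≠ y') (h1 : α x + β x' = 0)
    (h2 : α y + β y' = 0) : Opp α β := by
  obtain ⟨π, hx, hy⟩ := exists_perm x y x' y' hxy hxy'
  refine ⟨π, ?_⟩
  obtain ⟨z, h3, h4, h5⟩ := exists_third x y hxy
  have e1 : β x' = -α x := (neg_eq_of_add_eq_zero_right h1).symm
  have e2 : β y' = -α y := (neg_eq_of_add_eq_zero_right h2).symm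
  intro u
  rcases h5 u with rfl | rfl | rfl
  · rw [hx, e1]
  · rw [hy, e2]
  · have h6 : x' ≠ π u := by
      rw [← hx]
      exact fun h => h3 (π.injective h)
    have h7 : y' ≠ π u := by
      rw [← hy]
      exact fun h => h4 (π.injective h)
    rw [third' hβ hxy' h6 h7, third' hα hxy h3 h4, e1, e2]
    ring

variable {Λ : AddSubgroup (Fin (n * 3) → ℤ)} {x : Fin (n * 3) → ℝ} {m : ℕ}
  {a : Fin n → Fin 3 → ZMod m}

theorem opp_of_lines (h : TorH Λ x)
    (htri : ∀ j : Fin n, (∑ y : Fin 3, Pi.single (finProdFinEquiv (j, y)) 1 :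
      Fin (n * 3) → ℤ) ∈ Λ)
    (hc : Cfg (kp Λ (finProdFinEquiv (m := n) (n := 3))) ⊥ (dg1 Λ finProdFinEquiv)
      (dg0 Λ finProdFinEquiv) (dl ℚ (dd Λ finProdFinEquiv)))
    (hex : ∀ i i', Ex Λ x i i' → fl a i + fl a i' = 0) (hsum : ∀ j, ∑ y, a j y = 0) {j j' : Fin n}
    (hne : j' ≠ j) (hj : ¬ dg1 Λ finProdFinEquiv j) (hj' : ¬ dg1 Λ finProdFinEquiv j')
    {c1 c2 : Submodule ℚ (Mq Λ)} (hc12 : c1 ≠ c2)
    (h1 : Inn (kp Λ finProdFinEquiv) c1 j) (h2 : Inn (kp Λ finProdFinEquiv) c2 j)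
    (m1 : ∀ i, Inn (kp Λ finProdFinEquiv) c1 i → i = j ∨ i = j')
    (m2 : ∀ i, Inn (kp Λ finProdFinEquiv) c2 i → i = j ∨ i = j') : Opp (a j) (a j') := by
  have key : ∀ c, Inn (kp Λ finProdFinEquiv) c j →
      (∀ i, Inn (kp Λ finProdFinEquiv) c i → i = j ∨ i = j') →
      ∃ y y', kp Λ finProdFinEquiv j y = c ∧ kp Λ finProdFinEquiv j' y' = c ∧
        a j y + a j' y' = 0 := by
    intro c hcj hall
    obtain ⟨i, hi, hi'⟩ := other hc hj hcj
    rcases hall i hi' with h3 | h3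
    · exact absurd h3 hi
    · subst h3
      obtain ⟨y, hy⟩ := hcj
      obtain ⟨y', hy'⟩ := hi'
      refine ⟨y, y', hy, hy', ?_⟩
      have h4 := hex _ _ (exact_of_two h finProdFinEquiv htri hj hj' hne.symm (hy'.trans hy.symm)
        (by rw [hy]; exact hall))
      rwa [fl_apply, fl_apply] at h4
  obtain ⟨y1, y1', e1, e2, e3⟩ := key c1 h1 m1
  obtain ⟨y2, y2', f1, f2, f3⟩ := key c2 h2 m2
  refine opp_of_two (hsum j) (hsum j') ?_ ?_ e3 f3
  · rintro rfl
    exact hc12 (e1.symm.trans f1)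
  · rintro rfl
    exact hc12 (e2.symm.trans f2)

/-- **Balanced families with the maximal number of parameters.** -/
theorem ordA (n : ℕ) : ∃ R : ℕ, ∀ m : ℕ, 0 < m → ∀ a : Fin n → Fin 3 → ZMod m, HodgeO a →
    ¬ Rel R (2 * n + 1) (fl a) → SLef a := by
  by_contra hcon
  push Not at hcon
  choose m hm a hH hR hS using hcon
  obtain ⟨Λ, x, hT, htri, hx, hfin, R, hex⟩ := limit_data m hm a hH hR
  have hc := cfg_of_torH hT finProdFinEquiv htri hx (by omega)
  have hgood : ∀ j, Good (kp Λ finProdFinEquiv) (dg1 Λ finProdFinEquiv) j := by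
    intro j
    by_contra hbad
    obtain ⟨g, hg⟩ := bad_order hc hbad
    have h1 : dl ℚ (dd Λ finProdFinEquiv) g j ≤ ∑ j, dl ℚ (dd Λ finProdFinEquiv) g j :=
      Finset.single_le_sum (fun i _ => hc.nonneg g i) (mem_univ j)
    rw [sum_dl (iSup_Wd finProdFinEquiv) g] at h1
    omega
  obtain ⟨σ, hσ⟩ := exists_inv (Prt (kp Λ finProdFinEquiv) (dg1 Λ finProdFinEquiv))
    (fun j => good_iff.1 (hgood j)) (fun _ _ h => prt_symm hc h) (fun _ _ _ h h' => prt_uniq hc h h')
  apply hS R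
  refine ⟨σ, fun j => ⟨(hσ j).1.2.1, (hσ j).2, ?_⟩⟩
  have hp := (hσ j).1
  have hp' := prt_symm hc hp
  exact opp_of_lines hT htri hc hex (hH R).2.1 hp.2.1 hp.1 hp'.1
    (c1 := kp Λ finProdFinEquiv j 0) (c2 := kp Λ finProdFinEquiv j 1)
    (fun e => absurd (hc.inj j hp.1 e) (by decide)) ⟨0, rfl⟩ ⟨1, rfl⟩
    (fun i hi => hp.2.2 _ i ⟨0, rfl⟩ hi) (fun i hi => hp.2.2 _ i ⟨1, rfl⟩ hi)

/-- **Balanced families with one parameter less.** -/
theorem ordB (n : ℕ) (hn : Even n) : ∃ R : ℕ, ∀ m : ℕ, 0 < m → ∀ a : Fin n → Fin 3 → ZMod m,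
    HodgeO a → ¬ Rel R (2 * n + 2) (fl a) → LefO a ∨ PairO a := by
  classical
  by_contra hcon
  push Not at hcon
  choose m hm a hH hR hS using hcon
  obtain ⟨Λ, x, hT, htri, hx, hfin, R, hex⟩ := limit_data m hm a hH hR
  have : NeZero (m R) := ⟨(hm R).ne'⟩
  have hc := cfg_of_torH hT finProdFinEquiv htri hx (by omega)
  have h0 := (hH R).1
  have hsum := (hH R).2.1
  rcases classify hc hn with ⟨b, b', hbb, hb, hb', hall⟩ | ⟨hnd, hall⟩ | ⟨hnd, hall⟩
  · -- two exceptional triples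
    apply (hS R).1
    let Q : Fin n → Fin n → Prop := fun j j' =>
      Prt (kp Λ finProdFinEquiv) (dg1 Λ finProdFinEquiv) j j' ∨ (j = b ∧ j' = b') ∨
        (j = b' ∧ j' = b)
    obtain ⟨σ, hσ⟩ := exists_inv Q
      (by
        intro j
        by_cases h1 : j = b
        · exact ⟨b', Or.inr (Or.inl ⟨h1, rfl⟩)⟩
        · by_cases h2 : j = b'
          · exact ⟨b, Or.inr (Or.inr ⟨h2, rfl⟩)⟩
          · obtain ⟨j', hj'⟩ := good_iff.1 (hall j h1 h2)
            exact ⟨j', Or.inl hj'⟩)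
      (by
        rintro j j' (h1 | h1 | h1)
        · exact Or.inl (prt_symm hc h1)
        · exact Or.inr (Or.inr ⟨h1.2, h1.1⟩)
        · exact Or.inr (Or.inl ⟨h1.2, h1.1⟩))
      (by
        rintro j j' j'' (h1 | h1 | h1) (h2 | h2 | h2)
        · exact prt_uniq hc h1 h2
        · exact absurd (good_iff.2 ⟨_, h2.1 ▸ h1⟩) hb
        · exact absurd (good_iff.2 ⟨_, h2.1 ▸ h1⟩) hb'
        · exact absurd (good_iff.2 ⟨_, h1.1 ▸ h2⟩) hb
        · rw [h1.2, h2.2]
        · exact absurd (h1.1.symm.trans h2.1) hbb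
        · exact absurd (good_iff.2 ⟨_, h1.1 ▸ h2⟩) hb'
        · exact absurd (h2.1.symm.trans h1.1) hbb
        · rw [h1.2, h2.2])
    have hopp : ∀ j, j ≠ b → j ≠ b' → HP (a R j) (a R (σ j)) ∧ σ j ≠ j := by
      intro j h1 h2
      rcases (hσ j).1 with hp | hp | hp
      · have hp' := prt_symm hc hp
        refine ⟨hp_of_opp (h0 j) ?_, hp.2.1⟩
        exact opp_of_lines hT htri hc hex hsum hp.2.1 hp.1 hp'.1
          (c1 := kp Λ finProdFinEquiv j 0) (c2 := kp Λ finProdFinEquiv j 1)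
          (fun e => absurd (hc.inj j hp.1 e) (by decide)) ⟨0, rfl⟩ ⟨1, rfl⟩
          (fun i hi => hp.2.2 _ i ⟨0, rfl⟩ hi) (fun i hi => hp.2.2 _ i ⟨1, rfl⟩ hi)
      · exact absurd hp.1 h1
      · exact absurd hp.1 h2
    have hσb : σ b = b' := by
      rcases (hσ b).1 with hp | hp | hp
      · exact absurd (good_iff.2 ⟨_, hp⟩) hb
      · exact hp.2
      · exact absurd hp.1 hbb
    have hσb' : σ b' = b := by
      rw [← hσb]
      exact (hσ b).2
    -- the pair of exceptional triples is balanced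
    have hHP : HP (a R b) (a R b') := by
      intro t
      have h1 := (hH R).2.2 t
      let F : Fin n → ℕ := fun j => ∑ y, ((t : ZMod (m R)) * a R j y).val
      have h2 : ∑ j, F (σ j) = ∑ j, F j :=
        Equiv.sum_comp (Function.Involutive.toPerm σ fun j => (hσ j).2) F
      have h3 : ∑ j, (F j + F (σ j)) = n * 3 * m R := by
        rw [Finset.sum_add_distrib, h2, ← h1]
        ring
      have h4 : ∀ j, j ≠ b → j ≠ b' → F j + F (σ j) = 3 * m R := fun j e1 e2 =>
        (hopp j e1 e2).1 t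
      have h5 : ∑ j, (F j + F (σ j)) = (F b + F (σ b)) + ((F b' + F (σ b')) +
          ∑ j ∈ (univ.erase b).erase b', (F j + F (σ j))) := by
        rw [Finset.add_sum_erase (univ.erase b) (fun j => F j + F (σ j))
          (mem_erase.2 ⟨hbb.symm, mem_univ _⟩),
          Finset.add_sum_erase univ (fun j => F j + F (σ j)) (mem_univ _)]
      have h6 : ∑ j ∈ (univ.erase b).erase b', (F j + F (σ j)) =
          ((univ.erase b).erase b').card * (3 * m R) := by
        rw [Finset.sum_congr rfl (g := fun _ => 3 * m R), Finset.sum_const, smul_eq_mul]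
        intro j hj
        rw [mem_erase, mem_erase] at hj
        exact h4 j hj.2.1 hj.1
      have h7 : ((univ.erase b).erase b').card + 2 = n := by
        have e1 := card_erase_add_one (s := univ.erase b) (a := b')
          (mem_erase.2 ⟨hbb.symm, mem_univ _⟩)
        have e2 := card_erase_add_one (s := (univ : Finset (Fin n))) (a := b) (mem_univ _)
        rw [card_univ, Fintype.card_fin] at e2
        omega
      rw [h5, h6, hσb, hσb'] at h3
      change F b + F b' = 3 * m R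
      have h8 : n * 3 * m R = ((univ.erase b).erase b').card * (3 * m R) + 6 * m R := by
        conv_lhs => rw [← h7]
        ring
      rw [h8] at h3
      omega
    refine ⟨σ, fun j => ⟨?_, (hσ j).2, ?_⟩⟩
    · by_cases h1 : j = b
      · rw [h1, hσb]
        exact hbb.symm
      · by_cases h2 : j = b'
        · rw [h2, hσb']
          exact hbb
        · exact (hopp j h1 h2).2
    · by_cases h1 : j = b
      · rw [h1, hσb]
        exact hHP
      · by_cases h2 : j = b'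
        · rw [h2, hσb']
          exact hp_symm hHP
        · exact (hopp j h1 h2).1
  · -- all lines are contained in two triples
    apply (hS R).2
    let Q : Fin n × Fin 3 → Fin n × Fin 3 → Prop := fun q q' => q'.1 ≠ q.1 ∧
      kp Λ finProdFinEquiv q'.1 q'.2 = kp Λ finProdFinEquiv q.1 q.2 ∧
        ∀ i, Inn (kp Λ finProdFinEquiv) (kp Λ finProdFinEquiv q.1 q.2) i → i = q.1 ∨ i = q'.1
    obtain ⟨τ, hτ⟩ := exists_inv Q
      (by
        rintro ⟨j, y⟩
        obtain ⟨j', hj', hall'⟩ := hall (kp Λ finProdFinEquiv j y) j ⟨y, rfl⟩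
        obtain ⟨i, hi, y', hy'⟩ := other hc (hnd j) (c := kp Λ finProdFinEquiv j y) ⟨y, rfl⟩
        rcases hall' i ⟨y', hy'⟩ with h1 | h1
        · exact absurd h1 hi
        · subst h1
          exact ⟨(i, y'), hi, hy', hall'⟩)
      (by
        rintro q q' ⟨h1, h2, h3⟩
        refine ⟨h1.symm, h2.symm, fun i hi => ?_⟩
        rw [h2] at hi
        exact (h3 i hi).symm)
      (by
        rintro q q' q'' ⟨h1, h2, h3⟩ ⟨k1, k2, k3⟩
        have h4 : q'.1 = q''.1 := by
          rcases k3 q'.1 ⟨_, h2⟩ with h5 | h5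
          · exact absurd h5 h1
          · exact h5
        refine Prod.ext h4 ?_
        apply hc.inj q'.1 (hnd _)
        rw [h2]
        rw [h4, k2])
    refine ⟨τ, fun q => ⟨?_, (hτ q).2, ?_⟩⟩
    · intro h1
      exact (hτ q).1.1 (congrArg Prod.fst h1)
    · obtain ⟨h1, h2, h3⟩ := (hτ q).1
      have h4 := hex _ _ (exact_of_two hT finProdFinEquiv htri (hnd q.1) (hnd (τ q).1) h1.symm h2 h3)
      rw [fl_apply, fl_apply] at h4
      exact (neg_eq_of_add_eq_zero_right h4).symm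
  · -- opposite pairs
    apply (hS R).1
    apply lef_of_slef h0
    let Q : Fin n → Fin n → Prop := fun j j' => j' ≠ j ∧ ∃ c1 c2, c1 ≠ c2 ∧
      Inn (kp Λ finProdFinEquiv) c1 j ∧ Inn (kp Λ finProdFinEquiv) c2 j ∧
      (∀ i, Inn (kp Λ finProdFinEquiv) c1 i → i = j ∨ i = j') ∧
      ∀ i, Inn (kp Λ finProdFinEquiv) c2 i → i = j ∨ i = j'
    have hoth : ∀ j j' c, Inn (kp Λ finProdFinEquiv) c j →
        (∀ i, Inn (kp Λ finProdFinEquiv) c i → i = j ∨ i = j') →
        Inn (kp Λ finProdFinEquiv) c j' := by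
      intro j j' c h1 h2
      obtain ⟨i, hi, hi'⟩ := other hc (hnd j) h1
      rcases h2 i hi' with h3 | h3
      · exact absurd h3 hi
      · rwa [h3] at hi'
    obtain ⟨σ, hσ⟩ := exists_inv Q (fun j => hall j)
      (by
        rintro j j' ⟨h1, c1, c2, h2, h3, h4, h5, h6⟩
        exact ⟨h1.symm, c1, c2, h2, hoth j j' c1 h3 h5, hoth j j' c2 h4 h6,
          fun i hi => (h5 i hi).symm, fun i hi => (h6 i hi).symm⟩)
      (by
        rintro j j' j'' ⟨h1, c1, c2, h2, h3, h4, h5, h6⟩ ⟨k1, d1, d2, k2, k3, k4, k5, k6⟩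
        have fin : ∀ c, Inn (kp Λ finProdFinEquiv) c j →
            (∀ i, Inn (kp Λ finProdFinEquiv) c i → i = j ∨ i = j') →
            (∀ i, Inn (kp Λ finProdFinEquiv) c i → i = j ∨ i = j'') → j' = j'' := by
          intro c e1 e2 e3
          rcases e3 j' (hoth j j' c e1 e2) with e4 | e4
          · exact absurd e4 h1
          · exact e4
        obtain ⟨f1, f2, g1, g2, g3, g4, g5, g6⟩ := lines hc (hnd j) h3
        by_cases e1 : d1 = c1
        · exact fin c1 h3 h5 (e1 ▸ k5)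
        by_cases e2 : d1 = c2
        · exact fin c2 h4 h6 (e2 ▸ k5)
        by_cases e3 : d2 = c1
        · exact fin c1 h3 h5 (e3 ▸ k6)
        by_cases e4 : d2 = c2
        · exact fin c2 h4 h6 (e4 ▸ k6)
        · exfalso
          rcases g6 c2 h4 with e5 | e5 | e5
          · exact h2 e5.symm
          · rcases g6 d1 k3 with e6 | e6 | e6
            · exact e1 e6
            · exact e2 (e6.trans e5.symm)
            · rcases g6 d2 k4 with e7 | e7 | e7
              · exact e3 e7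
              · exact e4 (e7.trans e5.symm)
              · exact k2 (e6.trans e7.symm)
          · rcases g6 d1 k3 with e6 | e6 | e6
            · exact e1 e6
            · rcases g6 d2 k4 with e7 | e7 | e7
              · exact e3 e7
              · exact k2 (e6.trans e7.symm)
              · exact e4 (e7.trans e5.symm)
            · exact e2 (e6.trans e5.symm))
    refine ⟨σ, fun j => ⟨(hσ j).1.1, (hσ j).2, ?_⟩⟩
    obtain ⟨h1, c1, c2, h2, h3, h4, h5, h6⟩ := (hσ j).1
    exact opp_of_lines hT htri hc hex hsum h1 (hnd j) (hnd _) h2 h3 h4 h5 h6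

end

end Pool.Agent.Y3.FJ
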