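import Pool.Agent.Y3.FJ.Lim
import Pool.Agent.Y3.FJ.Comb

/-!
# The structure of a balanced torus with many dimensions
-/

set_option autoImplicit false

namespace Pool.Agent.Y3.FJ

open Finset Filter Topology Module Pool.Agent.Y3.GD

set_option linter.unusedSectionVars false

noncomputable section

variable {N n : ℕ}

/-- the space of characters of the torus -/
abbrev Mq (Λ : AddSubgroup (Fin N → ℤ)) : Type := (Fin N → ℚ) ⧸ VQ Λ

/-- the class of a coordinate -/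
def di (Λ : AddSubgroup (Fin N → ℤ)) (i : Fin N) : Mq Λ := (VQ Λ).mkQ (Pi.single i 1)

/-- the class of a coordinate -/
def dd (Λ : AddSubgroup (Fin N → ℤ)) (e : Fin n × Fin 3 ≃ Fin N) (j : Fin n) (y : Fin 3) : Mq Λ :=
  di Λ (e (j, y))

variable {Λ : AddSubgroup (Fin N → ℤ)} {x : Fin N → ℝ}

theorem mk_cast {k : Fin N → ℤ} (hk : k ∈ Λ) : ∑ i, (k i : ℚ) • di Λ i = 0 := by
  have h1 : (fun i => (k i : ℚ)) = ∑ i, (k i : ℚ) • (Pi.single i 1 : Fin N → ℚ) := by
    funext l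
    rw [Finset.sum_apply, Finset.sum_eq_single l]
    · simp
    · intro i _ hi
      rw [Pi.smul_apply, Pi.single_eq_of_ne hi.symm, smul_zero]
    · intro h
      exact absurd (mem_univ _) h
  have h2 := cast_mem_VQ hk
  rw [h1] at h2
  unfold di
  rw [← Submodule.Quotient.mk_eq_zero (VQ Λ)] at h2
  rw [← h2]
  change _ = (VQ Λ).mkQ _
  rw [map_sum]
  exact Finset.sum_congr rfl fun i _ => by rw [map_smul]

theorem di_eq_zero (hs : ∀ (d : ℤ) (k : Fin N → ℤ), d ≠ 0 → d • k ∈ Λ → k ∈ Λ) (i : Fin N) :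
    di Λ i = 0 ↔ (Pi.single i 1 : Fin N → ℤ) ∈ Λ := by
  unfold di
  rw [Submodule.mkQ_apply, Submodule.Quotient.mk_eq_zero]
  constructor
  · intro h
    obtain ⟨D, hD, k, hk, h1⟩ := mem_VQ.1 h
    refine hs D _ hD ?_
    have h2 : D • (Pi.single i 1 : Fin N → ℤ) = k := by
      funext l
      have h3 := h1 l
      rw [Pi.smul_apply, smul_eq_mul]
      by_cases hl : l = i
      · subst hl
        rw [Pi.single_eq_same, mul_one] at h3 ⊢
        exact_mod_cast h3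
      · rw [Pi.single_eq_of_ne hl, mul_zero] at h3 ⊢
        exact_mod_cast h3
    rw [h2]
    exact hk
  · intro h
    have h1 := cast_mem_VQ h
    have h2 : (fun l => ((Pi.single i 1 : Fin N → ℤ) l : ℚ)) = Pi.single i 1 := by
      funext l
      by_cases hl : l = i
      · subst hl
        simp
      · rw [Pi.single_eq_of_ne hl, Pi.single_eq_of_ne hl]
        simp
    rwa [h2] at h1

theorem span_eq_of_par (hs : ∀ (d : ℤ) (k : Fin N → ℤ), d ≠ 0 → d • k ∈ Λ → k ∈ Λ) {i i' : Fin N}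
    (hi' : (Pi.single i' 1 : Fin N → ℤ) ∉ Λ) (h : Par Λ i i') :
    (ℚ ∙ (di Λ i')) = (ℚ ∙ (di Λ i)) := by
  obtain ⟨D, c, hD, hmem⟩ := h
  have h1 := mk_cast hmem
  have h2 : ∑ l, (((D • (Pi.single i' 1 : Fin N → ℤ) - c • (Pi.single i 1 : Fin N → ℤ)) l : ℤ) : ℚ) •
      di Λ l = (D : ℚ) • di Λ i' - (c : ℚ) • di Λ i := by
    have h3 : ∀ l, (((D • (Pi.single i' 1 : Fin N → ℤ) - c • (Pi.single i 1 : Fin N → ℤ)) l : ℤ) : ℚ) •
        di Λ l = (if l = i' then (D : ℚ) • di Λ i' else 0) - if l = i then (c : ℚ) • di Λ i else 0 := by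
      intro l
      rw [Pi.sub_apply, Pi.smul_apply, Pi.smul_apply, smul_eq_mul, smul_eq_mul, Pi.single_apply,
        Pi.single_apply]
      push_cast
      rw [sub_smul]
      congr 1
      · split_ifs with h4
        · rw [h4, mul_one]
        · rw [mul_zero, zero_smul]
      · split_ifs with h4
        · rw [h4, mul_one]
        · rw [mul_zero, zero_smul]
    rw [Finset.sum_congr rfl fun l _ => h3 l, Finset.sum_sub_distrib, Finset.sum_ite_eq',
      Finset.sum_ite_eq', if_pos (mem_univ _), if_pos (mem_univ _)]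
  rw [h2, sub_eq_zero] at h1
  have hD' : (D : ℚ) ≠ 0 := by exact_mod_cast hD
  have hc' : (c : ℚ) ≠ 0 := by
    intro h3
    rw [h3, zero_smul] at h1
    have h4 := (smul_eq_zero.1 h1).resolve_left hD'
    exact hi' ((di_eq_zero hs i').1 h4)
  rw [← Submodule.span_singleton_smul_eq (IsUnit.mk0 _ hD') (di Λ i'), h1,
    Submodule.span_singleton_smul_eq (IsUnit.mk0 _ hc') (di Λ i)]

theorem par_of_span_eq {i i' : Fin N} (h : (ℚ ∙ (di Λ i')) = (ℚ ∙ (di Λ i))) : Par Λ i i' := by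
  have h1 : di Λ i' ∈ ℚ ∙ (di Λ i) := by
    rw [← h]
    exact Submodule.mem_span_singleton_self _
  obtain ⟨q, hq⟩ := Submodule.mem_span_singleton.1 h1
  have h2 : (Pi.single i' 1 : Fin N → ℚ) - q • (Pi.single i 1 : Fin N → ℚ) ∈ VQ Λ := by
    rw [← Submodule.Quotient.mk_eq_zero (VQ Λ)]
    change (VQ Λ).mkQ _ = 0
    rw [map_sub, map_smul]
    change di Λ i' - q • di Λ i = 0
    rw [hq, sub_self]
  obtain ⟨D, hD, k, hk, h3⟩ := mem_VQ.1 h2
  refine ⟨D * q.den, D * q.num, mul_ne_zero hD (by exact_mod_cast q.den_ne_zero), ?_⟩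
  have h4 : (D * q.den : ℤ) • (Pi.single i' 1 : Fin N → ℤ) - (D * q.num) •
      (Pi.single i 1 : Fin N → ℤ) = (q.den : ℤ) • k := by
    funext l
    have h5 := h3 l
    rw [Pi.sub_apply, Pi.smul_apply, smul_eq_mul] at h5
    rw [Pi.sub_apply, Pi.smul_apply, Pi.smul_apply, Pi.smul_apply, smul_eq_mul, smul_eq_mul,
      smul_eq_mul]
    have h6 : (q.den : ℚ) * q = q.num := Rat.den_mul_eq_num q
    have e1 : (((Pi.single i' 1 : Fin N → ℤ) l : ℤ) : ℚ) = (Pi.single i' 1 : Fin N → ℚ) l := by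
      rw [Pi.single_apply, Pi.single_apply]
      split_ifs <;> simp
    have e2 : (((Pi.single i 1 : Fin N → ℤ) l : ℤ) : ℚ) = (Pi.single i 1 : Fin N → ℚ) l := by
      rw [Pi.single_apply, Pi.single_apply]
      split_ifs <;> simp
    have h7 : (((D * q.den * (Pi.single i' 1 : Fin N → ℤ) l - D * q.num *
        (Pi.single i 1 : Fin N → ℤ) l : ℤ)) : ℚ) = ((q.den * k l : ℤ) : ℚ) := by
      push_cast
      rw [e1, e2, ← h5, ← h6]
      ring
    exact_mod_cast h7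
  rw [h4]
  exact zsmul_mem hk _

theorem iSup_Wd (e : Fin n × Fin 3 ≃ Fin N) : ⨆ j, Wd ℚ (dd Λ e) j = ⊤ := by
  rw [eq_top_iff]
  intro v _
  obtain ⟨w, rfl⟩ := Submodule.mkQ_surjective (VQ Λ) v
  have h1 : w = ∑ i, w i • (Pi.single i 1 : Fin N → ℚ) := by
    funext l
    rw [Finset.sum_apply, Finset.sum_eq_single l]
    · simp
    · intro i _ hi
      rw [Pi.smul_apply, Pi.single_eq_of_ne hi.symm, smul_zero]
    · intro h
      exact absurd (mem_univ _) h
  rw [h1, map_sum]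
  refine Submodule.sum_mem _ fun i _ => ?_
  rw [map_smul]
  refine Submodule.smul_mem _ _ ?_
  refine Submodule.mem_iSup_of_mem (e.symm i).1 (Submodule.subset_span ⟨(e.symm i).2, ?_⟩)
  unfold dd di
  rw [Prod.mk.eta, Equiv.apply_symm_apply]

theorem dd_sum (e : Fin n × Fin 3 ≃ Fin N)
    (htri : ∀ j, (∑ y, Pi.single (e (j, y)) 1 : Fin N → ℤ) ∈ Λ) (j : Fin n) :
    ∑ y, dd Λ e j y = 0 := by
  have h1 := cast_mem_VQ (htri j)
  have h2 : (fun i => ((∑ y, Pi.single (e (j, y)) 1 : Fin N → ℤ) i : ℚ)) =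
      ∑ y, (Pi.single (e (j, y)) 1 : Fin N → ℚ) := by
    funext l
    rw [Finset.sum_apply, Finset.sum_apply, Int.cast_sum]
    refine Finset.sum_congr rfl fun y _ => ?_
    rw [Pi.single_apply, Pi.single_apply]
    split_ifs <;> simp
  rw [h2] at h1
  rw [← Submodule.Quotient.mk_eq_zero (VQ Λ)] at h1
  rw [← h1]
  change _ = (VQ Λ).mkQ _
  rw [map_sum]
  rfl

theorem finrank_Mq_ge {r : ℕ}
    (hr : ∀ (I : Finset (Fin N)) (k : Fin N → Fin N → ℤ),
      (∀ j ∈ I, k j ∈ Λ ∧ k j j ≠ 0 ∧ ∀ i ∈ I, i ≠ j → k j i = 0) → I.card < r) :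
    N < finrank ℚ (Mq Λ) + r := by
  classical
  obtain ⟨I, lam, hlam, hexp⟩ := exists_diag (VQ Λ)
  have hD : Diag Λ I lam := ⟨fun j hj => (hlam j hj).1, fun j hj => (hlam j hj).2.1,
    fun j hj => (hlam j hj).2.2, hexp⟩
  have h1 : ∀ j, ∃ k : Fin N → ℤ, j ∈ I → k ∈ Λ ∧ k j ≠ 0 ∧ ∀ i ∈ I, i ≠ j → k i = 0 := by
    intro j
    by_cases hj : j ∈ I
    · obtain ⟨D, hD0, k, hk, hk2⟩ := mem_VQ.1 (hD.mem j hj)
      refine ⟨k, fun _ => ⟨hk, ?_, ?_⟩⟩
      · have h2 := hk2 j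
        rw [hD.diag j hj, mul_one] at h2
        have h3 : D = k j := by exact_mod_cast h2
        rw [← h3]
        exact hD0
      · intro i hi hij
        have h2 := hk2 i
        rw [hD.off j hj i hi hij, mul_zero] at h2
        exact_mod_cast h2.symm
    · exact ⟨0, fun h => absurd h hj⟩
  choose k hk using h1
  have hcard := hr I k fun j hj => hk j hj
  -- the rank of the relations
  let f : VQ Λ →ₗ[ℚ] (I → ℚ) :=
    { toFun := fun v i => (v : Fin N → ℚ) i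
      map_add' := fun _ _ => rfl
      map_smul' := fun _ _ => rfl }
  have hf : Function.Injective f := by
    rw [← LinearMap.ker_eq_bot, LinearMap.ker_eq_bot']
    intro v hv
    ext i
    rw [hexp v v.2 i]
    refine Finset.sum_eq_zero fun j hj => ?_
    have h2 := congrFun hv ⟨j, hj⟩
    have h3 : (v : Fin N → ℚ) j = 0 := h2
    rw [h3, zero_mul]
  have h2 := LinearMap.finrank_le_finrank_of_injective hf
  rw [Module.finrank_fintype_fun_eq_card, Fintype.card_coe] at h2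
  have h3 := Submodule.finrank_quotient_add_finrank (VQ Λ)
  rw [Module.finrank_fintype_fun_eq_card, Fintype.card_fin] at h3
  have h4 : finrank ℚ (Mq Λ) = finrank ℚ ((Fin N → ℚ) ⧸ VQ Λ) := rfl
  omega

/-! ### the configuration -/

/-- the line of an entry -/
def kp (Λ : AddSubgroup (Fin N → ℤ)) (e : Fin n × Fin 3 ≃ Fin N) (j : Fin n) (y : Fin 3) :
    Submodule ℚ (Mq Λ) := ℚ ∙ (dd Λ e j y)

/-- degenerate triples -/
def dg1 (Λ : AddSubgroup (Fin N → ℤ)) (e : Fin n × Fin 3 ≃ Fin N) (j : Fin n) : Prop :=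
  finrank ℚ (Wd ℚ (dd Λ e) j) ≤ 1

/-- constant triples -/
def dg0 (Λ : AddSubgroup (Fin N → ℤ)) (e : Fin n × Fin 3 ≃ Fin N) (j : Fin n) : Prop :=
  Wd ℚ (dd Λ e) j = ⊥

theorem shared (h : TorH Λ x) (e : Fin n × Fin 3 ≃ Fin N)
    (htri : ∀ j, (∑ y, Pi.single (e (j, y)) 1 : Fin N → ℤ) ∈ Λ)
    (hx : ∀ j, ∃ z : ℤ, ∑ y, x (e (j, y)) = z) (j : Fin n) (y : Fin 3)
    (hne : dd Λ e j y ≠ 0) : ∃ i, i ≠ j ∧ Sh ℚ (dd Λ e) j y i := by
  have h0 : (Pi.single (e (j, y)) 1 : Fin N → ℤ) ∉ Λ := fun h1 =>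
    hne ((di_eq_zero h.sat _).2 h1)
  obtain ⟨i1, h1, h2, h3⟩ := partner h e htri hx h0
  rw [Equiv.symm_apply_apply] at h3
  refine ⟨(e.symm i1).1, h3, (e.symm i1).2, ?_⟩
  unfold dd
  rw [Prod.mk.eta, Equiv.apply_symm_apply]
  exact span_eq_of_par h.sat h1 h2

theorem cfg_of_torH (h : TorH Λ x) (e : Fin n × Fin 3 ≃ Fin N)
    (htri : ∀ j, (∑ y, Pi.single (e (j, y)) 1 : Fin N → ℤ) ∈ Λ)
    (hx : ∀ j, ∃ z : ℤ, ∑ y, x (e (j, y)) = z) (hr : n ≤ finrank ℚ (Mq Λ) + 1) :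
    Cfg (kp Λ e) ⊥ (dg1 Λ e) (dg0 Λ e) (dl ℚ (dd Λ e)) := by
  have hsum := dd_sum e htri
  have hsh : ∀ j x, dd Λ e j x = 0 ∨ ∃ i, i ≠ j ∧ Sh ℚ (dd Λ e) j x i := by
    intro j y
    by_cases h0 : dd Λ e j y = 0
    · exact Or.inl h0
    · exact Or.inr (shared h e htri hx j y h0)
  refine ⟨?_, ?_, ?_, ?_, ?_, ?_, ?_, ?_, ?_, ?_, ?_⟩
  · intro j hj y y' hyy
    by_contra hne
    exact nondeg hsum (not_le.1 hj) hne hyy
  · intro j hj y h0
    exact nondeg_ne_zero hsum (not_le.1 hj) y (Submodule.span_singleton_eq_bot.1 h0)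
  · intro j y hy
    have h0 : dd Λ e j y ≠ 0 := fun h1 => hy (by unfold kp; rw [h1]; exact Submodule.span_zero_singleton ℚ)
    exact shared h e htri hx j y h0
  · intro j hj y y' hy hy'
    exact deg_par hj (fun h1 => hy (by unfold kp; rw [h1]; exact Submodule.span_zero_singleton ℚ))
      (fun h1 => hy' (by unfold kp; rw [h1]; exact Submodule.span_zero_singleton ℚ))
  · intro j hj
    by_contra hcon
    push Not at hcon
    apply hj
    unfold dg0 Wd
    rw [Submodule.span_eq_bot]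
    rintro _ ⟨y, rfl⟩
    exact Submodule.span_singleton_eq_bot.1 (hcon y)
  · exact fun g j => dl_nonneg hsum hsh g j
  · intro g
    rw [sum_dl (iSup_Wd e) g]
    omega
  · intro g j i i' y y' h1 h2 h3 h4
    exact dl_bet hsum hsh h1 h2 h3 h4
  · intro g j i i' l l' y y' w w' h0 h1 h2 h1' h2' h3 h4 h5 h4' h5'
    exact dl_bet2 hsum h0 h1 h2 h1' h2' h3 h4 h5 h4' h5'
  · exact fun g j hj => dl_deg hsum hsh g hj
  · exact fun g j hj => dl_zero g hj

/-- the sum of the two coordinates is integral on the torus -/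
def Ex (Λ : AddSubgroup (Fin N → ℤ)) (x : Fin N → ℝ) (i i' : Fin N) : Prop :=
  (Pi.single i 1 + Pi.single i' 1 : Fin N → ℤ) ∈ Λ ∧ ∃ z : ℤ, x i + x i' = z

theorem exact_of_two (h : TorH Λ x) (e : Fin n × Fin 3 ≃ Fin N)
    (htri : ∀ j, (∑ y, Pi.single (e (j, y)) 1 : Fin N → ℤ) ∈ Λ) {j j' : Fin n} {y y' : Fin 3}
    (hj : ¬ dg1 Λ e j) (hj' : ¬ dg1 Λ e j') (hne : j ≠ j') (hyy : kp Λ e j' y' = kp Λ e j y)
    (hall : ∀ i, Inn (kp Λ e) (kp Λ e j y) i → i = j ∨ i = j') :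
    Ex Λ x (e (j, y)) (e (j', y')) := by
  have hsum := dd_sum e htri
  have hinj : ∀ j, ¬ dg1 Λ e j → Function.Injective (kp Λ e j) := by
    intro j hj y y' hyy
    by_contra hne
    exact nondeg hsum (not_le.1 hj) hne hyy
  have h0 : (Pi.single (e (j, y)) 1 : Fin N → ℤ) ∉ Λ := fun h1 =>
    nondeg_ne_zero hsum (not_le.1 hj) y ((di_eq_zero h.sat _).2 h1)
  have h1 : (Pi.single (e (j', y')) 1 : Fin N → ℤ) ∉ Λ := fun h1 =>
    nondeg_ne_zero hsum (not_le.1 hj') y' ((di_eq_zero h.sat _).2 h1)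
  have key : ∀ i, (Pi.single i 1 : Fin N → ℤ) ∉ Λ → (ℚ ∙ (di Λ i)) = kp Λ e j y →
      i = e (j, y) ∨ i = e (j', y') := by
    intro i hi hspan
    have h2 : kp Λ e (e.symm i).1 (e.symm i).2 = kp Λ e j y := by
      unfold kp dd
      rw [Prod.mk.eta, Equiv.apply_symm_apply]
      exact hspan
    rcases hall (e.symm i).1 ⟨_, h2⟩ with h3 | h3
    · left
      rw [h3] at h2
      have h4 := hinj j hj h2
      rw [← h4, ← h3, Prod.mk.eta, Equiv.apply_symm_apply]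
    · right
      rw [h3, ← hyy] at h2
      have h4 := hinj j' hj' h2
      rw [← h4, ← h3, Prod.mk.eta, Equiv.apply_symm_apply]
  refine exact_pair h ?_ h0 h1 (par_of_span_eq hyy) ?_ ?_
  · intro h2
    exact hne (congrArg Prod.fst (e.injective h2))
  · intro i hi hp
    exact key i hi (span_eq_of_par h.sat hi hp)
  · intro i hi hp
    exact key i hi ((span_eq_of_par h.sat hi hp).trans hyy)

end

end Pool.Agent.Y3.FJ
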