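import Pool.Agent.Y3.GD.Cnt

/-!
# Sums of coordinates which are constant on a subtorus
-/

set_option autoImplicit false

namespace Pool.Agent.Y3.FJ

open Finset Filter Topology Pool.Agent.Y3.GD

set_option linter.unusedSectionVars false

noncomputable section

variable {N : ℕ}

/-- The relations `Λ` between the coordinates of `x`, such that on the subtorus of these relations
the sum of the fractional parts is `N / 2`. -/
structure TorH (Λ : AddSubgroup (Fin N → ℤ)) (x : Fin N → ℝ) : Prop where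
  sat : ∀ (d : ℤ) (k : Fin N → ℤ), d ≠ 0 → d • k ∈ Λ → k ∈ Λ
  single : ∀ i, Pi.single i 1 ∈ Λ → ¬ ∃ n : ℤ, x i = n
  sum : ∀ z : Fin N → ℝ, (∀ i, 0 < z i ∧ z i < 1) →
    (∀ k ∈ Λ, ∃ n : ℤ, dr k z - dr k x = n) → 2 * ∑ i, z i = N

theorem dr_single (i : Fin N) (y : Fin N → ℝ) : dr (Pi.single i 1) y = y i := by
  unfold dr
  rw [Finset.sum_eq_single i]
  · simp
  · intro j _ hj
    rw [Pi.single_eq_of_ne hj]
    simp
  · intro h
    exact absurd (mem_univ _) h

theorem dr_add (k l : Fin N → ℤ) (y : Fin N → ℝ) : dr (k + l) y = dr k y + dr l y := by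
  unfold dr
  rw [← Finset.sum_add_distrib]
  refine Finset.sum_congr rfl fun i _ => ?_
  rw [Pi.add_apply]
  push_cast
  ring

theorem dr_smul (d : ℤ) (k : Fin N → ℤ) (y : Fin N → ℝ) : dr (d • k) y = d * dr k y := by
  unfold dr
  rw [Finset.mul_sum]
  refine Finset.sum_congr rfl fun i _ => ?_
  rw [Pi.smul_apply, smul_eq_mul]
  push_cast
  ring

theorem dr_sub (k l : Fin N → ℤ) (y : Fin N → ℝ) : dr (k - l) y = dr k y - dr l y := by
  unfold dr
  rw [← Finset.sum_sub_distrib]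
  refine Finset.sum_congr rfl fun i _ => ?_
  rw [Pi.sub_apply]
  push_cast
  ring

theorem dr_add_smul (k : Fin N → ℤ) (y w : Fin N → ℝ) (s : ℝ) :
    dr k (fun i => y i + s * w i) = dr k y + s * dr k w := by
  unfold dr
  rw [Finset.mul_sum, ← Finset.sum_add_distrib]
  exact Finset.sum_congr rfl fun i _ => by ring

/-- generic vectors orthogonal to the relations -/
theorem exists_perp (Λ : AddSubgroup (Fin N → ℤ)) : ∃ w : Fin N → ℝ, (∀ k ∈ Λ, dr k w = 0) ∧
    ∀ j, (∀ D : ℤ, D ≠ 0 → D • (Pi.single j 1 : Fin N → ℤ) ∉ Λ) → w j ≠ 0 := by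
  classical
  obtain ⟨I, lam, hlam, hexp⟩ := exists_diag (VQ Λ)
  have hD : Diag Λ I lam := ⟨fun j hj => (hlam j hj).1, fun j hj => (hlam j hj).2.1,
    fun j hj => (hlam j hj).2.2, hexp⟩
  have hθ : ∀ᶠ θ : ℝ in atTop, 0 < θ ∧ ∀ j ∈ I, (∃ i ∈ Iᶜ, lam j i ≠ 0) →
      ∑ i ∈ Iᶜ, (lam j i : ℝ) * θ ^ (i : ℕ) ≠ 0 := by
    refine (eventually_gt_atTop 0).and ?_
    rw [Filter.eventually_all_finset]
    intro j _
    by_cases h1 : ∃ i ∈ Iᶜ, lam j i ≠ 0
    · obtain ⟨i, hi, h2⟩ := h1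
      filter_upwards [ev_generic Iᶜ (fun i => (lam j i : ℝ)) ⟨i, hi, by exact_mod_cast h2⟩]
        with θ h3 _
      exact h3
    · exact Eventually.of_forall fun θ h2 => absurd h2 h1
  obtain ⟨θ, hθ0, hθ1⟩ := hθ.exists
  let w : Fin N → ℝ := fun j =>
    if j ∈ I then -∑ i ∈ Iᶜ, (lam j i : ℝ) * θ ^ (i : ℕ) else θ ^ (j : ℕ)
  have hwI : ∀ j ∈ I, w j = -∑ i ∈ Iᶜ, (lam j i : ℝ) * θ ^ (i : ℕ) := fun j hj => if_pos hj
  have hwC : ∀ j ∈ Iᶜ, w j = θ ^ (j : ℕ) := fun j hj => if_neg (mem_compl.1 hj)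
  refine ⟨w, ?_, ?_⟩
  · intro k hk
    unfold dr
    rw [← Finset.sum_add_sum_compl I]
    have h1 : ∑ i ∈ Iᶜ, (k i : ℝ) * w i = ∑ j ∈ I, ∑ i ∈ Iᶜ, (k j : ℝ) *
        ((lam j i : ℝ) * θ ^ (i : ℕ)) := by
      rw [Finset.sum_comm]
      refine Finset.sum_congr rfl fun i hi => ?_
      rw [hwC i hi, hD.cast hk i, Finset.sum_mul]
      exact Finset.sum_congr rfl fun j _ => by ring
    rw [h1, ← Finset.sum_add_distrib]
    refine Finset.sum_eq_zero fun j hj => ?_
    rw [hwI j hj, ← Finset.mul_sum]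
    ring
  · intro j hj
    by_cases hjI : j ∈ I
    · rw [hwI j hjI]
      have h1 : ∃ i ∈ Iᶜ, lam j i ≠ 0 := by
        by_contra hcon
        push Not at hcon
        obtain ⟨D, hD0, k, hk, hk2⟩ := mem_VQ.1 (hD.mem j hjI)
        have h1 : k = D • (Pi.single j 1 : Fin N → ℤ) := by
          funext i
          rw [Pi.smul_apply, smul_eq_mul]
          have h2 := hk2 i
          by_cases hij : i = j
          · subst hij
            rw [hD.diag i hjI, mul_one] at h2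
            rw [Pi.single_eq_same, mul_one]
            exact_mod_cast h2.symm
          · rw [Pi.single_eq_of_ne hij, mul_zero]
            have h3 : lam j i = 0 := by
              by_cases hi : i ∈ I
              · exact hD.off j hjI i hi hij
              · exact hcon i (mem_compl.2 hi)
            rw [h3, mul_zero] at h2
            exact_mod_cast h2.symm
        rw [h1] at hk
        exact hj D hD0 hk
      exact neg_ne_zero.2 (hθ1 j hjI h1)
    · rw [hwC j (mem_compl.2 hjI)]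
      exact (pow_pos hθ0 _).ne'

open Classical in
/-- the right limit of the fractional part -/
def ph (v w : ℝ) : ℝ := if ∃ n : ℤ, v = n then (if 0 < w then 0 else 1) else Int.fract v

theorem tendsto_ph {v w : ℝ} (h : (∃ n : ℤ, v = n) → w ≠ 0) :
    Tendsto (fun ε : ℝ => Int.fract (v + ε * w)) (𝓝[>] 0) (𝓝 (ph v w)) := by
  have hlin : Tendsto (fun ε : ℝ => v + ε * w) (𝓝[>] 0) (𝓝 (v + 0 * w)) :=
    (tendsto_const_nhds.add (tendsto_id.mul_const _)).mono_left nhdsWithin_le_nhds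
  rw [zero_mul, add_zero] at hlin
  unfold ph
  by_cases hv : ∃ n : ℤ, v = n
  · rw [if_pos hv]
    obtain ⟨n, rfl⟩ := hv
    have hw := h ⟨n, rfl⟩
    have h1 : Tendsto (fun ε : ℝ => ε * w) (𝓝[>] 0) (𝓝 (0 * w)) :=
      (tendsto_id.mul_const _).mono_left nhdsWithin_le_nhds
    rw [zero_mul] at h1
    rcases lt_or_gt_of_ne hw with hw' | hw'
    · rw [if_neg (not_lt.2 hw'.le)]
      have h2 : Tendsto (fun ε : ℝ => 1 + ε * w) (𝓝[>] 0) (𝓝 (1 + 0)) := h1.const_add 1
      rw [add_zero] at h2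
      refine h2.congr' ?_
      have h3 : ∀ᶠ ε : ℝ in 𝓝[>] 0, -1 < ε * w := h1.eventually (lt_mem_nhds (by norm_num))
      filter_upwards [h3, self_mem_nhdsWithin] with ε h4 h5
      have h5' : (0 : ℝ) < ε := h5
      have h6 : (n : ℝ) + ε * w = ((n - 1 : ℤ) : ℝ) + (1 + ε * w) := by push_cast; ring
      rw [h6, Int.fract_intCast_add, Int.fract_eq_self.2]
      exact ⟨by linarith, by nlinarith⟩
    · rw [if_pos hw']
      refine h1.congr' ?_
      have h3 : ∀ᶠ ε : ℝ in 𝓝[>] 0, ε * w < 1 := h1.eventually (gt_mem_nhds one_pos)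
      filter_upwards [h3, self_mem_nhdsWithin] with ε h4 h5
      have h5' : (0 : ℝ) < ε := h5
      rw [Int.fract_intCast_add, Int.fract_eq_self.2]
      exact ⟨by positivity, h4⟩
  · rw [if_neg hv]
    have h1 : ContinuousAt Int.fract v := by
      apply continuousAt_fract
      intro h2
      exact hv ⟨⌊v⌋, h2⟩
    exact h1.tendsto.comp hlin

variable {Λ : AddSubgroup (Fin N → ℤ)} {x : Fin N → ℝ}

theorem sum_ph (h : TorH Λ x) {v w : Fin N → ℝ}
    (hv : ∀ k ∈ Λ, ∃ n : ℤ, dr k v - dr k x = n) (hw : ∀ k ∈ Λ, dr k w = 0)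
    (h0 : ∀ i, (∃ n : ℤ, v i = n) → w i ≠ 0) : 2 * ∑ i, ph (v i) (w i) = N := by
  have h1 : Tendsto (fun ε : ℝ => 2 * ∑ i, Int.fract (v i + ε * w i)) (𝓝[>] 0)
      (𝓝 (2 * ∑ i, ph (v i) (w i))) :=
    (tendsto_finsetSum _ fun i _ => tendsto_ph (h0 i)).const_mul 2
  refine tendsto_nhds_unique h1 (tendsto_const_nhds.congr' ?_)
  have h2 : ∀ᶠ ε : ℝ in 𝓝[>] 0, ∀ i, ¬ ∃ n : ℤ, v i - ε * (-w i) = n := by
    rw [Filter.eventually_all]
    exact fun i => ev_nonint fun h3 => neg_ne_zero.2 (h0 i h3)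
  filter_upwards [h2] with ε h3
  symm
  refine h.sum _ (fun i => ⟨?_, Int.fract_lt_one _⟩) ?_
  · rw [Int.fract_pos]
    intro h4
    exact h3 i ⟨⌊v i + ε * w i⌋, by rw [← h4]; ring⟩
  · intro k hk
    obtain ⟨n, hn⟩ := hv k hk
    refine ⟨n - ∑ i, k i * ⌊v i + ε * w i⌋, ?_⟩
    have h4 : dr k (fun i => Int.fract (v i + ε * w i)) =
        dr k (fun i => v i + ε * w i) - ∑ i, (k i : ℝ) * ⌊v i + ε * w i⌋ := by
      unfold dr
      rw [← Finset.sum_sub_distrib]
      refine Finset.sum_congr rfl fun i _ => ?_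
      rw [← mul_sub]
      rfl
    rw [h4, dr_add_smul, hw k hk]
    push_cast
    linarith

open Classical in
/-- the jumps cancel -/
theorem jump (h : TorH Λ x) {v w : Fin N → ℝ}
    (hv : ∀ k ∈ Λ, ∃ n : ℤ, dr k v - dr k x = n) (hw : ∀ k ∈ Λ, dr k w = 0)
    (h0 : ∀ i, (∃ n : ℤ, v i = n) → w i ≠ 0) :
    (univ.filter fun i => (∃ n : ℤ, v i = n) ∧ 0 < w i).card =
      (univ.filter fun i => (∃ n : ℤ, v i = n) ∧ w i < 0).card := by
  have h1 := sum_ph h hv hw h0
  have hw' : ∀ k ∈ Λ, dr k (fun i => -w i) = 0 := by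
    intro k hk
    have h2 : dr k (fun i => -w i) = -dr k w := by
      unfold dr
      rw [← Finset.sum_neg_distrib]
      exact Finset.sum_congr rfl fun i _ => by ring
    rw [h2, hw k hk, neg_zero]
  have h2 := sum_ph h hv hw' (fun i hi => neg_ne_zero.2 (h0 i hi))
  have h3 : ∑ i, (ph (v i) (-w i) - ph (v i) (w i)) = 0 := by
    rw [Finset.sum_sub_distrib]
    linarith
  have h4 : ∀ i, ph (v i) (-w i) - ph (v i) (w i) =
      (if (∃ n : ℤ, v i = n) ∧ 0 < w i then (1 : ℝ) else 0) -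
        (if (∃ n : ℤ, v i = n) ∧ w i < 0 then (1 : ℝ) else 0) := by
    intro i
    unfold ph
    by_cases hi : ∃ n : ℤ, v i = n
    · rw [if_pos hi, if_pos hi]
      rcases lt_or_gt_of_ne (h0 i hi) with h5 | h5
      · rw [if_pos (neg_pos.2 h5), if_neg (not_lt.2 h5.le), if_neg (fun h6 => absurd h6.2 (not_lt.2 h5.le)),
          if_pos ⟨hi, h5⟩]
      · rw [if_neg (fun h6 => absurd (neg_pos.1 h6) (not_lt.2 h5.le)), if_pos h5, if_pos ⟨hi, h5⟩,
          if_neg (fun h6 => absurd h6.2 (not_lt.2 h5.le))]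
    · rw [if_neg hi, if_neg hi, if_neg (fun h6 => hi h6.1), if_neg (fun h6 => hi h6.1)]
      ring
  rw [Finset.sum_congr rfl fun i _ => h4 i, Finset.sum_sub_distrib, Finset.sum_boole,
    Finset.sum_boole, sub_eq_zero] at h3
  exact_mod_cast h3

/-- `e j` is a rational multiple of `e i` up to relations -/
def Par (Λ : AddSubgroup (Fin N → ℤ)) (i j : Fin N) : Prop :=
  ∃ D c : ℤ, D ≠ 0 ∧ D • (Pi.single j 1 : Fin N → ℤ) - c • (Pi.single i 1 : Fin N → ℤ) ∈ Λ

theorem par_self (i : Fin N) : Par Λ i i := ⟨1, 1, one_ne_zero, by rw [sub_self]; exact zero_mem _⟩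

/-- a generic point of the torus with one integral coordinate -/
theorem exists_pt (i0 : Fin N) {w : Fin N → ℝ} (hw : ∀ k ∈ Λ, dr k w = 0) (hw0 : w i0 ≠ 0) {B : Fin N → Set ℝ}
    (hB : ∀ j, (B j).Countable) :
    ∃ v : Fin N → ℝ, (∀ k ∈ Λ, ∃ n : ℤ, dr k v - dr k x = n) ∧ (∃ n : ℤ, v i0 = n) ∧
      ∀ j, ¬ Par Λ i0 j → v j ∉ B j := by
  classical
  obtain ⟨u, hu, hu0⟩ := exists_perp (Λ ⊔ AddSubgroup.zmultiples (Pi.single i0 1 : Fin N → ℤ))
  have hu1 : ∀ k ∈ Λ, dr k u = 0 := fun k hk => hu k (AddSubgroup.mem_sup_left hk)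
  have hu2 : u i0 = 0 := by
    rw [← dr_single i0 u]
    exact hu _ (AddSubgroup.mem_sup_right (AddSubgroup.mem_zmultiples _))
  have hu3 : ∀ j, ¬ Par Λ i0 j → u j ≠ 0 := by
    intro j hj
    refine hu0 j fun D hD hmem => hj ?_
    obtain ⟨y, hy, z, hz, hyz⟩ := AddSubgroup.mem_sup.1 hmem
    obtain ⟨c, rfl⟩ := AddSubgroup.mem_zmultiples_iff.1 hz
    refine ⟨D, c, hD, ?_⟩
    rw [← hyz, add_sub_cancel_right]
    exact hy
  let s : ℝ := ((⌊x i0⌋ : ℝ) - x i0) / w i0
  let v0 : Fin N → ℝ := fun i => x i + s * w i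
  have hbad : (⋃ j, ⋃ b ∈ B j, {θ : ℝ | ¬ Par Λ i0 j ∧ v0 j + θ * u j = b}).Countable := by
    refine Set.countable_iUnion fun j => ?_
    refine (hB j).biUnion fun b _ => ?_
    by_cases hj : Par Λ i0 j
    · have : {θ : ℝ | ¬ Par Λ i0 j ∧ v0 j + θ * u j = b} = ∅ := by
        ext θ
        simp [hj]
      rw [this]
      exact Set.countable_empty
    · refine Set.Countable.mono ?_ (Set.countable_singleton ((b - v0 j) / u j))
      rintro θ ⟨_, hθ⟩
      rw [Set.mem_singleton_iff, eq_div_iff (hu3 j hj)]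
      linarith
  obtain ⟨θ, hθ⟩ : ∃ θ : ℝ, θ ∉ ⋃ j, ⋃ b ∈ B j, {θ : ℝ | ¬ Par Λ i0 j ∧ v0 j + θ * u j = b} := by
    by_contra hcon
    push Not at hcon
    exact Cardinal.not_countable_real (hbad.mono fun θ _ => hcon θ)
  refine ⟨fun i => v0 i + θ * u i, ?_, ?_, ?_⟩
  · intro k hk
    refine ⟨0, ?_⟩
    rw [dr_add_smul, hu1 k hk]
    simp only [v0]
    rw [dr_add_smul, hw k hk]
    simp
  · refine ⟨⌊x i0⌋, ?_⟩
    simp only [v0, hu2, s]
    rw [div_mul_cancel₀ _ hw0]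
    ring
  · intro j hj hmem
    apply hθ
    rw [Set.mem_iUnion]
    refine ⟨j, ?_⟩
    rw [Set.mem_iUnion₂]
    exact ⟨_, hmem, hj, rfl⟩

theorem single_notMem_of_int (h : TorH Λ x) {v : Fin N → ℝ}
    (hv : ∀ k ∈ Λ, ∃ n : ℤ, dr k v - dr k x = n) {i : Fin N} (hi : ∃ n : ℤ, v i = n) :
    (Pi.single i 1 : Fin N → ℤ) ∉ Λ := by
  intro hmem
  apply h.single i hmem
  obtain ⟨n, hn⟩ := hv _ hmem
  obtain ⟨n', hn'⟩ := hi
  rw [dr_single, dr_single, hn'] at hn
  refine ⟨n' - n, ?_⟩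
  push_cast
  linarith

variable {n : ℕ}

/-- every direction occurs in another triple -/
theorem partner (h : TorH Λ x) (e : Fin n × Fin 3 ≃ Fin N)
    (htri : ∀ j, (∑ y, Pi.single (e (j, y)) 1 : Fin N → ℤ) ∈ Λ)
    (hx : ∀ j, ∃ z : ℤ, ∑ y, x (e (j, y)) = z) {i0 : Fin N}
    (hi0 : (Pi.single i0 1 : Fin N → ℤ) ∉ Λ) :
    ∃ i1, (Pi.single i1 1 : Fin N → ℤ) ∉ Λ ∧ Par Λ i0 i1 ∧ (e.symm i1).1 ≠ (e.symm i0).1 := by
  classical
  by_contra hcon
  push Not at hcon
  obtain ⟨w, hw, hw0⟩ := exists_perp Λ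
  have hw1 : ∀ i, (Pi.single i 1 : Fin N → ℤ) ∉ Λ → w i ≠ 0 := fun i hi =>
    hw0 i fun D hD hmem => hi (h.sat D _ hD hmem)
  obtain ⟨v, hv, hv0, hvB⟩ := exists_pt (Λ := Λ) (x := x) i0 hw (hw1 i0 hi0)
    (B := fun _ => Set.range ((↑) : ℤ → ℝ)) (fun _ => Set.countable_range _)
  have hS : ∀ i, (∃ z : ℤ, v i = z) → (Pi.single i 1 : Fin N → ℤ) ∉ Λ ∧ Par Λ i0 i := by
    intro i hi
    refine ⟨single_notMem_of_int h hv hi, ?_⟩
    by_contra hpar
    obtain ⟨z, hz⟩ := hi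
    exact hvB i hpar ⟨z, hz.symm⟩
  have hj := jump h hv hw (fun i hi => hw1 i (hS i hi).1)
  set j0 := (e.symm i0).1 with hj0
  let T : Finset (Fin 3) := univ.filter fun y => ∃ z : ℤ, v (e (j0, y)) = z
  have hT : (univ.filter fun i => ∃ z : ℤ, v i = z).card = T.card := by
    symm
    refine Finset.card_bij (fun y _ => e (j0, y)) ?_ ?_ ?_
    · intro y hy
      rw [mem_filter] at hy ⊢
      exact ⟨mem_univ _, hy.2⟩
    · intro y _ y' _ hyy
      have := e.injective hyy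
      exact (Prod.ext_iff.1 this).2
    · intro i hi
      rw [mem_filter] at hi
      have h1 := hS i hi.2
      have h2 := hcon i h1.1 h1.2
      refine ⟨(e.symm i).2, ?_, ?_⟩
      · rw [mem_filter]
        refine ⟨mem_univ _, ?_⟩
        have h3 : (j0, (e.symm i).2) = e.symm i := by rw [← h2]
        rw [h3, Equiv.apply_symm_apply]
        exact hi.2
      · have h3 : (j0, (e.symm i).2) = e.symm i := by rw [← h2]
        rw [h3, Equiv.apply_symm_apply]
  have hsplit : (univ.filter fun i => ∃ z : ℤ, v i = z).card =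
      (univ.filter fun i => (∃ n : ℤ, v i = n) ∧ 0 < w i).card +
        (univ.filter fun i => (∃ n : ℤ, v i = n) ∧ w i < 0).card := by
    rw [← Finset.card_union_of_disjoint]
    · congr 1
      ext i
      simp only [mem_filter, mem_univ, true_and, mem_union]
      constructor
      · intro hi
        rcases lt_or_gt_of_ne (hw1 i (hS i hi).1) with h1 | h1
        · exact Or.inr ⟨hi, h1⟩
        · exact Or.inl ⟨hi, h1⟩
      · rintro (hi | hi)
        · exact hi.1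
        · exact hi.1
    · rw [Finset.disjoint_left]
      intro i h1 h2
      rw [mem_filter] at h1 h2
      exact absurd h1.2.2 (not_lt.2 h2.2.2.le)
  have hpos : 0 < T.card := by
    refine card_pos.2 ⟨(e.symm i0).2, ?_⟩
    rw [mem_filter]
    refine ⟨mem_univ _, ?_⟩
    have h3 : (j0, (e.symm i0).2) = e.symm i0 := rfl
    rw [h3, Equiv.apply_symm_apply]
    exact hv0
  have hle : T.card ≤ 3 := by
    refine (card_le_univ T).trans ?_
    simp
  have h2 : T.card = 2 := by omega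
  have h3 : (Tᶜ).card = 1 := by
    rw [card_compl, h2]
    simp
  obtain ⟨y2, hy2⟩ := card_eq_one.1 h3
  have h4 : y2 ∉ T := by
    have : y2 ∈ Tᶜ := by rw [hy2]; exact mem_singleton_self _
    exact mem_compl.1 this
  apply h4
  rw [mem_filter]
  refine ⟨mem_univ _, ?_⟩
  obtain ⟨z0, hz0⟩ := hx j0
  obtain ⟨z1, hz1⟩ := hv _ (htri j0)
  have h5 : ∀ y : Fin N → ℝ, dr (∑ y', Pi.single (e (j0, y')) 1 : Fin N → ℤ) y =
      ∑ y', y (e (j0, y')) := by
    intro y
    rw [Fin.sum_univ_three, Fin.sum_univ_three, dr_add, dr_add, dr_single, dr_single, dr_single]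
  rw [h5, h5, hz0] at hz1
  have h6 : ∀ y ∈ T, ∃ z : ℤ, v (e (j0, y)) = z := fun y hy => (mem_filter.1 hy).2
  choose! g hg using h6
  refine ⟨z0 + z1 - ∑ y ∈ T, g y, ?_⟩
  have h7 := Finset.sum_add_sum_compl T fun y => v (e (j0, y))
  rw [hy2, Finset.sum_singleton, Finset.sum_congr rfl hg] at h7
  push_cast
  linarith

/-- a class of two directions -/
theorem exact_pair (h : TorH Λ x) {i0 i1 : Fin N} (hne : i0 ≠ i1)
    (h0 : (Pi.single i0 1 : Fin N → ℤ) ∉ Λ) (h1 : (Pi.single i1 1 : Fin N → ℤ) ∉ Λ)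
    (hpar : Par Λ i0 i1)
    (hcl : ∀ i, (Pi.single i 1 : Fin N → ℤ) ∉ Λ → Par Λ i0 i → i = i0 ∨ i = i1)
    (hcl' : ∀ i, (Pi.single i 1 : Fin N → ℤ) ∉ Λ → Par Λ i1 i → i = i0 ∨ i = i1) :
    (Pi.single i0 1 + Pi.single i1 1 : Fin N → ℤ) ∈ Λ ∧ ∃ z : ℤ, x i0 + x i1 = z := by
  classical
  obtain ⟨w, hw, hw0⟩ := exists_perp Λ
  have hw1 : ∀ i, (Pi.single i 1 : Fin N → ℤ) ∉ Λ → w i ≠ 0 := fun i hi =>
    hw0 i fun D hD hmem => hi (h.sat D _ hD hmem)
  -- the key argument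
  have key : ∀ a b : Fin N, a ≠ b → (Pi.single a 1 : Fin N → ℤ) ∉ Λ →
      (Pi.single b 1 : Fin N → ℤ) ∉ Λ →
      (∀ i, (Pi.single i 1 : Fin N → ℤ) ∉ Λ → Par Λ a i → i = a ∨ i = b) →
      (∃ z : ℤ, ∃ v : Fin N → ℝ, (∀ k ∈ Λ, ∃ n : ℤ, dr k v - dr k x = n) ∧ v a + v b = z) ∧
        w a * w b < 0 ∧ |w b| ≤ |w a| := by
    intro a b hab ha hb hc
    have hwa := hw1 a ha
    have hwb := hw1 b hb
    obtain ⟨v, hv, hv0, hvB⟩ := exists_pt (Λ := Λ) (x := x) a hw hwa
      (B := fun j => Set.range ((↑) : ℤ → ℝ) ∪ Set.range (fun z : ℤ => (z : ℝ) - (w b)⁻¹ * w j))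
      (fun _ => (Set.countable_range _).union (Set.countable_range _))
    have hS : ∀ i, (∃ z : ℤ, v i = z) → i = a ∨ i = b := by
      intro i hi
      refine hc i (single_notMem_of_int h hv hi) ?_
      by_contra hp
      obtain ⟨z, hz⟩ := hi
      exact hvB i hp (Or.inl ⟨z, hz.symm⟩)
    have hS0 : ∀ i, (∃ z : ℤ, v i = z) → w i ≠ 0 := fun i hi =>
      hw1 i (single_notMem_of_int h hv hi)
    have hj := jump h hv hw hS0
    -- `v b` is integral and the signs are opposite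
    have hb' : (∃ z : ℤ, v b = z) ∧ w a * w b < 0 := by
      by_contra hcon
      rcases lt_or_gt_of_ne hwa with hwa' | hwa'
      · have e1 : a ∈ univ.filter fun i => (∃ n : ℤ, v i = n) ∧ w i < 0 := by
          rw [mem_filter]
          exact ⟨mem_univ _, hv0, hwa'⟩
        have e2 : 0 < (univ.filter fun i => (∃ n : ℤ, v i = n) ∧ 0 < w i).card := by
          rw [hj]
          exact card_pos.2 ⟨a, e1⟩
        obtain ⟨i, hi⟩ := card_pos.1 e2
        rw [mem_filter] at hi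
        rcases hS i hi.2.1 with rfl | rfl
        · exact absurd hi.2.2 (not_lt.2 hwa'.le)
        · exact hcon ⟨hi.2.1, mul_neg_of_neg_of_pos hwa' hi.2.2⟩
      · have e1 : a ∈ univ.filter fun i => (∃ n : ℤ, v i = n) ∧ 0 < w i := by
          rw [mem_filter]
          exact ⟨mem_univ _, hv0, hwa'⟩
        have e2 : 0 < (univ.filter fun i => (∃ n : ℤ, v i = n) ∧ w i < 0).card := by
          rw [← hj]
          exact card_pos.2 ⟨a, e1⟩
        obtain ⟨i, hi⟩ := card_pos.1 e2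
        rw [mem_filter] at hi
        rcases hS i hi.2.1 with rfl | rfl
        · exact absurd hi.2.2 (not_lt.2 hwa'.le)
        · exact hcon ⟨hi.2.1, mul_neg_of_pos_of_neg hwa' hi.2.2⟩
    obtain ⟨za, hza⟩ := hv0
    obtain ⟨⟨zb, hzb⟩, hsign⟩ := hb'
    refine ⟨⟨za + zb, v, hv, by rw [hza, hzb]; push_cast; ring⟩, hsign, ?_⟩
    by_contra hlt
    push Not at hlt
    let v' : Fin N → ℝ := fun i => v i + (w b)⁻¹ * w i
    have hv' : ∀ k ∈ Λ, ∃ n : ℤ, dr k v' - dr k x = n := by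
      intro k hk
      obtain ⟨n, hn⟩ := hv k hk
      refine ⟨n, ?_⟩
      simp only [v']
      rw [dr_add_smul, hw k hk, mul_zero, add_zero]
      exact hn
    have hS' : ∀ i, (∃ z : ℤ, v' i = z) → i = b := by
      intro i hi
      have hi' := single_notMem_of_int h hv' hi
      have hp : Par Λ a i := by
        by_contra hp
        obtain ⟨z, hz⟩ := hi
        refine hvB i hp (Or.inr ⟨z, ?_⟩)
        simp only [v'] at hz
        simp only
        linarith
      rcases hc i hi' hp with rfl | rfl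
      · exfalso
        obtain ⟨z, hz⟩ := hi
        simp only [v'] at hz
        have h3 : (w b)⁻¹ * w i = ((z - za : ℤ) : ℝ) := by
          push_cast
          linarith
        have h4 : |(w b)⁻¹ * w i| < 1 := by
          rw [abs_mul, abs_inv, inv_mul_lt_iff₀ (abs_pos.2 hwb), mul_one]
          exact hlt
        rw [h3] at h4
        have h5 : |z - za| < 1 := by exact_mod_cast h4
        have h6 : z - za = 0 := Int.abs_lt_one_iff.1 h5
        rw [h6] at h3
        simp only [Int.cast_zero, mul_eq_zero, inv_eq_zero] at h3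
        rcases h3 with h3 | h3
        · exact hwb h3
        · exact hwa h3
      · rfl
    have hj' := jump h hv' hw (fun i hi => hw1 i (single_notMem_of_int h hv' hi))
    have hb1 : ∃ z : ℤ, v' b = z := by
      refine ⟨zb + 1, ?_⟩
      simp only [v']
      rw [inv_mul_cancel₀ hwb, hzb]
      push_cast
      ring
    rcases lt_or_gt_of_ne hwb with hwb' | hwb'
    · have e2 : 0 < (univ.filter fun i => (∃ n : ℤ, v' i = n) ∧ 0 < w i).card := by
        rw [hj']
        refine card_pos.2 ⟨b, ?_⟩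
        rw [mem_filter]
        exact ⟨mem_univ _, hb1, hwb'⟩
      obtain ⟨i, hi⟩ := card_pos.1 e2
      rw [mem_filter] at hi
      have := hS' i hi.2.1
      subst this
      exact absurd hi.2.2 (not_lt.2 hwb'.le)
    · have e2 : 0 < (univ.filter fun i => (∃ n : ℤ, v' i = n) ∧ w i < 0).card := by
        rw [← hj']
        refine card_pos.2 ⟨b, ?_⟩
        rw [mem_filter]
        exact ⟨mem_univ _, hb1, hwb'⟩
      obtain ⟨i, hi⟩ := card_pos.1 e2
      rw [mem_filter] at hi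
      have := hS' i hi.2.1
      subst this
      exact absurd hi.2.2 (not_lt.2 hwb'.le)
  obtain ⟨⟨z, v, hv, hz⟩, hsign, hle1⟩ := key i0 i1 hne h0 h1 hcl
  obtain ⟨_, _, hle2⟩ := key i1 i0 hne.symm h1 h0 (fun i hi hp => (hcl' i hi hp).symm)
  have habs : |w i1| = |w i0| := le_antisymm hle1 hle2
  have hneg : w i1 = -w i0 := by
    rcases abs_eq_abs.1 habs with h2 | h2
    · rw [h2] at hsign
      exact absurd hsign (not_lt.2 (mul_self_nonneg _))
    · exact h2
  obtain ⟨D, c, hD, hmem⟩ := hpar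
  have hc : c = -D := by
    have h2 := hw _ hmem
    rw [dr_sub, dr_smul, dr_smul, dr_single, dr_single, hneg] at h2
    have h3 : (-(D : ℝ) - c) * w i0 = 0 := by linarith
    rcases mul_eq_zero.1 h3 with h4 | h4
    · have : (c : ℝ) = ((-D : ℤ) : ℝ) := by
        push_cast
        linarith
      exact_mod_cast this
    · exact absurd h4 (hw1 i0 h0)
  have hsum : (Pi.single i0 1 + Pi.single i1 1 : Fin N → ℤ) ∈ Λ := by
    refine h.sat D _ hD ?_
    have h2 : D • (Pi.single i0 1 + Pi.single i1 1 : Fin N → ℤ) =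
        D • (Pi.single i1 1 : Fin N → ℤ) - c • (Pi.single i0 1 : Fin N → ℤ) := by
      rw [hc, smul_add, neg_smul, sub_neg_eq_add, add_comm]
    rw [h2]
    exact hmem
  refine ⟨hsum, ?_⟩
  obtain ⟨n, hn⟩ := hv _ hsum
  rw [dr_add, dr_add, dr_single, dr_single, dr_single, dr_single, hz] at hn
  refine ⟨z - n, ?_⟩
  push_cast
  linarith

end

end Pool.Agent.Y3.FJ
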