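import Pool.Agent.Y3.FJ.Deg

/-!
# Upper bounds for the number of exceptional sets of characters
-/

set_option autoImplicit false

namespace Pool.Agent.Y3.FJ

open Finset Filter Topology Module Pool.Agent.Y3.GD

set_option linter.unusedSectionVars false

noncomputable section

variable {m r : ℕ}

/-- balanced sets of characters -/
def HodgeF (k : ℕ) (S : Finset ((Fin 3 → ZMod m) × Fin r)) : Prop :=
  S.card = 2 * k ∧ (∀ p ∈ S, Ch p.1) ∧
    ∀ t : (ZMod m)ˣ, 2 * ∑ p ∈ S, ∑ y, ((t : ZMod m) * p.1 y).val = 2 * k * 3 * m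

/-- unions of balanced pairs -/
def DivF (S : Finset ((Fin 3 → ZMod m) × Fin r)) : Prop :=
  ∃ σ : (Fin 3 → ZMod m) × Fin r → (Fin 3 → ZMod m) × Fin r, ∀ p ∈ S,
    σ p ∈ S ∧ σ p ≠ p ∧ σ (σ p) = p ∧ HP p.1 (σ p).1

/-- the entries match in pairs `c, -c` -/
def LinF (S : Finset ((Fin 3 → ZMod m) × Fin r)) : Prop :=
  ∃ τ : ((Fin 3 → ZMod m) × Fin r) × Fin 3 → ((Fin 3 → ZMod m) × Fin r) × Fin 3,
    ∀ p ∈ S, ∀ y, (τ (p, y)).1 ∈ S ∧ τ (p, y) ≠ (p, y) ∧ τ (τ (p, y)) = (p, y) ∧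
      (τ (p, y)).1.1 (τ (p, y)).2 = -p.1 y

open Classical in
theorem hodgeO_of_F {k : ℕ} {f : Fin (2 * k) → (Fin 3 → ZMod m) × Fin r}
    (hf : Function.Injective f) (h : HodgeF k (univ.image f)) : HodgeO (fun j => (f j).1) := by
  obtain ⟨_, h2, h3⟩ := h
  refine ⟨fun j y => (h2 (f j) (mem_image_of_mem _ (mem_univ j))).1 y,
    fun j => (h2 (f j) (mem_image_of_mem _ (mem_univ j))).2, fun t => ?_⟩
  have h4 := h3 t
  rw [sum_image (fun _ _ _ _ e => hf e)] at h4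
  exact h4

open Classical in
theorem divF_of_lef {n : ℕ} {f : Fin n → (Fin 3 → ZMod m) × Fin r}
    (hf : Function.Injective f) (h : LefO (fun j => (f j).1)) : DivF (univ.image f) := by
  obtain ⟨σ, hσ⟩ := h
  refine ⟨fun p => if h : ∃ j, f j = p then f (σ h.choose) else p, ?_⟩
  have key : ∀ j, (if h : ∃ j', f j' = f j then f (σ h.choose) else f j) = f (σ j) := by
    intro j
    have h1 : ∃ j', f j' = f j := ⟨j, rfl⟩
    rw [dif_pos h1, hf h1.choose_spec]
  intro p hp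
  rw [mem_image] at hp
  obtain ⟨j, _, rfl⟩ := hp
  simp only [key]
  refine ⟨mem_image_of_mem _ (mem_univ _), fun e => (hσ j).1 (hf e), ?_, (hσ j).2.2⟩
  rw [(hσ j).2.1]

open Classical in
theorem linF_of_pair {n : ℕ} {f : Fin n → (Fin 3 → ZMod m) × Fin r}
    (hf : Function.Injective f) (h : PairO (fun j => (f j).1)) : LinF (univ.image f) := by
  obtain ⟨τ, hτ⟩ := h
  refine ⟨fun q => if h : ∃ j, f j = q.1 then (f (τ (h.choose, q.2)).1, (τ (h.choose, q.2)).2)
    else q, ?_⟩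
  have key : ∀ j y, (if h : ∃ j', f j' = f j then (f (τ (h.choose, y)).1, (τ (h.choose, y)).2)
      else (f j, y)) = (f (τ (j, y)).1, (τ (j, y)).2) := by
    intro j y
    have h1 : ∃ j', f j' = f j := ⟨j, rfl⟩
    rw [dif_pos h1, hf h1.choose_spec]
  intro p hp y
  rw [mem_image] at hp
  obtain ⟨j, _, rfl⟩ := hp
  simp only [key]
  refine ⟨mem_image_of_mem _ (mem_univ _), ?_, ?_, (hτ (j, y)).2.2⟩
  · intro e
    apply (hτ (j, y)).1
    rw [Prod.mk.injEq] at e
    exact Prod.ext (hf e.1) e.2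
  · rw [Prod.mk.eta, (hτ (j, y)).2.1]

open Classical in
theorem upper (n s R : ℕ) : ∃ C : ℕ, ∀ m r : ℕ, 0 < m →
    ∀ P : Finset ((Fin 3 → ZMod m) × Fin r) → Prop, (∀ S, P S → S.card = n) →
    (∀ f : Fin n → (Fin 3 → ZMod m) × Fin r, Function.Injective f → P (univ.image f) →
      Rel R s (fl fun j => (f j).1)) →
    {S | P S}.ncard ≤ C * r ^ n * m ^ (n * 3 - s) := by
  obtain ⟨C, hC⟩ := ncard_Rel_le (n * 3) R s
  refine ⟨C, fun m r hm P h1 h2 => ?_⟩
  have : NeZero m := ⟨hm.ne'⟩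
  let Ψ : (Fin (n * 3) → ZMod m) × (Fin n → Fin r) → Finset ((Fin 3 → ZMod m) × Fin r) :=
    fun q => univ.image fun j => ((fun y => q.1 (finProdFinEquiv (j, y))), q.2 j)
  have h3 : {S | P S} ⊆ Ψ '' ({b : Fin (n * 3) → ZMod m | Rel R s b} ×ˢ
      (Set.univ : Set (Fin n → Fin r))) := by
    intro S hS
    have hS' : P S := hS
    let f : Fin n → (Fin 3 → ZMod m) × Fin r := fun j =>
      ((S.equivFinOfCardEq (h1 S hS')).symm j : (Fin 3 → ZMod m) × Fin r)
    have hf : Function.Injective f := fun j j' e =>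
      (S.equivFinOfCardEq (h1 S hS')).symm.injective (Subtype.ext e)
    have hfS : univ.image f = S := by
      ext p
      rw [mem_image]
      constructor
      · rintro ⟨j, _, rfl⟩
        exact ((S.equivFinOfCardEq (h1 S hS')).symm j).2
      · intro hp
        refine ⟨S.equivFinOfCardEq (h1 S hS') ⟨p, hp⟩, mem_univ _, ?_⟩
        simp only [f, Equiv.symm_apply_apply]
    refine ⟨(fl fun j => (f j).1, fun j => (f j).2), ⟨h2 f hf (by rw [hfS]; exact hS'),
      Set.mem_univ _⟩, ?_⟩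
    simp only [Ψ, fl_apply]
    exact hfS
  refine (Set.ncard_le_ncard h3 (Set.toFinite _)).trans ((Set.ncard_image_le (Set.toFinite _)).trans ?_)
  rw [Set.ncard_prod, Set.ncard_univ, Nat.card_eq_fintype_card, Fintype.card_fun, Fintype.card_fin,
    Fintype.card_fin]
  calc _ ≤ C * m ^ (n * 3 - s) * r ^ n := Nat.mul_le_mul_right _ (hC m hm)
    _ = _ := by ring

/-- upper bound for the sets which are not unions of balanced pairs -/
theorem upperA (k : ℕ) : ∃ C : ℕ, ∀ m r : ℕ, 0 < m →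
    {S : Finset ((Fin 3 → ZMod m) × Fin r) | HodgeF k S ∧ ¬ DivF S}.ncard ≤
      C * r ^ (2 * k) * m ^ (2 * k - 1) := by
  classical
  obtain ⟨R, hR⟩ := ordA (2 * k)
  obtain ⟨C, hC⟩ := upper (2 * k) (2 * (2 * k) + 1) R
  refine ⟨C, fun m r hm => ?_⟩
  have : NeZero m := ⟨hm.ne'⟩
  have h1 := hC m r hm (fun S => HodgeF k S ∧ ¬ DivF S) (fun S h => h.1.1) (by
    intro f hf h
    by_contra hcon
    have h2 := hodgeO_of_F hf h.1
    exact h.2 (divF_of_lef hf (lef_of_slef h2.1 (hR m hm _ h2 hcon))))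
  have h2 : 2 * k * 3 - (2 * (2 * k) + 1) = 2 * k - 1 := by omega
  rwa [h2] at h1

/-- upper bound for the sets which are not unions of balanced pairs, and whose entries do not
match -/
theorem upperB (k : ℕ) : ∃ C : ℕ, ∀ m r : ℕ, 0 < m →
    {S : Finset ((Fin 3 → ZMod m) × Fin r) | HodgeF k S ∧ ¬ DivF S ∧ ¬ LinF S}.ncard ≤
      C * r ^ (2 * k) * m ^ (2 * k - 2) := by
  classical
  obtain ⟨R, hR⟩ := ordB (2 * k) (even_two_mul k)
  obtain ⟨C, hC⟩ := upper (2 * k) (2 * (2 * k) + 2) R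
  refine ⟨C, fun m r hm => ?_⟩
  have h1 := hC m r hm (fun S => HodgeF k S ∧ ¬ DivF S ∧ ¬ LinF S) (fun S h => h.1.1) (by
    intro f hf h
    by_contra hcon
    rcases hR m hm _ (hodgeO_of_F hf h.1) hcon with h3 | h3
    · exact h.2.1 (divF_of_lef hf h3)
    · exact h.2.2 (linF_of_pair hf h3))
  have h2 : 2 * k * 3 - (2 * (2 * k) + 2) = 2 * k - 2 := by omega
  rwa [h2] at h1

end

end Pool.Agent.Y3.FJ
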